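import Mathlib
import Pool.Agent.Helper683.Lk.Cross

/-! Triangle moves on subsets of three-space, and unknotted polygons. -/

namespace Pool.Agent.Run7.h178

open Pool.Agent.Helper683.Lk (R3 mem_seg seg_mem r3_ext)

/-- An elementary triangle move: the set `K` meets the triangle `a b c` exactly in its side `a b`,
and `K'` arises from `K` when this side is replaced by the two other sides. -/
def DeltaMove (K K' : Set R3) : Prop :=
  ∃ a b c : R3, ¬ Collinear ℝ {a, b, c} ∧ K ∩ convexHull ℝ {a, b, c} = segment ℝ a b ∧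
    K' = (K \ segment ℝ a b) ∪ (segment ℝ a c ∪ segment ℝ c b)

/-- The closed polygon `K` is unknotted: it can be obtained from the boundary of a triangle by a
finite sequence of triangle moves and inverse triangle moves. -/
def Unknotted (K : Set R3) : Prop :=
  ∃ a b c : R3, ¬ Collinear ℝ {a, b, c} ∧
    Relation.EqvGen DeltaMove (segment ℝ a b ∪ segment ℝ b c ∪ segment ℝ c a) K

/-- equivalence of sets under triangle moves -/
def DEq (K K' : Set R3) : Prop := Relation.EqvGen DeltaMove K K'

theorem DEq.refl (K : Set R3) : DEq K K := Relation.EqvGen.refl K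
theorem DEq.symm {K K' : Set R3} (h : DEq K K') : DEq K' K := Relation.EqvGen.symm _ _ h
theorem DEq.trans {K K' K'' : Set R3} (h : DEq K K') (h' : DEq K' K'') : DEq K K'' :=
  Relation.EqvGen.trans _ _ _ h h'

theorem Unknotted.of_DEq {K K' : Set R3} (h : Unknotted K) (h' : DEq K K') : Unknotted K' := by
  obtain ⟨a, b, c, h1, h2⟩ := h
  exact ⟨a, b, c, h1, Relation.EqvGen.trans _ _ _ h2 h'⟩

theorem unknotted_triangle {a b c : R3} (h : ¬ Collinear ℝ {a, b, c}) :
    Unknotted (segment ℝ a b ∪ segment ℝ b c ∪ segment ℝ c a) :=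
  ⟨a, b, c, h, Relation.EqvGen.refl _⟩

/-- a single triangle move -/
theorem tri_move {K : Set R3} {a b c : R3} (h : ¬ Collinear ℝ {a, b, c})
    (hK : ∀ z ∈ K, z ∈ convexHull ℝ {a, b, c} → z = a ∨ z = b) :
    DEq (K ∪ segment ℝ a b) (K ∪ (segment ℝ a c ∪ segment ℝ c b)) := by
  apply Relation.EqvGen.rel
  have hs : segment ℝ a b ⊆ convexHull ℝ {a, b, c} := by
    rw [← convexHull_pair]
    exact convexHull_mono (by intro x hx; simp at hx ⊢; tauto)
  refine ⟨a, b, c, h, ?_, ?_⟩
  · ext z
    constructor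
    · rintro ⟨hz | hz, hz'⟩
      · rcases hK z hz hz' with rfl | rfl
        · exact left_mem_segment ℝ _ _
        · exact right_mem_segment ℝ _ _
      · exact hz
    · intro hz
      exact ⟨Or.inr hz, hs hz⟩
  · ext z
    constructor
    · rintro (hz | hz)
      · by_cases h' : z ∈ segment ℝ a b
        · right
          rcases hK z hz (hs h') with rfl | rfl
          · exact Or.inl (left_mem_segment ℝ _ _)
          · exact Or.inr (right_mem_segment ℝ _ _)
        · exact Or.inl ⟨Or.inl hz, h'⟩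
      · exact Or.inr hz
    · rintro (⟨hz | hz, hz'⟩ | hz)
      · exact Or.inl hz
      · exact absurd hz hz'
      · exact Or.inr hz

/-! ### coordinates -/

/-- the point with given coordinates -/
noncomputable def mk (x y z : ℝ) : R3 := !₂[x, y, z]

@[simp] theorem mk0 (x y z : ℝ) : mk x y z 0 = x := rfl
@[simp] theorem mk1 (x y z : ℝ) : mk x y z 1 = y := rfl
@[simp] theorem mk2 (x y z : ℝ) : mk x y z 2 = z := rfl

theorem mk_inj {x y z x' y' z' : ℝ} (h : mk x y z = mk x' y' z') : x = x' ∧ y = y' ∧ z = z' :=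
  ⟨by have := congrArg (fun p : R3 => p 0) h; simpa using this,
   by have := congrArg (fun p : R3 => p 1) h; simpa using this,
   by have := congrArg (fun p : R3 => p 2) h; simpa using this⟩

theorem eq_mk (p : R3) : p = mk (p 0) (p 1) (p 2) := r3_ext rfl rfl rfl

/-- points of a segment in coordinates -/
theorem mem_seg_iff {a b z : R3} : z ∈ segment ℝ a b ↔ ∃ t : ℝ, 0 ≤ t ∧ t ≤ 1 ∧
    z 0 = (1 - t) * a 0 + t * b 0 ∧ z 1 = (1 - t) * a 1 + t * b 1 ∧ z 2 = (1 - t) * a 2 + t * b 2 := by
  constructor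
  · intro h
    obtain ⟨g, h0, h1, rfl⟩ := mem_seg h
    refine ⟨g, h0, h1, ?_, ?_, ?_⟩ <;> simp <;> ring
  · rintro ⟨t, h0, h1, e0, e1, e2⟩
    have : z = a + t • (b - a) := by
      apply r3_ext <;> simp [e0, e1, e2] <;> ring
    rw [this]
    exact seg_mem a b h0 h1

theorem mem_tri_iff {a b c z : R3} : z ∈ convexHull ℝ {a, b, c} ↔ ∃ y ∈ segment ℝ b c, z ∈ segment ℝ a y := by
  rw [convexHull_insert (by simp), convexHull_pair]
  simp [mem_convexJoin]

theorem tri_perm {a b c : R3} : ({a, b, c} : Set R3) = {b, c, a} := by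
  ext x; simp; tauto
theorem tri_swap {a b c : R3} : ({a, b, c} : Set R3) = {b, a, c} := by
  ext x; simp; tauto
theorem tri_swap' {a b c : R3} : ({a, b, c} : Set R3) = {a, c, b} := by
  ext x; simp; tauto

/-- three points of which exactly one is outside a coordinate plane -/
theorem not_collinear_of {p x y : R3} (hp : p 1 ≠ 0) (hx : x 1 = 0) (hy : y 1 = 0) (hxy : x ≠ y) :
    ¬ Collinear ℝ {p, x, y} := by
  intro h
  rw [collinear_iff_of_mem (p₀ := x) (by simp)] at h
  obtain ⟨v, hv⟩ := h
  obtain ⟨s, hs⟩ := hv p (by simp)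
  obtain ⟨t, ht⟩ := hv y (by simp)
  have h1 : p 1 = s * v 1 + x 1 := by rw [hs]; simp
  have h2 : y 1 = t * v 1 + x 1 := by
    have := congrArg (fun q : R3 => q 1) ht
    simpa using this
  have h3 : t * v 1 = 0 := by linarith
  have h4 : v 1 ≠ 0 := by
    intro h4
    rw [h4] at h1
    apply hp
    rw [h1, hx]; ring
  have h5 : t = 0 := by
    rcases mul_eq_zero.mp h3 with h | h
    · exact h
    · exact absurd h h4
  apply hxy
  rw [ht, h5]
  simp

end Pool.Agent.Run7.h178
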