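import Mathlib
import Pool.Agent.Helper683.Lk.Defs
import Pool.Agent.Run7.h178.Delta

/-! Piecewise-linear embeddings, unknotted cycles, intrinsically knotted graphs and
three-connected graphs. -/

namespace Pool.Agent.Run7.h178

open Pool.Agent.Helper683.Lk (R3 SpatialEmbedding IsLinkingNumber)

/-- a finite union of segments -/
def Polygonal (K : Set R3) : Prop :=
  ∃ s : Finset (R3 × R3), K = ⋃ e ∈ s, segment ℝ e.1 e.2

/-- The spatial embedding is piecewise linear: every arc is a finite union of segments. -/
def IsPL {V : Type*} {G : SimpleGraph V} (E : SpatialEmbedding G) : Prop :=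
  ∀ {a b : V} (h : G.Adj a b), Polygonal (Set.range (E.arc h))

/-- The graph `G` is intrinsically knotted: every piecewise-linear embedding of `G` in three-space
contains a cycle which is not unknotted. -/
def IntrinsicallyKnotted {V : Type*} (G : SimpleGraph V) : Prop :=
  ∀ E : SpatialEmbedding G, IsPL E → ∃ (a : V) (C : G.Walk a a), C.IsCycle ∧
    ¬ Unknotted (Set.range (E.curve C))

/-- The graph `G` is three-connected: it has at least four vertices and stays connected when at most
two vertices are removed. -/
def ThreeConnected {V : Type*} (G : SimpleGraph V) : Prop :=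
  4 ≤ Nat.card V ∧ ∀ x y : V, (G.induce {v | v ≠ x ∧ v ≠ y}).Preconnected

/-- The two closed walks pass through the same edges. -/
def SameCycle {V : Type*} {G : SimpleGraph V} {a b : V} (C : G.Walk a a) (D : G.Walk b b) : Prop :=
  ∀ e, e ∈ C.edges ↔ e ∈ D.edges

/-- The unordered pair of the cycles `A` and `B` is the only pair of vertex-disjoint cycles whose
images under `E` have a nonzero linking number. -/
def OnlyPair {V : Type*} {G : SimpleGraph V} {a b : V} (E : SpatialEmbedding G) (A : G.Walk a a)
    (B : G.Walk b b) : Prop :=
  ∀ (c d : V) (C : G.Walk c c) (D : G.Walk d d) (k : ℤ), C.IsCycle → D.IsCycle →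
    List.Disjoint C.support D.support → IsLinkingNumber (E.curve C) (E.curve D) k → k ≠ 0 →
    (SameCycle C A ∧ SameCycle D B) ∨ (SameCycle C B ∧ SameCycle D A)

end Pool.Agent.Run7.h178
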