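import Mathlib
import Pool.Agent.Run7.h178.Delta

/-! The join of two skew lines: positions, cones and their intersections. -/

namespace Pool.Agent.Run7.h178

open Pool.Agent.Helper683.Lk (R3 mem_seg seg_mem r3_ext)

noncomputable def hub (x : ℝ) : R3 := mk x 0 0
noncomputable def pnt (u : ℝ) : R3 := mk 0 u 1
noncomputable def topc : R3 := mk 0 0 2
noncomputable def botc : R3 := mk 0 0 (-1)

@[simp] theorem hub0 (x : ℝ) : hub x 0 = x := rfl
@[simp] theorem hub1 (x : ℝ) : hub x 1 = 0 := rfl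
@[simp] theorem hub2 (x : ℝ) : hub x 2 = 0 := rfl
@[simp] theorem pnt0 (x : ℝ) : pnt x 0 = 0 := rfl
@[simp] theorem pnt1 (x : ℝ) : pnt x 1 = x := rfl
@[simp] theorem pnt2 (x : ℝ) : pnt x 2 = 1 := rfl
@[simp] theorem topc0 : topc 0 = 0 := rfl
@[simp] theorem topc1 : topc 1 = 0 := rfl
@[simp] theorem topc2 : topc 2 = 2 := rfl
@[simp] theorem botc0 : botc 0 = 0 := rfl
@[simp] theorem botc1 : botc 1 = 0 := rfl
@[simp] theorem botc2 : botc 2 = -1 := rfl

/-- the boundary of the triangle which carries the first cycle -/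
def InA (S : ℝ) (a : R3) : Prop :=
  a 1 = 0 ∧ ((a 2 = 0 ∧ |a 0| ≤ S) ∨ (0 ≤ a 2 ∧ a 2 ≤ 2 ∧ |a 0| = S * (1 - a 2 / 2)))

/-- the boundary of the triangle which carries the second cycle -/
def InB (U : ℝ) (a : R3) : Prop :=
  a 0 = 0 ∧ ((a 2 = 1 ∧ |a 1| ≤ U) ∨ (-1 ≤ a 2 ∧ a 2 ≤ 1 ∧ |a 1| = U * (1 + a 2) / 2))

theorem key {S w a0 a2 : ℝ} (hw : |w| < S) (h : (a2 = 0 ∧ |a0| ≤ S) ∨ (0 ≤ a2 ∧ a2 ≤ 2 ∧ |a0| = S * (1 - a2 / 2)))
    (h1 : a2 ≤ 1) (h2 : a0 = (1 - a2) * w) : a2 = 0 ∧ a0 = w := by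
  rcases h with ⟨h, _⟩ | ⟨h3, h4, h5⟩
  · subst h
    exact ⟨rfl, by linarith⟩
  · have e : |a0| = (1 - a2) * |w| := by rw [h2, abs_mul, abs_of_nonneg (by linarith)]
    rw [e] at h5
    have hS : 0 < S := lt_of_le_of_lt (abs_nonneg w) hw
    have h6 : (1 - a2) * |w| ≤ (1 - a2) * S := mul_le_mul_of_nonneg_left hw.le (by linarith)
    have h7 : S * a2 ≤ 0 := by nlinarith
    have h8 : a2 = 0 := by nlinarith
    subst h8
    exact ⟨rfl, by linarith⟩

/-- a cone over a segment of the first cycle and a rung with another apex -/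
theorem cone_rung {S u q w : ℝ} {x x' z : R3} (huq : u ≠ q) (hw : |w| < S)
    (hA : ∀ a ∈ segment ℝ x x', InA S a) (hz : z ∈ convexHull ℝ {pnt u, x, x'})
    (hr : z ∈ segment ℝ (hub w) (pnt q)) : z = hub w ∧ hub w ∈ segment ℝ x x' := by
  obtain ⟨a, ha, hz⟩ := mem_tri_iff.mp hz
  obtain ⟨t, t0, t1, e0, e1, e2⟩ := mem_seg_iff.mp hz
  obtain ⟨s, s0, s1, f0, f1, f2⟩ := mem_seg_iff.mp hr
  obtain ⟨a1, h⟩ := hA a ha
  simp only [pnt0, pnt1, pnt2, hub0, hub1, hub2, a1, mul_zero, mul_one, zero_add, add_zero] at e0 e1 e2 f0 f1 f2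
  have g0 : t * a 0 = (1 - s) * w := by linarith
  have g1 : (1 - t) * u = s * q := by linarith
  have g2 : 1 - s = t * (1 - a 2) := by linarith
  rcases eq_or_lt_of_le t0 with ht | ht
  · exfalso
    subst ht
    have : s = 1 := by linarith
    subst this
    apply huq; linarith
  · have h1 : a 2 ≤ 1 := by
      by_contra hc
      push Not at hc
      nlinarith
    have h2 : a 0 = (1 - a 2) * w := by
      have : t * a 0 = t * ((1 - a 2) * w) := by rw [g0, g2]; ring
      exact mul_left_cancel₀ ht.ne' this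
    obtain ⟨k1, k2⟩ := key hw h h1 h2
    have hs : s = 1 - t := by rw [k1] at g2; linarith
    have : (1 - t) * (u - q) = 0 := by rw [hs] at g1; linarith
    rcases mul_eq_zero.mp this with h3 | h3
    · have ea : a = hub w := r3_ext (by rw [k2]; rfl) (by rw [a1]; rfl) (by rw [k1]; rfl)
      have hza : z = a := by
        have : t = 1 := by linarith
        subst this
        apply r3_ext
        · rw [e0]; simp
        · rw [e1, a1]; simp
        · rw [e2, k1]; simp
      exact ⟨hza.trans ea, ea ▸ ha⟩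
    · exact absurd (by linarith) huq

/-- a cone over a segment of the first cycle and a rung with the same apex -/
theorem cone_rung' {S u w : ℝ} {x x' z : R3} (hu : u ≠ 0) (hw : |w| < S)
    (hA : ∀ a ∈ segment ℝ x x', InA S a) (hz : z ∈ convexHull ℝ {pnt u, x, x'})
    (hr : z ∈ segment ℝ (hub w) (pnt u)) : z = pnt u ∨ hub w ∈ segment ℝ x x' := by
  obtain ⟨a, ha, hz⟩ := mem_tri_iff.mp hz
  obtain ⟨t, t0, t1, e0, e1, e2⟩ := mem_seg_iff.mp hz
  obtain ⟨s, s0, s1, f0, f1, f2⟩ := mem_seg_iff.mp hr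
  obtain ⟨a1, h⟩ := hA a ha
  simp only [pnt0, pnt1, pnt2, hub0, hub1, hub2, a1, mul_zero, mul_one, zero_add, add_zero] at e0 e1 e2 f0 f1 f2
  have g1 : s = 1 - t := by
    have : (1 - t) * u = s * u := by linarith
    exact (mul_right_cancel₀ hu this).symm
  have g2 : t * a 2 = 0 := by linarith
  rcases mul_eq_zero.mp g2 with h1 | h1
  · left
    subst h1
    apply r3_ext
    · rw [e0]; simp
    · rw [e1]; simp
    · rw [e2]; simp
  · by_cases ht : t = 0
    · left
      subst ht
      apply r3_ext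
      · rw [e0]; simp
      · rw [e1]; simp
      · rw [e2]; simp
    · right
      have h2 : a 0 = w := by
        have : t * a 0 = t * w := by rw [g1] at f0; linarith
        exact mul_left_cancel₀ ht this
      have ea : a = hub w := r3_ext (by rw [h2]; rfl) (by rw [a1]; rfl) (by rw [h1]; rfl)
      exact ea ▸ ha

/-- a cone meets the plane of the first cycle only in its base -/
theorem cone_plane {u : ℝ} {x x' z : R3} (hu : u ≠ 0) (hx : x 1 = 0) (hx' : x' 1 = 0)
    (hz : z ∈ convexHull ℝ {pnt u, x, x'}) (h1 : z 1 = 0) : z ∈ segment ℝ x x' := by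
  obtain ⟨a, ha, hz⟩ := mem_tri_iff.mp hz
  obtain ⟨t, t0, t1, e0, e1, e2⟩ := mem_seg_iff.mp hz
  obtain ⟨s, s0, s1, f0, f1, f2⟩ := mem_seg_iff.mp ha
  have a1 : a 1 = 0 := by rw [f1, hx, hx']; ring
  rw [a1, h1] at e1
  have : (1 - t) * u = 0 := by simp at e1; rcases e1 with h | h
                               · rw [h]; ring
                               · exact absurd h hu
  rcases mul_eq_zero.mp this with h | h
  · have : t = 1 := by linarith
    subst this
    have : z = a := by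
      apply r3_ext
      · rw [e0]; ring
      · rw [h1, a1]
      · rw [e2]; ring
    rw [this]; exact ha
  · exact absurd h hu

/-- a cone meets the second cycle only in its apex -/
theorem cone_B {S U u : ℝ} {x x' z : R3} (hS : 0 < S) (hu : |u| < U)
    (hA : ∀ a ∈ segment ℝ x x', InA S a) (hz : z ∈ convexHull ℝ {pnt u, x, x'})
    (hB : InB U z) : z = pnt u := by
  obtain ⟨a, ha, hz⟩ := mem_tri_iff.mp hz
  obtain ⟨t, t0, t1, e0, e1, e2⟩ := mem_seg_iff.mp hz
  obtain ⟨a1, h⟩ := hA a ha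
  obtain ⟨z0, h'⟩ := hB
  have hU : 0 < U := lt_of_le_of_lt (abs_nonneg u) hu
  simp only [pnt0, pnt1, pnt2, a1, mul_zero, mul_one, zero_add, add_zero, z0] at e0 e1 e2
  rcases eq_or_lt_of_le t0 with ht | ht
  · subst ht
    apply r3_ext
    · rw [z0]; simp
    · rw [e1]; simp
    · rw [e2]; simp
  · exfalso
    have a0 : a 0 = 0 := by
      rcases mul_eq_zero.mp e0.symm with h | h
      · exact absurd h ht.ne'
      · exact h
    have a2 : a 2 = 0 ∨ a 2 = 2 := by
      rcases h with ⟨h, _⟩ | ⟨_, _, h⟩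
      · exact Or.inl h
      · right
        rw [a0, abs_zero] at h
        rcases mul_eq_zero.mp h.symm with h | h
        · exact absurd h hS.ne'
        · linarith
    have habs : |z 1| = (1 - t) * |u| := by rw [e1, abs_mul, abs_of_nonneg (by linarith)]
    have hle : (1 - t) * |u| ≤ (1 - t) * U := mul_le_mul_of_nonneg_left hu.le (by linarith)
    rcases a2 with a2 | a2
    · rw [a2] at e2
      rcases h' with ⟨h, _⟩ | ⟨h1, h2, h3⟩
      · linarith
      · rw [habs] at h3
        have : U * t ≤ 0 := by nlinarith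
        nlinarith
    · rw [a2] at e2
      rcases h' with ⟨h, _⟩ | ⟨h1, h2, h3⟩
      · linarith
      · linarith

end Pool.Agent.Run7.h178
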