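import Mathlib
import Pool.Agent.Run7.h178.Geom

/-! Sliding a rung over an arc of the first cycle. -/

namespace Pool.Agent.Run7.h178

open Pool.Agent.Helper683.Lk (R3 mem_seg seg_mem r3_ext)

theorem tri3 {a b c : R3} : ({a, b, c} : Set R3) = {b, c, a} := by
  ext x; simp; tauto

theorem hub_ne {x y : ℝ} (h : x ≠ y) : hub x ≠ hub y := fun e => h (mk_inj e).1

theorem ncol {u : ℝ} {x y : R3} (hu : u ≠ 0) (hx : x 1 = 0) (hy : y 1 = 0) (hxy : x ≠ y) :
    ¬ Collinear ℝ {pnt u, x, y} := not_collinear_of (by simpa using hu) hx hy hxy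

/-! ### membership in the sides -/

theorem mem_base {v v' : ℝ} {z : R3} (h : z ∈ segment ℝ (hub v) (hub v')) :
    z 1 = 0 ∧ z 2 = 0 ∧ ∃ t : ℝ, 0 ≤ t ∧ t ≤ 1 ∧ z 0 = (1 - t) * v + t * v' := by
  obtain ⟨t, t0, t1, e0, e1, e2⟩ := mem_seg_iff.mp h
  refine ⟨by simpa using e1, by simpa using e2, t, t0, t1, by simpa using e0⟩

theorem mem_side {c : ℝ} {z : R3} (h : z ∈ segment ℝ (hub c) topc) :
    z 1 = 0 ∧ ∃ t : ℝ, 0 ≤ t ∧ t ≤ 1 ∧ z 0 = (1 - t) * c ∧ z 2 = 2 * t := by
  obtain ⟨t, t0, t1, e0, e1, e2⟩ := mem_seg_iff.mp h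
  refine ⟨by simpa using e1, t, t0, t1, by simpa using e0, ?_⟩
  simp at e2; linarith

theorem base_InA {S v v' : ℝ} (hv : |v| ≤ S) (hv' : |v'| ≤ S) :
    ∀ a ∈ segment ℝ (hub v) (hub v'), InA S a := by
  intro a ha
  obtain ⟨h1, h2, t, t0, t1, e⟩ := mem_base ha
  refine ⟨h1, Or.inl ⟨h2, ?_⟩⟩
  rw [abs_le] at hv hv' ⊢
  rw [e]
  constructor <;> nlinarith [hv.1, hv.2, hv'.1, hv'.2]

theorem side_InA {S c : ℝ} (hc : |c| = S) : ∀ a ∈ segment ℝ (hub c) topc, InA S a := by
  intro a ha
  obtain ⟨h1, t, t0, t1, e, e2⟩ := mem_side ha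
  refine ⟨h1, Or.inr ⟨by linarith, by linarith, ?_⟩⟩
  rw [e, abs_mul, hc, abs_of_nonneg (by linarith), e2]; ring

theorem mul_self_abs' {c S : ℝ} (hc : |c| = S) : c * c = S * S := by
  rw [← hc]; exact (abs_mul_abs_self c).symm

theorem mul_lt_sq {v c S : ℝ} (hS : 0 < S) (hc : |c| = S) (hv : |v| < S) : |v * c| < S * S := by
  rw [abs_mul, hc]
  exact mul_lt_mul_of_pos_right hv hS

/-- hub w on the base arc -/
theorem hub_mem_base {w v v' : ℝ} (h : hub w ∈ segment ℝ (hub v) (hub v')) :
    (v ≤ w ∧ w ≤ v') ∨ (v' ≤ w ∧ w ≤ v) := by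
  obtain ⟨_, _, t, t0, t1, e⟩ := mem_base h
  rw [hub0] at e
  rcases le_total v v' with h | h
  · left; constructor <;> nlinarith
  · right; constructor <;> nlinarith

theorem hub_not_side {S w c : ℝ} (hc : |c| = S) (hw : |w| < S) : hub w ∉ segment ℝ (hub c) topc := by
  intro h
  obtain ⟨_, t, t0, t1, e, e2⟩ := mem_side h
  rw [hub0] at e
  rw [hub2] at e2
  have : t = 0 := by linarith
  subst this
  have : w = c := by linarith
  rw [this, hc] at hw
  exact lt_irrefl _ hw

/-- the long arc of the first cycle from the hub `v` through the corner `c` to the hub `v'` -/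
noncomputable def outer (c v v' : ℝ) : Set R3 :=
  segment ℝ (hub v) (hub c) ∪ segment ℝ (hub c) topc ∪ segment ℝ topc (hub (-c)) ∪
    segment ℝ (hub (-c)) (hub v')

/-- the cone over the long arc -/
noncomputable def coneO (u c v v' : ℝ) : Set R3 :=
  convexHull ℝ {pnt u, hub v, hub c} ∪ convexHull ℝ {pnt u, hub c, topc} ∪
    convexHull ℝ {pnt u, topc, hub (-c)} ∪ convexHull ℝ {pnt u, hub (-c), hub v'}

theorem hub_mem_outer {S w c v v' : ℝ} (hc : |c| = S) (hw : |w| < S) (h : hub w ∈ outer c v v') :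
    hub w ∈ segment ℝ (hub v) (hub c) ∨ hub w ∈ segment ℝ (hub (-c)) (hub v') := by
  rcases h with ((h | h) | h) | h
  · exact Or.inl h
  · exact absurd h (hub_not_side hc hw)
  · rw [segment_symm] at h
    exact absurd h (hub_not_side (by rwa [abs_neg]) hw)
  · exact Or.inr h

section slide
variable {S u c v v' : ℝ}

theorem far (hS : 0 < S) (hc : |c| = S) (hv : |v| < S) (hv' : |v'| < S) (hvv : 0 < (v - v') * c)
    {z : R3} (h : z ∈ segment ℝ (hub v) (hub c)) (h' : z ∈ segment ℝ (hub (-c)) (hub v')) : False := by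
  obtain ⟨_, _, t, t0, t1, e⟩ := mem_base h
  obtain ⟨_, _, s, s0, s1, f⟩ := mem_base h'
  have hcc := mul_self_abs' hc
  have k1 := abs_lt.mp (mul_lt_sq hS hc hv)
  have k2 := abs_lt.mp (mul_lt_sq hS hc hv')
  have e' : z 0 * c = (1 - t) * (v * c) + t * (S * S) := by rw [e, ← hcc]; ring
  have f' : z 0 * c = -(1 - s) * (S * S) + s * (v' * c) := by rw [f, ← hcc]; ring
  nlinarith [k1.1, k1.2, k2.1, k2.2]

theorem c_ne (hS : 0 < S) (hc : |c| = S) : c ≠ 0 := by
  intro h; rw [h, abs_zero] at hc; exact hS.ne hc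

theorem v_ne (hc : |c| = S) (hv : |v| < S) : v ≠ c := by
  intro h; rw [h, hc] at hv; exact lt_irrefl _ hv

theorem slide3 (hu : u ≠ 0) (hS : 0 < S) (hc : |c| = S) (hv : |v| < S) (K : Set R3)
    (h0 : ∀ z ∈ K, z ∈ convexHull ℝ {pnt u, hub v, hub c} → z = pnt u ∨ z = hub v)
    (h1 : ∀ z ∈ K, z ∈ convexHull ℝ {pnt u, hub c, topc} → z = pnt u)
    (h2 : ∀ z ∈ K, z ∈ convexHull ℝ {pnt u, topc, hub (-c)} → z = pnt u) :
    DEq (K ∪ segment ℝ (hub v) (pnt u))
      (K ∪ (segment ℝ (hub v) (hub c) ∪ segment ℝ (hub c) topc ∪ segment ℝ topc (hub (-c))) ∪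
        segment ℝ (hub (-c)) (pnt u)) := by
  have hc0 := c_ne hS hc
  have hvc := v_ne hc hv
  have hc' : |(-c)| = S := by rwa [abs_neg]
  have hct : hub c ≠ topc := fun e => by
    have := (mk_inj e).2.2; norm_num at this
  have hct' : topc ≠ hub (-c) := fun e => by
    have := (mk_inj e).2.2; norm_num at this
  have n0 : ¬ Collinear ℝ {hub v, pnt u, hub c} := by
    rw [tri_swap]; exact ncol hu (by simp) (by simp) (hub_ne hvc)
  have n1 : ¬ Collinear ℝ {hub c, pnt u, topc} := by
    rw [tri_swap]; exact ncol hu (by simp) (by simp) hct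
  have n2 : ¬ Collinear ℝ {topc, pnt u, hub (-c)} := by
    rw [tri_swap]; exact ncol hu (by simp) (by simp) hct'
  have m0 := tri_move (K := K) n0 (by
    intro z hz hz'
    rw [tri_swap] at hz'
    exact (h0 z hz hz').symm)
  have m1 := tri_move (K := K ∪ segment ℝ (hub v) (hub c)) n1 (by
    rintro z (hz | hz) hz' <;> rw [tri_swap] at hz'
    · exact Or.inr (h1 z hz hz')
    · left
      obtain ⟨z1, z2, t, t0, t1, e⟩ := mem_base hz
      have := cone_plane hu (by simp) (by simp) hz' z1
      obtain ⟨_, s, s0, s1, f, f2⟩ := mem_side this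
      have : s = 0 := by linarith
      subst this
      exact r3_ext (by rw [f]; simp) z1 z2)
  have m2 := tri_move (K := K ∪ (segment ℝ (hub v) (hub c) ∪ segment ℝ (hub c) topc)) n2 (by
    rintro z (hz | hz | hz) hz' <;> rw [tri_swap] at hz'
    · exact Or.inr (h2 z hz hz')
    · exfalso
      obtain ⟨z1, z2, t, t0, t1, e⟩ := mem_base hz
      have := cone_plane hu (by simp) (by simp) hz' z1
      rw [segment_symm] at this
      obtain ⟨_, s, s0, s1, f, f2⟩ := mem_side this
      have : s = 0 := by linarith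
      subst this
      have k1 := abs_lt.mp (mul_lt_sq hS hc hv)
      have hcc := mul_self_abs' hc
      have g : ((1 - t) * v + t * c) * c = - c * c := by rw [← e, f]; ring
      nlinarith [k1.1, k1.2]
    · left
      obtain ⟨z1, t, t0, t1, e, e2⟩ := mem_side hz
      have := cone_plane hu (by simp) (by simp) hz' z1
      rw [segment_symm] at this
      obtain ⟨_, s, s0, s1, f, f2⟩ := mem_side this
      have : s = t := by linarith
      subst this
      have g : (1 - s) * c = 0 := by
        have : (1 - s) * c = (1 - s) * -c := by rw [← e, f]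
        linarith
      have : s = 1 := by
        rcases mul_eq_zero.mp g with h | h
        · linarith
        · exact absurd h hc0
      subst this
      exact r3_ext (by rw [e]; simp) z1 (by rw [e2]; simp))
  have s1 : (K ∪ (segment ℝ (hub v) (hub c) ∪ segment ℝ (hub c) (pnt u))) =
      (K ∪ segment ℝ (hub v) (hub c)) ∪ segment ℝ (hub c) (pnt u) := by
    rw [Set.union_assoc]
  have s2 : ((K ∪ segment ℝ (hub v) (hub c)) ∪ (segment ℝ (hub c) topc ∪ segment ℝ topc (pnt u))) =
      (K ∪ (segment ℝ (hub v) (hub c) ∪ segment ℝ (hub c) topc)) ∪ segment ℝ topc (pnt u) := by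
    ext z; simp only [Set.mem_union]; tauto
  have s3 : ((K ∪ (segment ℝ (hub v) (hub c) ∪ segment ℝ (hub c) topc)) ∪
      (segment ℝ topc (hub (-c)) ∪ segment ℝ (hub (-c)) (pnt u))) =
      (K ∪ (segment ℝ (hub v) (hub c) ∪ segment ℝ (hub c) topc ∪ segment ℝ topc (hub (-c))) ∪
        segment ℝ (hub (-c)) (pnt u)) := by
    ext z; simp only [Set.mem_union]; tauto
  rw [s1] at m0
  rw [s2] at m1
  rw [s3] at m2
  exact m0.trans (m1.trans m2)

theorem slide_outer (hu : u ≠ 0) (hS : 0 < S) (hc : |c| = S) (hv : |v| < S) (hv' : |v'| < S)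
    (hvv : 0 < (v - v') * c) (K : Set R3)
    (hK : ∀ z ∈ K, z ∈ coneO u c v v' → z = pnt u ∨ z = hub v) :
    DEq (K ∪ segment ℝ (hub v) (pnt u)) (K ∪ outer c v v' ∪ segment ℝ (hub v') (pnt u)) := by
  have hc' : |(-c)| = S := by rwa [abs_neg]
  have hA1 := side_InA hc
  have hA2 : ∀ a ∈ segment ℝ topc (hub (-c)), InA S a := by
    rw [segment_symm]; exact side_InA hc'
  have hA3 : ∀ a ∈ segment ℝ (hub (-c)) (hub v'), InA S a := base_InA hc'.le hv'.le
  have m := slide3 (v := v) hu hS hc hv K (fun z hz hz' => hK z hz (Or.inl (Or.inl (Or.inl hz'))))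
    (fun z hz hz' => by
      rcases hK z hz (Or.inl (Or.inl (Or.inr hz'))) with h | rfl
      · exact h
      · exact absurd (cone_plane hu (by simp) (by simp) hz' (by simp)) (hub_not_side hc hv))
    (fun z hz hz' => by
      rcases hK z hz (Or.inl (Or.inr hz')) with h | rfl
      · exact h
      · have := cone_plane hu (by simp) (by simp) hz' (by simp)
        rw [segment_symm] at this
        exact absurd this (hub_not_side hc' hv))
  refine m.trans ?_
  have hvc : -c ≠ v' := fun h => v_ne hc' hv' h.symm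
  have n3 : ¬ Collinear ℝ {hub (-c), pnt u, hub v'} := by
    rw [tri_swap]; exact ncol hu (by simp) (by simp) (hub_ne hvc)
  have m3 := tri_move (K := K ∪ (segment ℝ (hub v) (hub c) ∪ segment ℝ (hub c) topc ∪
      segment ℝ topc (hub (-c)))) n3 (by
    rintro z (hz | (hz | hz) | hz) hz' <;> rw [tri_swap] at hz'
    · rcases hK z hz (Or.inr hz') with h | rfl
      · exact Or.inr h
      · exfalso
        exact far hS hc hv hv' hvv (left_mem_segment ℝ _ _)
          (cone_plane hu (by simp) (by simp) hz' (by simp))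
    · exfalso
      obtain ⟨z1, _⟩ := mem_base hz
      exact far hS hc hv hv' hvv hz (cone_plane hu (by simp) (by simp) hz' z1)
    · exfalso
      obtain ⟨z1, t, t0, t1, e, e2⟩ := mem_side hz
      obtain ⟨_, z2, s, s0, s1, f⟩ := mem_base (cone_plane hu (by simp) (by simp) hz' z1)
      have : t = 0 := by linarith
      subst this
      have k2 := abs_lt.mp (mul_lt_sq hS hc hv')
      have hcc := mul_self_abs' hc
      have g : c * c = -(1 - s) * (S * S) + s * (v' * c) := by
        have : z 0 * c = -(1 - s) * (S * S) + s * (v' * c) := by rw [f, ← hcc]; ring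
        rw [← this, e]; ring
      nlinarith [k2.1, k2.2]
    · left
      rw [segment_symm] at hz
      obtain ⟨z1, t, t0, t1, e, e2⟩ := mem_side hz
      obtain ⟨_, z2, s, s0, s1, f⟩ := mem_base (cone_plane hu (by simp) (by simp) hz' z1)
      have : t = 0 := by linarith
      subst this
      exact r3_ext (by rw [e]; simp) z1 z2)
  have s3 : ((K ∪ (segment ℝ (hub v) (hub c) ∪ segment ℝ (hub c) topc ∪ segment ℝ topc (hub (-c)))) ∪
      (segment ℝ (hub (-c)) (hub v') ∪ segment ℝ (hub v') (pnt u))) =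
      K ∪ outer c v v' ∪ segment ℝ (hub v') (pnt u) := by
    ext z; simp only [Set.mem_union, outer]; tauto
  rw [s3] at m3
  exact m3

theorem fan_outer (hu : u ≠ 0) (hS : 0 < S) (hc : |c| = S) (hv : |v| < S) (hv' : |v'| < S)
    (hvv : 0 < (v - v') * c) (K : Set R3)
    (hK : ∀ z ∈ K, z ∈ coneO u c v v' → z = hub v ∨ z = hub v') :
    DEq (K ∪ (segment ℝ (hub v) (pnt u) ∪ segment ℝ (pnt u) (hub v'))) (K ∪ outer c v v') := by
  have hc' : |(-c)| = S := by rwa [abs_neg]
  have hA0 : ∀ a ∈ segment ℝ (hub v) (hub c), InA S a := base_InA hv.le hc.le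
  have hA1 := side_InA hc
  have hA2 : ∀ a ∈ segment ℝ topc (hub (-c)), InA S a := by
    rw [segment_symm]; exact side_InA hc'
  have hA3 : ∀ a ∈ segment ℝ (hub (-c)) (hub v'), InA S a := base_InA hc'.le hv'.le
  have hn0 : hub v' ∉ segment ℝ (hub v) (hub c) := fun h =>
    far hS hc hv hv' hvv h (right_mem_segment ℝ _ _)
  have hn1 := hub_not_side hc hv'
  have hn2 : hub v' ∉ segment ℝ topc (hub (-c)) := by
    rw [segment_symm]; exact hub_not_side hc' hv'
  have m := slide3 (v := v) hu hS hc hv (K ∪ segment ℝ (pnt u) (hub v'))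
    (by
      rintro z (hz | hz) hz'
      · rcases hK z hz (Or.inl (Or.inl (Or.inl hz'))) with h | rfl
        · exact Or.inr h
        · exact absurd (cone_plane hu (by simp) (by simp) hz' (by simp)) hn0
      · rw [segment_symm] at hz
        rcases cone_rung' hu hv' hA0 hz' hz with h | h
        · exact Or.inl h
        · exact absurd h hn0)
    (by
      rintro z (hz | hz) hz'
      · rcases hK z hz (Or.inl (Or.inl (Or.inr hz'))) with rfl | rfl
        · exact absurd (cone_plane hu (by simp) (by simp) hz' (by simp)) (hub_not_side hc hv)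
        · exact absurd (cone_plane hu (by simp) (by simp) hz' (by simp)) hn1
      · rw [segment_symm] at hz
        rcases cone_rung' hu hv' hA1 hz' hz with h | h
        · exact h
        · exact absurd h hn1)
    (by
      rintro z (hz | hz) hz'
      · rcases hK z hz (Or.inl (Or.inr hz')) with rfl | rfl
        · have := cone_plane hu (by simp) (by simp) hz' (by simp)
          rw [segment_symm] at this
          exact absurd this (hub_not_side hc' hv)
        · exact absurd (cone_plane hu (by simp) (by simp) hz' (by simp)) hn2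
      · rw [segment_symm] at hz
        rcases cone_rung' hu hv' hA2 hz' hz with h | h
        · exact h
        · exact absurd h hn2)
  have hvc : -c ≠ v' := fun h => v_ne hc' hv' h.symm
  have n3 : ¬ Collinear ℝ {hub (-c), hub v', pnt u} := by
    rw [← tri3]; exact ncol hu (by simp) (by simp) (hub_ne hvc)
  have m3 := tri_move (K := K ∪ (segment ℝ (hub v) (hub c) ∪ segment ℝ (hub c) topc ∪
      segment ℝ topc (hub (-c)))) n3 (by
    rintro z (hz | (hz | hz) | hz) hz' <;> rw [← tri3] at hz'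
    · rcases hK z hz (Or.inr hz') with rfl | h
      · exfalso
        exact far hS hc hv hv' hvv (left_mem_segment ℝ _ _)
          (cone_plane hu (by simp) (by simp) hz' (by simp))
      · exact Or.inr h
    · exfalso
      obtain ⟨z1, _⟩ := mem_base hz
      exact far hS hc hv hv' hvv hz (cone_plane hu (by simp) (by simp) hz' z1)
    · exfalso
      obtain ⟨z1, t, t0, t1, e, e2⟩ := mem_side hz
      obtain ⟨_, z2, s, s0, s1, f⟩ := mem_base (cone_plane hu (by simp) (by simp) hz' z1)
      have : t = 0 := by linarith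
      subst this
      have k2 := abs_lt.mp (mul_lt_sq hS hc hv')
      have hcc := mul_self_abs' hc
      have g : c * c = -(1 - s) * (S * S) + s * (v' * c) := by
        have : z 0 * c = -(1 - s) * (S * S) + s * (v' * c) := by rw [f, ← hcc]; ring
        rw [← this, e]; ring
      nlinarith [k2.1, k2.2]
    · left
      rw [segment_symm] at hz
      obtain ⟨z1, t, t0, t1, e, e2⟩ := mem_side hz
      obtain ⟨_, z2, s, s0, s1, f⟩ := mem_base (cone_plane hu (by simp) (by simp) hz' z1)
      have : t = 0 := by linarith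
      subst this
      exact r3_ext (by rw [e]; simp) z1 z2)
  have s1 : K ∪ (segment ℝ (hub v) (pnt u) ∪ segment ℝ (pnt u) (hub v')) =
      K ∪ segment ℝ (pnt u) (hub v') ∪ segment ℝ (hub v) (pnt u) := by
    ext z; simp only [Set.mem_union]; tauto
  have s2 : (K ∪ segment ℝ (pnt u) (hub v')) ∪ (segment ℝ (hub v) (hub c) ∪ segment ℝ (hub c) topc ∪
      segment ℝ topc (hub (-c))) ∪ segment ℝ (hub (-c)) (pnt u) =
      (K ∪ (segment ℝ (hub v) (hub c) ∪ segment ℝ (hub c) topc ∪ segment ℝ topc (hub (-c)))) ∪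
      (segment ℝ (hub (-c)) (pnt u) ∪ segment ℝ (pnt u) (hub v')) := by
    ext z; simp only [Set.mem_union]; tauto
  have s3 : K ∪ (segment ℝ (hub v) (hub c) ∪ segment ℝ (hub c) topc ∪ segment ℝ topc (hub (-c))) ∪
      segment ℝ (hub (-c)) (hub v') = K ∪ outer c v v' := by
    ext z; simp only [Set.mem_union, outer]; tauto
  rw [s1]
  rw [s2] at m
  rw [s3] at m3
  exact m.trans m3.symm

/-! ### the short arc -/

theorem slide_inner (hu : u ≠ 0) (hvv : v ≠ v') (K : Set R3)
    (hK : ∀ z ∈ K, z ∈ convexHull ℝ {pnt u, hub v, hub v'} → z = pnt u ∨ z = hub v) :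
    DEq (K ∪ segment ℝ (hub v) (pnt u)) (K ∪ segment ℝ (hub v) (hub v') ∪ segment ℝ (hub v') (pnt u)) := by
  have n : ¬ Collinear ℝ {hub v, pnt u, hub v'} := by
    rw [tri_swap]; exact ncol hu (by simp) (by simp) (hub_ne hvv)
  have m := tri_move (K := K) n (by
    intro z hz hz'
    rw [tri_swap] at hz'
    exact (hK z hz hz').symm)
  rwa [← Set.union_assoc] at m

theorem fan_inner (hu : u ≠ 0) (hvv : v ≠ v') (K : Set R3)
    (hK : ∀ z ∈ K, z ∈ convexHull ℝ {pnt u, hub v, hub v'} → z = hub v ∨ z = hub v') :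
    DEq (K ∪ (segment ℝ (hub v) (pnt u) ∪ segment ℝ (pnt u) (hub v')))
      (K ∪ segment ℝ (hub v) (hub v')) := by
  have n : ¬ Collinear ℝ {hub v, hub v', pnt u} := by
    rw [← tri3]; exact ncol hu (by simp) (by simp) (hub_ne hvv)
  have m := tri_move (K := K) n (by
    intro z hz hz'
    rw [← tri3] at hz'
    exact hK z hz hz')
  exact m.symm

end slide

end Pool.Agent.Run7.h178
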