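import Mathlib
import Pool.Agent.Run7.h178.Arc

/-! Arcs of the first cycle together with the cones over them. -/

namespace Pool.Agent.Run7.h178

open Pool.Agent.Helper683.Lk (R3 mem_seg seg_mem r3_ext)

/-- everything that is needed about an arc `Γ` of the first cycle from `v` to `v'`; `C u` is the
cone over it with apex `u`, and `I w` says that the hub `w` is on the arc -/
structure ArcOK (S v v' : ℝ) (Γ : Set R3) (C : ℝ → Set R3) (I : ℝ → Prop) : Prop where
  slide : ∀ u : ℝ, u ≠ 0 → ∀ K : Set R3, (∀ z ∈ K, z ∈ C u → z = pnt u ∨ z = hub v) →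
    DEq (K ∪ segment ℝ (hub v) (pnt u)) (K ∪ Γ ∪ segment ℝ (hub v') (pnt u))
  fan : ∀ u : ℝ, u ≠ 0 → ∀ K : Set R3, (∀ z ∈ K, z ∈ C u → z = hub v ∨ z = hub v') →
    DEq (K ∪ (segment ℝ (hub v) (pnt u) ∪ segment ℝ (pnt u) (hub v'))) (K ∪ Γ)
  rung : ∀ (u q w : ℝ) (z : R3), u ≠ q → |w| < S → z ∈ C u → z ∈ segment ℝ (hub w) (pnt q) →
    z = hub w ∧ I w
  rung' : ∀ (u w : ℝ) (z : R3), u ≠ 0 → |w| < S → z ∈ C u → z ∈ segment ℝ (hub w) (pnt u) →
    z = pnt u ∨ I w
  plane : ∀ (u : ℝ) (z : R3), u ≠ 0 → z ∈ C u → z 1 = 0 → z ∈ Γ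
  inB : ∀ (u U : ℝ) (z : R3), |u| < U → z ∈ C u → InB U z → z = pnt u
  inA : ∀ z ∈ Γ, InA S z
  hubG : ∀ w : ℝ, |w| < S → hub w ∈ Γ → I w

theorem inner_ok {S v v' : ℝ} (hS : 0 < S) (hv : |v| < S) (hv' : |v'| < S) (hvv : v ≠ v') :
    ArcOK S v v' (segment ℝ (hub v) (hub v')) (fun u => convexHull ℝ {pnt u, hub v, hub v'})
      (fun w => (v ≤ w ∧ w ≤ v') ∨ (v' ≤ w ∧ w ≤ v)) where
  slide u hu K hK := slide_inner hu hvv K hK
  fan u hu K hK := fan_inner hu hvv K hK
  rung u q w z huq hw hz hr := by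
    obtain ⟨h1, h2⟩ := cone_rung huq hw (base_InA hv.le hv'.le) hz hr
    exact ⟨h1, hub_mem_base h2⟩
  rung' u w z hu hw hz hr := by
    rcases cone_rung' hu hw (base_InA hv.le hv'.le) hz hr with h | h
    · exact Or.inl h
    · exact Or.inr (hub_mem_base h)
  plane u z hu hz h1 := cone_plane hu (by simp) (by simp) hz h1
  inB u U z hu hz hB := cone_B hS hu (base_InA hv.le hv'.le) hz hB
  inA := base_InA hv.le hv'.le
  hubG w _ h := hub_mem_base h

/-- the corner on the side of `v` -/
noncomputable def corner (S v v' : ℝ) : ℝ := if v' < v then S else -S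

theorem corner_abs {S v v' : ℝ} (hS : 0 < S) : |corner S v v'| = S := by
  unfold corner
  split_ifs
  · exact abs_of_pos hS
  · rw [abs_neg]; exact abs_of_pos hS

theorem corner_pos {S v v' : ℝ} (hS : 0 < S) (hvv : v ≠ v') : 0 < (v - v') * corner S v v' := by
  unfold corner
  split_ifs with h
  · exact mul_pos (by linarith) hS
  · have : v < v' := lt_of_le_of_ne (not_lt.mp h) hvv
    nlinarith

theorem outer_symm (c v v' : ℝ) : outer c v v' = outer (-c) v' v := by
  unfold outer
  rw [neg_neg, segment_symm ℝ (hub v) (hub c), segment_symm ℝ (hub c) topc,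
    segment_symm ℝ topc (hub (-c)), segment_symm ℝ (hub (-c)) (hub v')]
  ext z; simp only [Set.mem_union]; tauto

theorem corner_symm {S v v' : ℝ} (hvv : v ≠ v') : corner S v' v = - corner S v v' := by
  unfold corner
  rcases lt_or_gt_of_ne hvv with h | h
  · rw [if_pos h, if_neg (by linarith)]; simp
  · rw [if_neg (by linarith), if_pos h]

/-- the long arc between two hubs -/
noncomputable def louter (S v v' : ℝ) : Set R3 := outer (corner S v v') v v'

theorem louter_symm {S v v' : ℝ} (hvv : v ≠ v') : louter S v v' = louter S v' v := by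
  unfold louter
  rw [outer_symm, corner_symm hvv]

theorem outer_I {S v v' w : ℝ} (hS : 0 < S) (hv : |v| < S) (hv' : |v'| < S) (hvv : v ≠ v')
    (h : hub w ∈ segment ℝ (hub v) (hub (corner S v v')) ∨
      hub w ∈ segment ℝ (hub (-corner S v v')) (hub v')) :
    (w ≤ v ∧ w ≤ v') ∨ (v ≤ w ∧ v' ≤ w) := by
  rw [abs_lt] at hv hv'
  unfold corner at h
  rcases lt_or_gt_of_ne hvv with h' | h'
  · rw [if_neg (by linarith)] at h
    rcases h with h | h
    · rcases hub_mem_base h with h | h
      · left; constructor <;> linarith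
      · left; constructor <;> linarith
    · rw [neg_neg] at h
      rcases hub_mem_base h with h | h
      · right; constructor <;> linarith
      · right; constructor <;> linarith
  · rw [if_pos h'] at h
    rcases h with h | h
    · rcases hub_mem_base h with h | h
      · right; constructor <;> linarith
      · right; constructor <;> linarith
    · rcases hub_mem_base h with h | h
      · left; constructor <;> linarith
      · left; constructor <;> linarith

theorem outer_InA {S c v v' : ℝ} (hc : |c| = S) (hv : |v| < S) (hv' : |v'| < S) :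
    ∀ z ∈ outer c v v', InA S z := by
  have hc' : |(-c)| = S := by rwa [abs_neg]
  rintro z (((h | h) | h) | h)
  · exact base_InA hv.le hc.le z h
  · exact side_InA hc z h
  · rw [segment_symm] at h
    exact side_InA hc' z h
  · exact base_InA hc'.le hv'.le z h

theorem outer_ok {S v v' : ℝ} (hS : 0 < S) (hv : |v| < S) (hv' : |v'| < S) (hvv : v ≠ v') :
    ArcOK S v v' (louter S v v') (fun u => coneO u (corner S v v') v v')
      (fun w => (w ≤ v ∧ w ≤ v') ∨ (v ≤ w ∧ v' ≤ w)) := by
  have hc := corner_abs (v := v) (v' := v') hS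
  have hc' : |(-corner S v v')| = S := by rwa [abs_neg]
  have hp := corner_pos hS hvv
  have hA0 : ∀ a ∈ segment ℝ (hub v) (hub (corner S v v')), InA S a := base_InA hv.le hc.le
  have hA1 := side_InA hc
  have hA2 : ∀ a ∈ segment ℝ topc (hub (-corner S v v')), InA S a := by
    rw [segment_symm]; exact side_InA hc'
  have hA3 : ∀ a ∈ segment ℝ (hub (-corner S v v')) (hub v'), InA S a := base_InA hc'.le hv'.le
  have hI : ∀ w : ℝ, |w| < S → hub w ∈ louter S v v' → (w ≤ v ∧ w ≤ v') ∨ (v ≤ w ∧ v' ≤ w) := by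
    intro w hw h
    exact outer_I hS hv hv' hvv (hub_mem_outer hc hw h)
  refine ⟨fun u hu K hK => slide_outer hu hS hc hv hv' hp K hK,
    fun u hu K hK => fan_outer hu hS hc hv hv' hp K hK, ?_, ?_, ?_, ?_, outer_InA hc hv hv', hI⟩
  · rintro u q w z huq hw (((h | h) | h) | h) hr
    · obtain ⟨h1, h2⟩ := cone_rung huq hw hA0 h hr
      exact ⟨h1, hI w hw (Or.inl (Or.inl (Or.inl h2)))⟩
    · obtain ⟨h1, h2⟩ := cone_rung huq hw hA1 h hr
      exact ⟨h1, hI w hw (Or.inl (Or.inl (Or.inr h2)))⟩
    · obtain ⟨h1, h2⟩ := cone_rung huq hw hA2 h hr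
      exact ⟨h1, hI w hw (Or.inl (Or.inr h2))⟩
    · obtain ⟨h1, h2⟩ := cone_rung huq hw hA3 h hr
      exact ⟨h1, hI w hw (Or.inr h2)⟩
  · rintro u w z hu hw (((h | h) | h) | h) hr
    · rcases cone_rung' hu hw hA0 h hr with h1 | h2
      · exact Or.inl h1
      · exact Or.inr (hI w hw (Or.inl (Or.inl (Or.inl h2))))
    · rcases cone_rung' hu hw hA1 h hr with h1 | h2
      · exact Or.inl h1
      · exact Or.inr (hI w hw (Or.inl (Or.inl (Or.inr h2))))
    · rcases cone_rung' hu hw hA2 h hr with h1 | h2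
      · exact Or.inl h1
      · exact Or.inr (hI w hw (Or.inl (Or.inr h2)))
    · rcases cone_rung' hu hw hA3 h hr with h1 | h2
      · exact Or.inl h1
      · exact Or.inr (hI w hw (Or.inr h2))
  · rintro u z hu (((h | h) | h) | h) h1
    · exact Or.inl (Or.inl (Or.inl (cone_plane hu (by simp) (by simp) h h1)))
    · exact Or.inl (Or.inl (Or.inr (cone_plane hu (by simp) (by simp) h h1)))
    · exact Or.inl (Or.inr (cone_plane hu (by simp) (by simp) h h1))
    · exact Or.inr (cone_plane hu (by simp) (by simp) h h1)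
  · rintro u U z hu (((h | h) | h) | h) hB
    · exact cone_B hS hu hA0 h hB
    · exact cone_B hS hu hA1 h hB
    · exact cone_B hS hu hA2 h hB
    · exact cone_B hS hu hA3 h hB

/-! ### the symmetry which exchanges the two cycles -/

/-- the affine symmetry exchanging hubs and points -/
noncomputable def sigma (z : R3) : R3 := mk (z 1) (z 0) (1 - z 2)

@[simp] theorem sigma0 (z : R3) : sigma z 0 = z 1 := rfl
@[simp] theorem sigma1 (z : R3) : sigma z 1 = z 0 := rfl
@[simp] theorem sigma2 (z : R3) : sigma z 2 = 1 - z 2 := rfl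

theorem sigma_sigma (z : R3) : sigma (sigma z) = z := r3_ext (by simp) (by simp) (by simp)
theorem sigma_inj {x y : R3} (h : sigma x = sigma y) : x = y := by
  rw [← sigma_sigma x, h, sigma_sigma]

theorem sigma_hub (x : ℝ) : sigma (hub x) = pnt x := r3_ext (by simp) (by simp) (by simp)
theorem sigma_pnt (x : ℝ) : sigma (pnt x) = hub x := by rw [← sigma_hub, sigma_sigma]

theorem sigma_segment (a b : R3) : sigma '' segment ℝ a b = segment ℝ (sigma a) (sigma b) := by
  ext z
  constructor
  · rintro ⟨y, hy, rfl⟩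
    obtain ⟨t, t0, t1, e0, e1, e2⟩ := mem_seg_iff.mp hy
    exact mem_seg_iff.mpr ⟨t, t0, t1, by simpa using e1, by simpa using e0, by simp [e2]; ring⟩
  · intro hz
    refine ⟨sigma z, ?_, sigma_sigma z⟩
    obtain ⟨t, t0, t1, e0, e1, e2⟩ := mem_seg_iff.mp hz
    exact mem_seg_iff.mpr ⟨t, t0, t1, by simpa using e1, by simpa using e0, by
      simp at e2 ⊢; rw [e2]; ring⟩

theorem sigma_mem_segment {a b z : R3} : sigma z ∈ segment ℝ (sigma a) (sigma b) ↔ z ∈ segment ℝ a b := by
  rw [← sigma_segment]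
  constructor
  · rintro ⟨y, hy, e⟩
    rwa [← sigma_inj e]
  · intro h
    exact ⟨z, h, rfl⟩

theorem sigma_tri (a b c : R3) : sigma '' convexHull ℝ {a, b, c} =
    convexHull ℝ {sigma a, sigma b, sigma c} := by
  ext z
  constructor
  · rintro ⟨y, hy, rfl⟩
    obtain ⟨w, hw, hy⟩ := mem_tri_iff.mp hy
    exact mem_tri_iff.mpr ⟨sigma w, sigma_mem_segment.mpr hw, sigma_mem_segment.mpr hy⟩
  · intro hz
    obtain ⟨w, hw, hy⟩ := mem_tri_iff.mp hz
    refine ⟨sigma z, mem_tri_iff.mpr ⟨sigma w, ?_, ?_⟩, sigma_sigma z⟩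
    · rw [← sigma_mem_segment, sigma_sigma]; exact hw
    · rw [← sigma_mem_segment, sigma_sigma, sigma_sigma]; exact hy

/-- the symmetry as an affine map -/
theorem sigma_collinear {a b c : R3} (h : Collinear ℝ {a, b, c}) :
    Collinear ℝ {sigma a, sigma b, sigma c} := by
  rw [collinear_iff_of_mem (p₀ := a) (by simp)] at h
  obtain ⟨v, hv⟩ := h
  rw [collinear_iff_of_mem (p₀ := sigma a) (by simp)]
  refine ⟨mk (v 1) (v 0) (- v 2), ?_⟩
  have key : ∀ p : R3, (∃ r : ℝ, p = r • v +ᵥ a) → ∃ r : ℝ, sigma p = r • mk (v 1) (v 0) (-v 2) +ᵥ sigma a := by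
    rintro p ⟨r, rfl⟩
    refine ⟨r, ?_⟩
    apply r3_ext <;> simp
    ring
  intro p hp
  simp only [Set.mem_insert_iff, Set.mem_singleton_iff] at hp
  rcases hp with rfl | rfl | rfl
  · exact key a (hv a (by simp))
  · exact key b (hv b (by simp))
  · exact key c (hv c (by simp))

theorem sigma_ncol {a b c : R3} (h : ¬ Collinear ℝ {a, b, c}) :
    ¬ Collinear ℝ {sigma a, sigma b, sigma c} := by
  intro h'
  apply h
  have := sigma_collinear h'
  simpa only [sigma_sigma] using this

theorem sigma_inj' : Function.Injective sigma := fun _ _ h => sigma_inj h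

theorem DeltaMove.sigma {K K' : Set R3} (h : DeltaMove K K') : DeltaMove (sigma '' K) (sigma '' K') := by
  obtain ⟨a, b, c, h1, h2, h3⟩ := h
  refine ⟨_, _, _, sigma_ncol h1, ?_, ?_⟩
  · rw [← sigma_tri, ← Set.image_inter sigma_inj', h2, sigma_segment]
  · rw [h3, Set.image_union, Set.image_sdiff sigma_inj', Set.image_union, sigma_segment, sigma_segment,
      sigma_segment]

theorem DEq.sigma {K K' : Set R3} (h : DEq K K') : DEq (sigma '' K) (sigma '' K') := by
  induction h with
  | rel x y h => exact Relation.EqvGen.rel _ _ h.sigma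
  | refl x => exact DEq.refl _
  | symm x y _ ih => exact ih.symm
  | trans x y z _ _ ih1 ih2 => exact ih1.trans ih2

theorem Unknotted.sigma {K : Set R3} (h : Unknotted K) : Unknotted (sigma '' K) := by
  obtain ⟨a, b, c, h1, h2⟩ := h
  refine ⟨_, _, _, sigma_ncol h1, ?_⟩
  have := DEq.sigma h2
  rw [Set.image_union, Set.image_union, sigma_segment, sigma_segment, sigma_segment] at this
  exact this

end Pool.Agent.Run7.h178
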