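import Mathlib
import Pool.Agent.Run7.h178.Arc2

/-! Labels, edges of the join of two cycles and their images. -/

namespace Pool.Agent.Run7.h178

open Pool.Agent.Helper683.Lk (R3 mem_seg seg_mem r3_ext)

/-- labels: `(true, i)` is the `i`-th vertex of the first cycle, `(false, j)` the `j`-th vertex of
the second one -/
abbrev Lb := Bool × ℕ

/-- positions -/
noncomputable def P (a : Lb) : R3 := if a.1 then hub (a.2 + 1) else pnt (a.2 + 1)

/-- cyclic adjacency of indices -/
def cadj (k i j : ℕ) : Prop := i + 1 = j ∨ j + 1 = i ∨ (i = 0 ∧ j + 1 = k) ∨ (j = 0 ∧ i + 1 = k)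

open Classical in
/-- the image of an edge of the first cycle -/
noncomputable def arcA (m i j : ℕ) : Set R3 :=
  if i + 1 = j ∨ j + 1 = i then segment ℝ (hub (i + 1)) (hub (j + 1))
  else louter (m + 1) (i + 1) (j + 1)

/-- the image of an edge -/
noncomputable def eim (m n : ℕ) (a b : Lb) : Set R3 :=
  match a.1, b.1 with
  | true, true => arcA m a.2 b.2
  | false, false => sigma '' arcA n a.2 b.2
  | _, _ => segment ℝ (P a) (P b)

/-- exchanging the roles of the two cycles -/
def fl (a : Lb) : Lb := (!a.1, a.2)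

theorem fl_fl (a : Lb) : fl (fl a) = a := by
  rcases a with ⟨s, k⟩; simp [fl]

theorem fl_inj : Function.Injective fl := fun a b h => by rw [← fl_fl a, h, fl_fl]

theorem P_fl (a : Lb) : P (fl a) = sigma (P a) := by
  rcases a with ⟨s, k⟩
  cases s
  · simp only [fl, P, Bool.not_false]
    simp [sigma_pnt]
  · simp only [fl, P, Bool.not_true]
    simp [sigma_hub]

theorem sigma_image_image (K : Set R3) : sigma '' (sigma '' K) = K := by
  rw [Set.image_image]; simp [sigma_sigma]

theorem eim_fl (m n : ℕ) (a b : Lb) : eim n m (fl a) (fl b) = sigma '' eim m n a b := by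
  rcases a with ⟨s, k⟩
  rcases b with ⟨s', k'⟩
  cases s <;> cases s' <;> simp only [eim, fl, Bool.not_true, Bool.not_false]
  · rw [sigma_image_image]
  · rw [sigma_segment]; congr 1
    · simp [P, sigma_pnt]
    · simp [P, sigma_hub]
  · rw [sigma_segment]; congr 1
    · simp [P, sigma_hub]
    · simp [P, sigma_pnt]

theorem cadj_symm {k i j : ℕ} (h : cadj k i j) : cadj k j i := by
  unfold cadj at *; omega

theorem arcA_symm (m : ℕ) {i j : ℕ} (h : i ≠ j) : arcA m i j = arcA m j i := by
  unfold arcA
  by_cases h' : i + 1 = j ∨ j + 1 = i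
  · rw [if_pos h', if_pos h'.symm, segment_symm]
  · rw [if_neg h', if_neg (fun h'' => h' h''.symm), louter_symm]
    intro e
    apply h
    exact_mod_cast add_right_cancel e

theorem eim_symm (m n : ℕ) {a b : Lb} (h : a ≠ b) : eim m n a b = eim m n b a := by
  rcases a with ⟨s, k⟩
  rcases b with ⟨s', k'⟩
  cases s <;> cases s' <;> simp only [eim]
  · rw [arcA_symm]; intro e; exact h (by rw [e])
  · rw [segment_symm]
  · rw [segment_symm]
  · rw [arcA_symm]; intro e; exact h (by rw [e])

theorem eim_rung (m n i j : ℕ) : eim m n (true, i) (false, j) = segment ℝ (hub (i + 1)) (pnt (j + 1)) := rfl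
theorem eim_rung' (m n i j : ℕ) : eim m n (false, j) (true, i) = segment ℝ (pnt (j + 1)) (hub (i + 1)) := rfl
theorem eim_A (m n i j : ℕ) : eim m n (true, i) (true, j) = arcA m i j := rfl
theorem eim_B (m n i j : ℕ) : eim m n (false, i) (false, j) = sigma '' arcA n i j := rfl

/-- the index of a label is in range -/
def okl (m n : ℕ) (a : Lb) : Prop := a.2 < (if a.1 then m else n)

/-- adjacency in the join of two cycles -/
def LAdj (m n : ℕ) (a b : Lb) : Prop := a.1 ≠ b.1 ∨ (a.1 = b.1 ∧ cadj (if a.1 then m else n) a.2 b.2)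

theorem LAdj_fl {m n : ℕ} {a b : Lb} (h : LAdj m n a b) : LAdj n m (fl a) (fl b) := by
  rcases a with ⟨s, k⟩
  rcases b with ⟨s', k'⟩
  unfold LAdj fl at *
  cases s <;> cases s' <;> simp_all

theorem okl_fl {m n : ℕ} {a : Lb} (h : okl m n a) : okl n m (fl a) := by
  rcases a with ⟨s, k⟩
  unfold okl fl at *
  cases s <;> simp_all

theorem abs_pos_lt {m i : ℕ} (h : i < m) : |((i : ℝ) + 1)| < (m : ℝ) + 1 := by
  rw [abs_of_pos (by positivity)]
  have : (i : ℝ) < m := by exact_mod_cast h
  linarith

theorem louter_base {S v v' : ℝ} {z : R3} (hS : 0 < S) (hv : |v| < S) (hv' : |v'| < S) (hvv : v ≠ v')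
    (hz : z ∈ louter S v v') (h2 : z 2 = 0) : (z 0 ≤ v ∧ z 0 ≤ v') ∨ (v ≤ z 0 ∧ v' ≤ z 0) := by
  have hc := corner_abs (v := v) (v' := v') hS
  have h1 : z 1 = 0 := (outer_InA hc hv hv' z hz).1
  have e : z = hub (z 0) := r3_ext rfl h1 h2
  rw [abs_lt] at hv hv'
  have hcor : corner S v v' = S ∧ v' < v ∨ corner S v v' = -S ∧ v < v' := by
    unfold corner
    rcases lt_or_gt_of_ne hvv with h | h
    · right; rw [if_neg (by linarith)]; exact ⟨rfl, h⟩
    · left; rw [if_pos h]; exact ⟨rfl, h⟩
  rcases hz with ((h | h) | h) | h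
  · rw [e] at h
    rcases hcor with ⟨e1, e2⟩ | ⟨e1, e2⟩ <;> rw [e1] at h <;> rcases hub_mem_base h with h | h
    · right; constructor <;> linarith
    · right; constructor <;> linarith
    · left; constructor <;> linarith
    · left; constructor <;> linarith
  · obtain ⟨_, t, t0, t1, f, f2⟩ := mem_side h
    have : t = 0 := by linarith
    subst this
    rcases hcor with ⟨e1, e2⟩ | ⟨e1, e2⟩ <;> rw [e1] at f
    · right; constructor <;> linarith
    · left; constructor <;> linarith
  · rw [segment_symm] at h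
    obtain ⟨_, t, t0, t1, f, f2⟩ := mem_side h
    have : t = 0 := by linarith
    subst this
    rcases hcor with ⟨e1, e2⟩ | ⟨e1, e2⟩ <;> rw [e1] at f
    · left; constructor <;> linarith
    · right; constructor <;> linarith
  · rw [e] at h
    rcases hcor with ⟨e1, e2⟩ | ⟨e1, e2⟩ <;> rw [e1] at h <;> rcases hub_mem_base h with h | h
    · left; constructor <;> linarith
    · left; constructor <;> linarith
    · right; constructor <;> linarith
    · right; constructor <;> linarith

/-- points of the short edges -/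
theorem mem_short {i j : ℕ} {z : R3} (hz : z ∈ segment ℝ (hub (i + 1)) (hub (j + 1))) :
    z 1 = 0 ∧ z 2 = 0 ∧ (((i : ℝ) + 1 ≤ z 0 ∧ z 0 ≤ j + 1) ∨ ((j : ℝ) + 1 ≤ z 0 ∧ z 0 ≤ i + 1)) := by
  obtain ⟨h1, h2, _⟩ := mem_base hz
  have e : z = hub (z 0) := r3_ext rfl h1 h2
  rw [e] at hz
  exact ⟨h1, h2, hub_mem_base hz⟩

section
variable {m : ℕ}

/-- edges of the first cycle are good arcs -/
theorem edge_ok {i i' : ℕ} (hm : 3 ≤ m) (hi : i < m) (hi' : i' < m) (h : cadj m i i') :
    ∃ C I, ArcOK ((m : ℝ) + 1) ((i : ℝ) + 1) ((i' : ℝ) + 1) (arcA m i i') C I ∧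
      ∀ k < m, I ((k : ℝ) + 1) → k = i ∨ k = i' := by
  have hS : (0 : ℝ) < (m : ℝ) + 1 := by positivity
  have hne : ((i : ℝ) + 1) ≠ ((i' : ℝ) + 1) := by
    intro e
    have : i = i' := by exact_mod_cast add_right_cancel e
    unfold cadj at h; omega
  by_cases h' : i + 1 = i' ∨ i' + 1 = i
  · refine ⟨_, _, by unfold arcA; rw [if_pos h']; exact inner_ok hS (abs_pos_lt hi) (abs_pos_lt hi') hne, ?_⟩
    intro k _ hk
    have : (i ≤ k ∧ k ≤ i') ∨ (i' ≤ k ∧ k ≤ i) := by
      rcases hk with ⟨h1, h2⟩ | ⟨h1, h2⟩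
      · left
        constructor
        · exact_mod_cast (by linarith : (i : ℝ) ≤ k)
        · exact_mod_cast (by linarith : (k : ℝ) ≤ i')
      · right
        constructor
        · exact_mod_cast (by linarith : (i' : ℝ) ≤ k)
        · exact_mod_cast (by linarith : (k : ℝ) ≤ i)
    omega
  · refine ⟨_, _, by unfold arcA; rw [if_neg h']; exact outer_ok hS (abs_pos_lt hi) (abs_pos_lt hi') hne, ?_⟩
    intro k hkm hk
    have : (k ≤ i ∧ k ≤ i') ∨ (i ≤ k ∧ i' ≤ k) := by
      rcases hk with ⟨h1, h2⟩ | ⟨h1, h2⟩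
      · left
        constructor
        · exact_mod_cast (by linarith : (k : ℝ) ≤ i)
        · exact_mod_cast (by linarith : (k : ℝ) ≤ i')
      · right
        constructor
        · exact_mod_cast (by linarith : (i : ℝ) ≤ k)
        · exact_mod_cast (by linarith : (i' : ℝ) ≤ k)
    unfold cadj at h
    omega

/-- two edges of the first cycle -/
theorem arcA_inter {i i' x y : ℕ} {z : R3} (hm : 3 ≤ m) (hi : i < m) (hi' : i' < m) (h : cadj m i i')
    (hx : x < m) (hy : y < m) (h' : cadj m x y) (n1 : x ≠ i') (n2 : y ≠ i')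
    (hz : z ∈ arcA m i i') (hz' : z ∈ arcA m x y) : z = hub (i + 1) := by
  have hS : (0 : ℝ) < (m : ℝ) + 1 := by positivity
  have hne : ((i : ℝ) + 1) ≠ ((i' : ℝ) + 1) := by
    intro e
    have : i = i' := by exact_mod_cast add_right_cancel e
    unfold cadj at h; omega
  have hne' : ((x : ℝ) + 1) ≠ ((y : ℝ) + 1) := by
    intro e
    have : x = y := by exact_mod_cast add_right_cancel e
    unfold cadj at h'; omega
  unfold arcA at hz hz'
  have fin : z 1 = 0 → z 2 = 0 → z 0 = (i : ℝ) + 1 → z = hub (i + 1) := fun a b c => r3_ext c a b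
  by_cases c1 : i + 1 = i' ∨ i' + 1 = i
  · rw [if_pos c1] at hz
    obtain ⟨z1, z2, hz⟩ := mem_short hz
    by_cases c2 : x + 1 = y ∨ y + 1 = x
    · rw [if_pos c2] at hz'
      obtain ⟨_, _, hz'⟩ := mem_short hz'
      apply fin z1 z2
      rcases c1 with c1 | c1
      · have e1 : (i' : ℝ) = i + 1 := by exact_mod_cast c1.symm
        rcases c2 with c2 | c2
        · have e2 : (y : ℝ) = x + 1 := by exact_mod_cast c2.symm
          have : x + 1 ≤ i ∨ i + 2 ≤ x := by omega
          rcases this with g | g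
          · have g' : (x : ℝ) + 1 ≤ i := by exact_mod_cast g
            rcases hz with hz | hz <;> rcases hz' with hz' | hz' <;> linarith
          · have g' : (i : ℝ) + 2 ≤ x := by exact_mod_cast g
            rcases hz with hz | hz <;> rcases hz' with hz' | hz' <;> linarith
        · have e2 : (x : ℝ) = y + 1 := by exact_mod_cast c2.symm
          have : y + 1 ≤ i ∨ i + 2 ≤ y := by omega
          rcases this with g | g
          · have g' : (y : ℝ) + 1 ≤ i := by exact_mod_cast g
            rcases hz with hz | hz <;> rcases hz' with hz' | hz' <;> linarith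
          · have g' : (i : ℝ) + 2 ≤ y := by exact_mod_cast g
            rcases hz with hz | hz <;> rcases hz' with hz' | hz' <;> linarith
      · have e1 : (i : ℝ) = i' + 1 := by exact_mod_cast c1.symm
        rcases c2 with c2 | c2
        · have e2 : (y : ℝ) = x + 1 := by exact_mod_cast c2.symm
          have : x + 2 ≤ i' ∨ i ≤ x := by omega
          rcases this with g | g
          · have g' : (x : ℝ) + 2 ≤ i' := by exact_mod_cast g
            rcases hz with hz | hz <;> rcases hz' with hz' | hz' <;> linarith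
          · have g' : (i : ℝ) ≤ x := by exact_mod_cast g
            rcases hz with hz | hz <;> rcases hz' with hz' | hz' <;> linarith
        · have e2 : (x : ℝ) = y + 1 := by exact_mod_cast c2.symm
          have : y + 2 ≤ i' ∨ i ≤ y := by omega
          rcases this with g | g
          · have g' : (y : ℝ) + 2 ≤ i' := by exact_mod_cast g
            rcases hz with hz | hz <;> rcases hz' with hz' | hz' <;> linarith
          · have g' : (i : ℝ) ≤ y := by exact_mod_cast g
            rcases hz with hz | hz <;> rcases hz' with hz' | hz' <;> linarith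
    · rw [if_neg c2] at hz'
      have hb := louter_base hS (abs_pos_lt hx) (abs_pos_lt hy) hne' hz' z2
      apply fin z1 z2
      have hxy : (x = 0 ∧ y + 1 = m) ∨ (y = 0 ∧ x + 1 = m) := by
        unfold cadj at h'; omega
      have hb' : z 0 ≤ 1 ∨ (m : ℝ) ≤ z 0 := by
        rcases hxy with ⟨e, e'⟩ | ⟨e, e'⟩
        · have : (y : ℝ) + 1 = m := by exact_mod_cast e'
          subst e
          rcases hb with hb | hb
          · left; have := hb.1; simpa using this
          · right; linarith [hb.2]
        · have : (x : ℝ) + 1 = m := by exact_mod_cast e'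
          subst e
          rcases hb with hb | hb
          · left; have := hb.2; simpa using this
          · right; linarith [hb.1]
      rcases c1 with c1 | c1
      · have e1 : (i' : ℝ) = i + 1 := by exact_mod_cast c1.symm
        have g : (i' : ℝ) + 2 ≤ m := by
          have : i' + 2 ≤ m := by omega
          exact_mod_cast this
        rcases hb' with hb' | hb'
        · have g2 : (0 : ℝ) ≤ i := by positivity
          rcases hz with hz | hz <;> linarith
        · rcases hz with hz | hz <;> linarith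
      · have e1 : (i : ℝ) = i' + 1 := by exact_mod_cast c1.symm
        have g : (1 : ℝ) ≤ i' := by
          have : 1 ≤ i' := by omega
          exact_mod_cast this
        have g2 : (i : ℝ) + 1 ≤ m := by
          have : i + 1 ≤ m := by omega
          exact_mod_cast this
        rcases hb' with hb' | hb'
        · rcases hz with hz | hz <;> linarith
        · rcases hz with hz | hz <;> linarith
  · rw [if_neg c1] at hz
    have hii : (i = 0 ∧ i' + 1 = m) ∨ (i' = 0 ∧ i + 1 = m) := by
      unfold cadj at h; omega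
    by_cases c2 : x + 1 = y ∨ y + 1 = x
    · rw [if_pos c2] at hz'
      obtain ⟨z1, z2, hz'⟩ := mem_short hz'
      have hb := louter_base hS (abs_pos_lt hi) (abs_pos_lt hi') hne hz z2
      apply fin z1 z2
      rcases hii with ⟨e, e'⟩ | ⟨e, e'⟩
      · have e1 : (i' : ℝ) + 1 = m := by exact_mod_cast e'
        subst e
        have g : x + 2 ≤ m ∧ y + 2 ≤ m := by omega
        have g1 : (x : ℝ) + 2 ≤ m := by exact_mod_cast g.1
        have g2 : (y : ℝ) + 2 ≤ m := by exact_mod_cast g.2
        have g3 : (0 : ℝ) ≤ x := by positivity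
        have g4 : (0 : ℝ) ≤ y := by positivity
        push_cast at hb ⊢
        rcases hb with hb | hb <;> rcases hz' with hz' | hz' <;> linarith
      · have e1 : (i : ℝ) + 1 = m := by exact_mod_cast e'
        subst e
        have g : 1 ≤ x ∧ 1 ≤ y := by omega
        have g1 : (1 : ℝ) ≤ x := by exact_mod_cast g.1
        have g2 : (1 : ℝ) ≤ y := by exact_mod_cast g.2
        have g3 : (x : ℝ) + 1 ≤ m := by exact_mod_cast (by omega : x + 1 ≤ m)
        have g4 : (y : ℝ) + 1 ≤ m := by exact_mod_cast (by omega : y + 1 ≤ m)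
        push_cast at hb ⊢
        rcases hb with hb | hb <;> rcases hz' with hz' | hz' <;> linarith
    · exfalso
      have hxy : (x = 0 ∧ y + 1 = m) ∨ (y = 0 ∧ x + 1 = m) := by
        unfold cadj at h'; omega
      omega

end

theorem arcA_InA {m i j : ℕ} (hi : i < m) (hj : j < m) : ∀ z ∈ arcA m i j, InA ((m : ℝ) + 1) z := by
  intro z hz
  have hS : (0 : ℝ) < (m : ℝ) + 1 := by positivity
  unfold arcA at hz
  split_ifs at hz
  · exact base_InA (abs_pos_lt hi).le (abs_pos_lt hj).le z hz
  · exact outer_InA (corner_abs hS) (abs_pos_lt hi) (abs_pos_lt hj) z hz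

theorem InA_sigma {S : ℝ} {z : R3} (h : InA S z) : InB S (sigma z) := by
  obtain ⟨h1, h⟩ := h
  refine ⟨by simpa using h1, ?_⟩
  rcases h with ⟨h2, h3⟩ | ⟨h2, h3, h4⟩
  · left
    exact ⟨by simp [h2], by simpa using h3⟩
  · right
    refine ⟨by simp; linarith, by simp; linarith, ?_⟩
    simp only [sigma1, sigma2]
    rw [h4]; ring

/-- an edge which avoids `v'` meets the cone over the edge `v v'` only in the apex or in `v` -/
theorem edge_cone {m n i i' j : ℕ} {C : ℝ → Set R3} {I : ℝ → Prop} (hm : 3 ≤ m) (hn : 3 ≤ n) (hi : i < m)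
    (hi' : i' < m) (hj : j < n) (h : cadj m i i')
    (hok : ArcOK ((m : ℝ) + 1) ((i : ℝ) + 1) ((i' : ℝ) + 1) (arcA m i i') C I)
    (hI : ∀ k < m, I ((k : ℝ) + 1) → k = i ∨ k = i') {x y : Lb} (hx : okl m n x) (hy : okl m n y)
    (hxy : LAdj m n x y) (n1 : x ≠ (true, i')) (n2 : y ≠ (true, i'))
    (n3 : ¬ (x = (true, i) ∧ y = (false, j))) (n4 : ¬ (x = (false, j) ∧ y = (true, i)))
    {z : R3} (hz : z ∈ eim m n x y) (hz' : z ∈ C (j + 1)) : z = pnt (j + 1) ∨ z = hub (i + 1) := by
  have hj0 : ((j : ℝ) + 1) ≠ 0 := by positivity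
  rcases x with ⟨s, k⟩
  rcases y with ⟨s', k'⟩
  have rung : ∀ w q : ℕ, w < m → w ≠ i' → ¬ (w = i ∧ q = j) → z ∈ segment ℝ (hub (w + 1)) (pnt (q + 1)) →
      z = pnt (j + 1) ∨ z = hub (i + 1) := by
    intro w q hw hw1 hw2 hz
    by_cases hq : q = j
    · subst hq
      rcases hok.rung' _ _ z hj0 (abs_pos_lt hw) hz' hz with h | h
      · exact Or.inl h
      · rcases hI w hw h with h | h
        · exact absurd ⟨h, rfl⟩ hw2
        · exact absurd h hw1
    · obtain ⟨h1, h2⟩ := hok.rung ((j : ℝ) + 1) ((q : ℝ) + 1) ((w : ℝ) + 1) z (by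
        intro e
        apply hq
        exact_mod_cast (add_right_cancel e).symm) (abs_pos_lt hw) hz' hz
      rcases hI w hw h2 with h | h
      · right; rw [h1, h]
      · exact absurd h hw1
  cases s <;> cases s'
  · left
    rw [eim_B] at hz
    obtain ⟨w, hw, rfl⟩ := hz
    simp only [okl] at hx hy
    refine hok.inB _ ((n : ℝ) + 1) _ (abs_pos_lt hj) hz' (InA_sigma (arcA_InA ?_ ?_ w hw))
    · simpa using hx
    · simpa using hy
  · rw [eim_rung', segment_symm] at hz
    apply rung k' k _ _ _ hz
    · simpa [okl] using hy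
    · intro e; apply n2; rw [e]
    · rintro ⟨e1, e2⟩; apply n4; rw [e1, e2]; exact ⟨rfl, rfl⟩
  · rw [eim_rung] at hz
    apply rung k k' _ _ _ hz
    · simpa [okl] using hx
    · intro e; apply n1; rw [e]
    · rintro ⟨e1, e2⟩; apply n3; rw [e1, e2]; exact ⟨rfl, rfl⟩
  · right
    rw [eim_A] at hz
    have hx' : k < m := by simpa [okl] using hx
    have hy' : k' < m := by simpa [okl] using hy
    have hc : cadj m k k' := by
      rcases hxy with h | ⟨_, h⟩
      · exact absurd rfl h
      · simpa using h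
    have z1 := (arcA_InA hx' hy' z hz).1
    exact arcA_inter hm hi hi' h hx' hy' hc (fun e => n1 (by rw [e])) (fun e => n2 (by rw [e]))
      (hok.plane _ z hj0 hz' z1) hz

end Pool.Agent.Run7.h178
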