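import Mathlib
import Pool.Agent.Helper683.Lk.Defs
import Pool.Agent.Run7.h178.Edge

/-! The polygonal embedding of a subgraph of the join of two cycles. -/

namespace Pool.Agent.Run7.h178

open Pool.Agent.Helper683.Lk (R3 mem_seg seg_mem r3_ext SpatialEmbedding)

/-! ### paths -/

/-- straight path -/
noncomputable def lineP (x y : R3) : Path x y where
  toFun t := AffineMap.lineMap x y (t : ℝ)
  continuous_toFun := (AffineMap.lineMap_continuous).comp continuous_subtype_val
  source' := by simp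
  target' := by simp

theorem lineP_range (x y : R3) : Set.range (lineP x y) = segment ℝ x y := by
  rw [segment_eq_image_lineMap]
  ext z
  constructor
  · rintro ⟨t, rfl⟩
    exact ⟨t, t.2, rfl⟩
  · rintro ⟨t, ht, rfl⟩
    exact ⟨⟨t, ht⟩, rfl⟩

theorem lineP_inj {x y : R3} (h : x ≠ y) : Function.Injective (lineP x y) := by
  intro s t e
  have := AffineMap.lineMap_injective ℝ h e
  exact Subtype.ext this

theorem trans_inj {x y z : R3} {p : Path x y} {q : Path y z} (hp : Function.Injective p)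
    (hq : Function.Injective q) (h : ∀ w ∈ Set.range p, w ∈ Set.range q → w = y) :
    Function.Injective (p.trans q) := by
  have key : ∀ s t : unitInterval, (s : ℝ) ≤ 1 / 2 → ¬ ((t : ℝ) ≤ 1 / 2) → p.trans q s = p.trans q t → False := by
    intro s t hs ht e
    rw [Path.trans_apply, Path.trans_apply, dif_pos hs, dif_neg ht] at e
    have e1 := h _ ⟨_, rfl⟩ (by rw [e]; exact ⟨_, rfl⟩)
    have e2 := e1
    rw [e] at e2
    have e3 := hq (e2.trans q.source.symm)
    have : (2 * (t : ℝ) - 1) = 0 := congrArg Subtype.val e3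
    apply ht
    linarith
  intro s t e
  by_cases hs : (s : ℝ) ≤ 1 / 2 <;> by_cases ht : (t : ℝ) ≤ 1 / 2
  · rw [Path.trans_apply, Path.trans_apply, dif_pos hs, dif_pos ht] at e
    have := congrArg Subtype.val (hp e)
    apply Subtype.ext
    have h2 : (2 * (s : ℝ)) = 2 * (t : ℝ) := this
    linarith
  · exact (key s t hs ht e).elim
  · exact (key t s ht hs e.symm).elim
  · rw [Path.trans_apply, Path.trans_apply, dif_neg hs, dif_neg ht] at e
    have := congrArg Subtype.val (hq e)
    apply Subtype.ext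
    have h2 : (2 * (s : ℝ) - 1) = 2 * (t : ℝ) - 1 := this
    linarith

theorem continuous_sigma : Continuous sigma := by
  unfold sigma mk
  apply (PiLp.continuous_toLp 2 _).comp
  apply continuous_pi
  intro i
  fin_cases i
  · exact (EuclideanSpace.proj (𝕜 := ℝ) (1 : Fin 3)).continuous
  · exact (EuclideanSpace.proj (𝕜 := ℝ) (0 : Fin 3)).continuous
  · exact continuous_const.sub (EuclideanSpace.proj (𝕜 := ℝ) (2 : Fin 3)).continuous

/-- existence of an injective path with a given image -/
def HasPath (x y : R3) (K : Set R3) : Prop := ∃ γ : Path x y, Function.Injective γ ∧ Set.range γ = K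

theorem HasPath.line {x y : R3} (h : x ≠ y) : HasPath x y (segment ℝ x y) :=
  ⟨lineP x y, lineP_inj h, lineP_range x y⟩

theorem HasPath.trans {x y z : R3} {K L : Set R3} (h1 : HasPath x y K) (h2 : HasPath y z L)
    (h : ∀ w ∈ K, w ∈ L → w = y) : HasPath x z (K ∪ L) := by
  obtain ⟨p, p1, p2⟩ := h1
  obtain ⟨q, q1, q2⟩ := h2
  refine ⟨p.trans q, trans_inj p1 q1 (by rw [p2, q2]; exact h), ?_⟩
  rw [Path.trans_range, p2, q2]

theorem HasPath.sigma {x y : R3} {K : Set R3} (h : HasPath x y K) :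
    HasPath (sigma x) (sigma y) (sigma '' K) := by
  obtain ⟨p, p1, p2⟩ := h
  refine ⟨p.map continuous_sigma, ?_, ?_⟩
  · intro s t e
    exact p1 (sigma_inj e)
  · rw [← p2]
    ext z
    constructor
    · rintro ⟨t, rfl⟩
      exact ⟨_, ⟨t, rfl⟩, rfl⟩
    · rintro ⟨_, ⟨t, rfl⟩, rfl⟩
      exact ⟨t, rfl⟩

theorem hasPath_outer {S c v v' : ℝ} (hS : 0 < S) (hc : |c| = S) (hv : |v| < S) (hv' : |v'| < S)
    (hvv : 0 < (v - v') * c) : HasPath (hub v) (hub v') (outer c v v') := by
  have hc' : |(-c)| = S := by rwa [abs_neg]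
  have hc0 := c_ne hS hc
  have hct : hub c ≠ topc := fun e => by
    have := (mk_inj e).2.2; norm_num at this
  have hct' : topc ≠ hub (-c) := fun e => by
    have := (mk_inj e).2.2; norm_num at this
  have h1 := HasPath.line (hub_ne (v_ne hc hv))
  have h2 := HasPath.line hct
  have h3 := HasPath.line hct'
  have h4 := HasPath.line (hub_ne (v_ne hc' hv').symm)
  have h12 := h1.trans h2 (by
    intro z hz hz'
    obtain ⟨z1, z2, _⟩ := mem_base hz
    obtain ⟨_, s, s0, s1, f, f2⟩ := mem_side hz'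
    have : s = 0 := by linarith
    subst this
    exact r3_ext (by rw [f]; simp) z1 z2)
  have h123 := h12.trans h3 (by
    rintro z (hz | hz) hz'
    · exfalso
      obtain ⟨z1, z2, t, t0, t1, e⟩ := mem_base hz
      rw [segment_symm] at hz'
      obtain ⟨_, s, s0, s1, f, f2⟩ := mem_side hz'
      have : s = 0 := by linarith
      subst this
      have k1 := abs_lt.mp (mul_lt_sq hS hc hv)
      have hcc := mul_self_abs' hc
      have g : ((1 - t) * v + t * c) * c = - c * c := by rw [← e, f]; ring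
      nlinarith [k1.1, k1.2]
    · obtain ⟨z1, t, t0, t1, e, e2⟩ := mem_side hz
      rw [segment_symm] at hz'
      obtain ⟨_, s, s0, s1, f, f2⟩ := mem_side hz'
      have : s = t := by linarith
      subst this
      have g : (1 - s) * c = 0 := by
        have : (1 - s) * c = (1 - s) * -c := by rw [← e, f]
        linarith
      have : s = 1 := by
        rcases mul_eq_zero.mp g with h | h
        · linarith
        · exact absurd h hc0
      subst this
      exact r3_ext (by rw [e]; simp) z1 (by rw [e2]; simp))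
  exact h123.trans h4 (by
    rintro z ((hz | hz) | hz) hz'
    · exact (far hS hc hv hv' hvv hz hz').elim
    · exfalso
      obtain ⟨z1, t, t0, t1, e, e2⟩ := mem_side hz
      obtain ⟨_, z2, s, s0, s1, f⟩ := mem_base hz'
      have : t = 0 := by linarith
      subst this
      have k2 := abs_lt.mp (mul_lt_sq hS hc hv')
      have hcc := mul_self_abs' hc
      have g : c * c = -(1 - s) * (S * S) + s * (v' * c) := by
        have : z 0 * c = -(1 - s) * (S * S) + s * (v' * c) := by rw [f, ← hcc]; ring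
        rw [← this, e]; ring
      nlinarith [k2.1, k2.2]
    · rw [segment_symm] at hz
      obtain ⟨z1, t, t0, t1, e, e2⟩ := mem_side hz
      obtain ⟨_, z2, s, s0, s1, f⟩ := mem_base hz'
      have : t = 0 := by linarith
      subst this
      exact r3_ext (by rw [e]; simp) z1 z2)

theorem hasPath_A {m i j : ℕ} (hi : i < m) (hj : j < m) (hij : i ≠ j) :
    HasPath (hub (i + 1)) (hub (j + 1)) (arcA m i j) := by
  have hne : ((i : ℝ) + 1) ≠ ((j : ℝ) + 1) := by
    intro e; exact hij (by exact_mod_cast add_right_cancel e)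
  have hS : (0 : ℝ) < (m : ℝ) + 1 := by positivity
  unfold arcA
  split_ifs
  · exact HasPath.line (hub_ne hne)
  · exact hasPath_outer hS (corner_abs hS) (abs_pos_lt hi) (abs_pos_lt hj) (corner_pos hS hne)

theorem P_true (i : ℕ) : P (true, i) = hub (i + 1) := rfl
theorem P_false (i : ℕ) : P (false, i) = pnt (i + 1) := rfl

theorem P_inj {a b : Lb} (h : P a = P b) : a = b := by
  rcases a with ⟨s, k⟩
  rcases b with ⟨s', k'⟩
  cases s <;> cases s'
  · rw [P_false, P_false] at h
    have := (mk_inj h).2.1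
    have : k = k' := by exact_mod_cast add_right_cancel this
    rw [this]
  · rw [P_false, P_true] at h
    have := (mk_inj h).2.2
    norm_num at this
  · rw [P_false, P_true] at h
    have := (mk_inj h).2.2
    norm_num at this
  · rw [P_true, P_true] at h
    have := (mk_inj h).1
    have : k = k' := by exact_mod_cast add_right_cancel this
    rw [this]

theorem hasPath {m n : ℕ} {a b : Lb} (ha : okl m n a) (hb : okl m n b) (hab : a ≠ b) :
    HasPath (P a) (P b) (eim m n a b) := by
  have hne : P a ≠ P b := fun e => hab (P_inj e)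
  rcases a with ⟨s, k⟩
  rcases b with ⟨s', k'⟩
  cases s <;> cases s'
  · rw [eim_B, P_false, P_false, ← sigma_hub, ← sigma_hub]
    apply HasPath.sigma
    apply hasPath_A
    · simpa [okl] using ha
    · simpa [okl] using hb
    · rintro rfl; exact hab rfl
  · exact HasPath.line hne
  · exact HasPath.line hne
  · rw [eim_A, P_true, P_true]
    apply hasPath_A
    · simpa [okl] using ha
    · simpa [okl] using hb
    · rintro rfl; exact hab rfl

/-! ### intersections of edges -/

theorem rung_rung {w q w' q' : ℝ} {z : R3} (h : z ∈ segment ℝ (hub w) (pnt q))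
    (h' : z ∈ segment ℝ (hub w') (pnt q')) :
    (w = w' ∧ q = q') ∨ (w = w' ∧ z = hub w) ∨ (q = q' ∧ z = pnt q) := by
  obtain ⟨t, t0, t1, e0, e1, e2⟩ := mem_seg_iff.mp h
  obtain ⟨s, s0, s1, f0, f1, f2⟩ := mem_seg_iff.mp h'
  simp only [pnt0, pnt1, pnt2, hub0, hub1, hub2, mul_zero, mul_one, zero_add, add_zero] at e0 e1 e2 f0 f1 f2
  have hst : s = t := by linarith
  subst hst
  have g1 : (1 - s) * (w - w') = 0 := by linarith
  have g2 : s * (q - q') = 0 := by linarith
  rcases mul_eq_zero.mp g1 with h1 | h1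
  · have : s = 1 := by linarith
    subst this
    right; right
    refine ⟨by linarith, r3_ext ?_ ?_ ?_⟩
    · rw [e0]; simp
    · rw [e1]; simp
    · rw [e2]; simp
  · have hw : w = w' := by linarith
    rcases mul_eq_zero.mp g2 with h2 | h2
    · right; left
      refine ⟨hw, r3_ext ?_ ?_ ?_⟩
      · rw [e0, h2]; simp
      · rw [e1, h2]; simp
      · rw [e2, h2]; simp
    · left
      exact ⟨hw, by linarith⟩

theorem rung_A {w q : ℝ} {z : R3} (hq : q ≠ 0) (h : z ∈ segment ℝ (hub w) (pnt q)) (h1 : z 1 = 0) :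
    z = hub w := by
  obtain ⟨t, t0, t1, e0, e1, e2⟩ := mem_seg_iff.mp h
  simp only [pnt0, pnt1, pnt2, hub0, hub1, hub2, mul_zero, mul_one, zero_add, add_zero] at e0 e1 e2
  rw [h1] at e1
  have ht : t = 0 := by
    rcases mul_eq_zero.mp e1.symm with h | h
    · exact h
    · exact absurd h hq
  subst ht
  exact r3_ext (by rw [e0]; simp) (by rw [h1]; simp) (by rw [e2]; simp)

theorem A_B_disjoint {S U : ℝ} {z : R3} (h : InA S z) (h' : InB U z) (hS : 0 < S) (hU : 0 < U) : False := by
  obtain ⟨z1, h⟩ := h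
  obtain ⟨z0, h'⟩ := h'
  rw [z0, abs_zero] at h
  rw [z1, abs_zero] at h'
  rcases h with ⟨h, _⟩ | ⟨h1, h2, h3⟩
  · rcases h' with ⟨h', _⟩ | ⟨h1, h2, h3⟩
    · rw [h] at h'; norm_num at h'
    · rw [h] at h3; linarith
  · have h4 : z 2 = 2 := by
      rcases mul_eq_zero.mp h3.symm with h | h
      · linarith
      · linarith
    rcases h' with ⟨h', _⟩ | ⟨h1, h2, h3⟩
    · linarith
    · linarith

/-- common points of two edges of the first cycle -/
theorem A_A {m i i' x y : ℕ} {z : R3} (hm : 3 ≤ m) (hi : i < m) (hi' : i' < m) (h : cadj m i i')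
    (hx : x < m) (hy : y < m) (h' : cadj m x y) (hne : ¬ (x = i ∧ y = i')) (hne' : ¬ (x = i' ∧ y = i))
    (hz : z ∈ arcA m i i') (hz' : z ∈ arcA m x y) :
    ∃ k, (k = i ∨ k = i') ∧ (k = x ∨ k = y) ∧ z = hub (k + 1) := by
  have hii : i ≠ i' := by
    rintro rfl; unfold cadj at h; omega
  obtain ⟨C, I, hok, hI⟩ := edge_ok hm hx hy h'
  by_cases c : x ≠ i' ∧ y ≠ i'
  · have e := arcA_inter hm hi hi' h hx hy h' c.1 c.2 hz hz'
    refine ⟨i, Or.inl rfl, ?_, e⟩
    rw [e] at hz'
    exact hI i hi (hok.hubG _ (abs_pos_lt hi) hz')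
  · have c' : x ≠ i ∧ y ≠ i := by omega
    rw [arcA_symm m hii] at hz
    have e := arcA_inter hm hi' hi (cadj_symm h) hx hy h' c'.1 c'.2 hz hz'
    refine ⟨i', Or.inr rfl, ?_, e⟩
    rw [e] at hz'
    exact hI i' hi' (hok.hubG _ (abs_pos_lt hi') hz')

/-- common points of two edges, the first one being a rung or an edge of the first cycle -/
theorem edge_inter_aux {m n : ℕ} (hm : 3 ≤ m) {a b c d : Lb} (ha : okl m n a) (hb : okl m n b)
    (hc : okl m n c) (hd : okl m n d) (hab : LAdj m n a b) (hcd : LAdj m n c d)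
    (h1 : ¬ (a.1 = false ∧ b.1 = false)) (h2 : ¬ (c.1 = false ∧ d.1 = false))
    (hne : ¬ (c = a ∧ d = b)) (hne' : ¬ (c = b ∧ d = a))
    {z : R3} (hz : z ∈ eim m n a b) (hz' : z ∈ eim m n c d) :
    ∃ v, (v = a ∨ v = b) ∧ (v = c ∨ v = d) ∧ z = P v := by
  -- reduce to rungs starting with a hub
  have rr : ∀ w q w' q' : ℕ, z ∈ segment ℝ (hub (w + 1)) (pnt (q + 1)) →
      z ∈ segment ℝ (hub (w' + 1)) (pnt (q' + 1)) → ¬ (w' = w ∧ q' = q) →
      (w = w' ∧ z = hub (w + 1)) ∨ (q = q' ∧ z = pnt (q + 1)) := by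
    intro w q w' q' k1 k2 k3
    rcases rung_rung k1 k2 with ⟨g1, g2⟩ | ⟨g1, g2⟩ | ⟨g1, g2⟩
    · exfalso
      apply k3
      exact ⟨by exact_mod_cast (add_right_cancel g1).symm, by exact_mod_cast (add_right_cancel g2).symm⟩
    · exact Or.inl ⟨by exact_mod_cast add_right_cancel g1, g2⟩
    · exact Or.inr ⟨by exact_mod_cast add_right_cancel g1, g2⟩
  have ra : ∀ w q x y : ℕ, w < m → x < m → y < m → cadj m x y → z ∈ segment ℝ (hub (w + 1)) (pnt (q + 1)) →
      z ∈ arcA m x y → (w = x ∨ w = y) ∧ z = hub (w + 1) := by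
    intro w q x y kw kx ky kc k1 k2
    have e := rung_A (by positivity) k1 (arcA_InA kx ky z k2).1
    obtain ⟨C, I, hok, hI⟩ := edge_ok hm kx ky kc
    rw [e] at k2
    exact ⟨hI w kw (hok.hubG _ (abs_pos_lt kw) k2), e⟩
  rcases a with ⟨sa, a⟩
  rcases b with ⟨sb, b⟩
  rcases c with ⟨sc, c⟩
  rcases d with ⟨sd, d⟩
  simp only [okl] at ha hb hc hd
  cases sa <;> cases sb <;> cases sc <;> cases sd <;>
    simp only [reduceIte, Bool.false_eq_true, and_self, not_true_eq_false, and_false, and_true,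
      not_false_eq_true, false_and, true_and, Prod.mk.injEq, reduceCtorEq] at ha hb hc hd h1 h2 hne hne'
  · -- false true false true
    rw [eim_rung', segment_symm] at hz hz'
    rcases rr b a d c hz hz' (by rintro ⟨e1, e2⟩; exact hne ⟨e2, e1⟩) with ⟨e1, e2⟩ | ⟨e1, e2⟩
    · exact ⟨(true, b), Or.inr rfl, Or.inr (by rw [e1]), e2⟩
    · exact ⟨(false, a), Or.inl rfl, Or.inl (by rw [e1]), e2⟩
  · -- false true true false
    rw [eim_rung', segment_symm] at hz
    rw [eim_rung] at hz'
    rcases rr b a c d hz hz' (by rintro ⟨e1, e2⟩; exact hne' ⟨e1, e2⟩) with ⟨e1, e2⟩ | ⟨e1, e2⟩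
    · exact ⟨(true, b), Or.inr rfl, Or.inl (by rw [e1]), e2⟩
    · exact ⟨(false, a), Or.inl rfl, Or.inr (by rw [e1]), e2⟩
  · -- false true true true
    rw [eim_rung', segment_symm] at hz
    rw [eim_A] at hz'
    have kc : cadj m c d := by
      rcases hcd with h | ⟨_, h⟩
      · exact absurd rfl h
      · simpa using h
    obtain ⟨g1, g2⟩ := ra b a c d hb hc hd kc hz hz'
    refine ⟨(true, b), Or.inr rfl, ?_, g2⟩
    rcases g1 with g | g <;> rw [g] <;> simp
  · -- true false false true
    rw [eim_rung] at hz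
    rw [eim_rung', segment_symm] at hz'
    rcases rr a b d c hz hz' (by rintro ⟨e1, e2⟩; exact hne' ⟨e2, e1⟩) with ⟨e1, e2⟩ | ⟨e1, e2⟩
    · exact ⟨(true, a), Or.inl rfl, Or.inr (by rw [e1]), e2⟩
    · exact ⟨(false, b), Or.inr rfl, Or.inl (by rw [e1]), e2⟩
  · -- true false true false
    rw [eim_rung] at hz hz'
    rcases rr a b c d hz hz' (by rintro ⟨e1, e2⟩; exact hne ⟨e1, e2⟩) with ⟨e1, e2⟩ | ⟨e1, e2⟩
    · exact ⟨(true, a), Or.inl rfl, Or.inl (by rw [e1]), e2⟩
    · exact ⟨(false, b), Or.inr rfl, Or.inr (by rw [e1]), e2⟩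
  · -- true false true true
    rw [eim_rung] at hz
    rw [eim_A] at hz'
    have kc : cadj m c d := by
      rcases hcd with h | ⟨_, h⟩
      · exact absurd rfl h
      · simpa using h
    obtain ⟨g1, g2⟩ := ra a b c d ha hc hd kc hz hz'
    refine ⟨(true, a), Or.inl rfl, ?_, g2⟩
    rcases g1 with g | g <;> rw [g] <;> simp
  · -- true true false true
    rw [eim_A] at hz
    rw [eim_rung', segment_symm] at hz'
    have kc : cadj m a b := by
      rcases hab with h | ⟨_, h⟩
      · exact absurd rfl h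
      · simpa using h
    obtain ⟨g1, g2⟩ := ra d c a b hd ha hb kc hz' hz
    refine ⟨(true, d), ?_, Or.inr rfl, g2⟩
    rcases g1 with g | g <;> rw [g] <;> simp
  · -- true true true false
    rw [eim_A] at hz
    rw [eim_rung] at hz'
    have kc : cadj m a b := by
      rcases hab with h | ⟨_, h⟩
      · exact absurd rfl h
      · simpa using h
    obtain ⟨g1, g2⟩ := ra c d a b hc ha hb kc hz' hz
    refine ⟨(true, c), ?_, Or.inl rfl, g2⟩
    rcases g1 with g | g <;> rw [g] <;> simp
  · -- all true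
    rw [eim_A] at hz hz'
    have kc : cadj m a b := by
      rcases hab with h | ⟨_, h⟩
      · exact absurd rfl h
      · simpa using h
    have kc' : cadj m c d := by
      rcases hcd with h | ⟨_, h⟩
      · exact absurd rfl h
      · simpa using h
    obtain ⟨k, g1, g2, g3⟩ := A_A hm ha hb kc hc hd kc' hne hne' hz hz'
    refine ⟨(true, k), ?_, ?_, g3⟩
    · rcases g1 with g | g <;> rw [g] <;> simp
    · rcases g2 with g | g <;> rw [g] <;> simp

/-- common points of two edges -/
theorem edge_inter {m n : ℕ} (hm : 3 ≤ m) (hn : 3 ≤ n) {a b c d : Lb} (ha : okl m n a) (hb : okl m n b)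
    (hc : okl m n c) (hd : okl m n d) (hab : LAdj m n a b) (hcd : LAdj m n c d)
    (hne : ¬ (c = a ∧ d = b)) (hne' : ¬ (c = b ∧ d = a))
    {z : R3} (hz : z ∈ eim m n a b) (hz' : z ∈ eim m n c d) :
    ∃ v, (v = a ∨ v = b) ∧ (v = c ∨ v = d) ∧ z = P v := by
  by_cases h1 : a.1 = false ∧ b.1 = false
  · by_cases h2 : c.1 = true ∧ d.1 = true
    · exfalso
      rcases a with ⟨sa, a⟩
      rcases b with ⟨sb, b⟩
      rcases c with ⟨sc, c⟩
      rcases d with ⟨sd, d⟩
      dsimp only at h1 h2
      obtain ⟨rfl, rfl⟩ := h1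
      obtain ⟨rfl, rfl⟩ := h2
      rw [eim_B] at hz
      rw [eim_A] at hz'
      obtain ⟨w, hw, rfl⟩ := hz
      simp only [okl, reduceIte, Bool.false_eq_true] at ha hb hc hd
      exact A_B_disjoint (arcA_InA hc hd _ hz') (InA_sigma (arcA_InA ha hb w hw)) (by positivity) (by positivity)
    · -- flip
      have hz1 : sigma z ∈ eim n m (fl a) (fl b) := by rw [eim_fl]; exact ⟨z, hz, rfl⟩
      have hz2 : sigma z ∈ eim n m (fl c) (fl d) := by rw [eim_fl]; exact ⟨z, hz', rfl⟩
      obtain ⟨v, v1, v2, v3⟩ := edge_inter_aux hn (okl_fl ha) (okl_fl hb) (okl_fl hc) (okl_fl hd)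
        (LAdj_fl hab) (LAdj_fl hcd) (by simp [fl, h1.1]) (by
          rintro ⟨e1, e2⟩
          apply h2
          simp only [fl, Bool.not_eq_false'] at e1 e2
          exact ⟨e1, e2⟩)
        (by rintro ⟨e1, e2⟩; exact hne ⟨fl_inj e1, fl_inj e2⟩)
        (by rintro ⟨e1, e2⟩; exact hne' ⟨fl_inj e1, fl_inj e2⟩) hz1 hz2
      refine ⟨fl v, ?_, ?_, ?_⟩
      · rcases v1 with rfl | rfl
        · left; rw [fl_fl]
        · right; rw [fl_fl]
      · rcases v2 with rfl | rfl
        · left; rw [fl_fl]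
        · right; rw [fl_fl]
      · rw [P_fl, ← v3, sigma_sigma]
  · by_cases h2 : c.1 = false ∧ d.1 = false
    · by_cases h3 : a.1 = true ∧ b.1 = true
      · exfalso
        rcases a with ⟨sa, a⟩
        rcases b with ⟨sb, b⟩
        rcases c with ⟨sc, c⟩
        rcases d with ⟨sd, d⟩
        dsimp only at h3 h2
        obtain ⟨rfl, rfl⟩ := h3
        obtain ⟨rfl, rfl⟩ := h2
        rw [eim_A] at hz
        rw [eim_B] at hz'
        obtain ⟨w, hw, rfl⟩ := hz'
        simp only [okl, reduceIte, Bool.false_eq_true] at ha hb hc hd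
        exact A_B_disjoint (arcA_InA ha hb _ hz) (InA_sigma (arcA_InA hc hd w hw)) (by positivity) (by positivity)
      · have hz1 : sigma z ∈ eim n m (fl a) (fl b) := by rw [eim_fl]; exact ⟨z, hz, rfl⟩
        have hz2 : sigma z ∈ eim n m (fl c) (fl d) := by rw [eim_fl]; exact ⟨z, hz', rfl⟩
        obtain ⟨v, v1, v2, v3⟩ := edge_inter_aux hn (okl_fl ha) (okl_fl hb) (okl_fl hc) (okl_fl hd)
          (LAdj_fl hab) (LAdj_fl hcd) (by
            rintro ⟨e1, e2⟩
            apply h3
            simp only [fl, Bool.not_eq_false'] at e1 e2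
            exact ⟨e1, e2⟩) (by simp [fl, h2.1])
          (by rintro ⟨e1, e2⟩; exact hne ⟨fl_inj e1, fl_inj e2⟩)
          (by rintro ⟨e1, e2⟩; exact hne' ⟨fl_inj e1, fl_inj e2⟩) hz1 hz2
        refine ⟨fl v, ?_, ?_, ?_⟩
        · rcases v1 with rfl | rfl
          · left; rw [fl_fl]
          · right; rw [fl_fl]
        · rcases v2 with rfl | rfl
          · left; rw [fl_fl]
          · right; rw [fl_fl]
        · rw [P_fl, ← v3, sigma_sigma]
    · exact edge_inter_aux hm ha hb hc hd hab hcd h1 h2 hne hne' hz hz'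

/-! ### the embedding -/

def cod (a : Lb) : ℕ := 2 * a.2 + (if a.1 then 1 else 0)

theorem cod_inj {a b : Lb} (h : cod a = cod b) : a = b := by
  rcases a with ⟨s, k⟩
  rcases b with ⟨s', k'⟩
  unfold cod at h
  cases s <;> cases s' <;> simp at h <;> simp <;> omega

section
variable {V : Type*} {G : SimpleGraph V} {m n : ℕ} (lab : V → Lb)

structure Lab (G : SimpleGraph V) (m n : ℕ) (lab : V → Lb) : Prop where
  inj : Function.Injective lab
  ok : ∀ v, okl m n (lab v)
  adj : ∀ {u v}, G.Adj u v → LAdj m n (lab u) (lab v)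

theorem exists_embedding (hm : 3 ≤ m) (hn : 3 ≤ n) (hL : Lab G m n lab) :
    ∃ E : SpatialEmbedding G, ∀ {a b : V} (h : G.Adj a b), Set.range (E.arc h) = eim m n (lab a) (lab b) := by
  classical
  have hne : ∀ {a b : V}, G.Adj a b → lab a ≠ lab b := fun h e => h.ne (hL.inj e)
  choose γ hγ1 hγ2 using fun (a b : V) (h : lab a ≠ lab b) => hasPath (hL.ok a) (hL.ok b) h
  let arc : ∀ {a b : V}, G.Adj a b → Path (P (lab a)) (P (lab b)) := fun {a b} h =>
    if cod (lab a) < cod (lab b) then γ a b (hne h) else (γ b a (hne h).symm).symm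
  have hr : ∀ {a b : V} (h : G.Adj a b), Set.range (arc h) = eim m n (lab a) (lab b) := by
    intro a b h
    simp only [arc]
    split_ifs
    · exact hγ2 a b (hne h)
    · rw [Path.symm_range, hγ2, eim_symm m n (hne h).symm]
  refine ⟨⟨fun v => P (lab v), fun a b e => hL.inj (P_inj e), arc, ?_, ?_, ?_⟩, hr⟩
  · intro a b h
    simp only [arc]
    split_ifs
    · exact hγ1 a b (hne h)
    · intro s t e
      have := hγ1 b a (hne h).symm e
      exact unitInterval.symm_bijective.injective this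
  · intro a b h
    simp only [arc]
    have hc : cod (lab a) ≠ cod (lab b) := fun e => hne h (cod_inj e)
    by_cases h' : cod (lab a) < cod (lab b)
    · rw [if_pos h', if_neg (by omega)]
    · rw [if_neg h', if_pos (by omega), Path.symm_symm]
  · intro a b c d h h' hs t u e
    have hz : arc h t ∈ eim m n (lab a) (lab b) := by rw [← hr h]; exact ⟨t, rfl⟩
    have hz' : arc h t ∈ eim m n (lab c) (lab d) := by rw [← hr h', e]; exact ⟨u, rfl⟩
    obtain ⟨v, v1, v2, v3⟩ := edge_inter hm hn (hL.ok a) (hL.ok b) (hL.ok c) (hL.ok d) (hL.adj h) (hL.adj h')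
      (by
        rintro ⟨e1, e2⟩
        apply hs
        rw [hL.inj e1, hL.inj e2])
      (by
        rintro ⟨e1, e2⟩
        apply hs
        rw [hL.inj e1, hL.inj e2, Sym2.eq_swap]) hz hz'
    have key : ∀ w : V, v = lab w → arc h t = P (lab w) := fun w e => by rw [v3, e]
    rcases v1 with rfl | rfl
    · refine ⟨a, by simp, ?_, key a rfl⟩
      rcases v2 with e | e
      · rw [hL.inj e]; simp
      · rw [hL.inj e]; simp
    · refine ⟨b, by simp, ?_, key b rfl⟩
      rcases v2 with e | e
      · rw [hL.inj e]; simp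
      · rw [hL.inj e]; simp

end

end Pool.Agent.Run7.h178
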