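import Mathlib
import Pool.Agent.Run7.h178.Edge

/-! Closed lists of labels, their images, rotation and contraction. -/

namespace Pool.Agent.Run7.h178

open Pool.Agent.Helper683.Lk (R3 mem_seg seg_mem r3_ext)

/-- image of the path through the labels `a :: l` -/
noncomputable def pim (m n : ℕ) : Lb → List Lb → Set R3
  | _, [] => ∅
  | a, b :: l => eim m n a b ∪ pim m n b l

/-- image of the closed polygon through the labels of a list -/
noncomputable def cim (m n : ℕ) : List Lb → Set R3
  | [] => ∅
  | a :: l => pim m n a (l ++ [a])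

def pch (m n : ℕ) : Lb → List Lb → Prop
  | _, [] => True
  | a, b :: l => LAdj m n a b ∧ pch m n b l

def cch (m n : ℕ) : List Lb → Prop
  | [] => True
  | a :: l => pch m n a (l ++ [a])

/-- a closed list of labels is a cycle of the join of two cycles -/
structure CL (m n : ℕ) (l : List Lb) : Prop where
  nodup : l.Nodup
  len : 3 ≤ l.length
  ok : ∀ x ∈ l, okl m n x
  ch : cch m n l

theorem pim_snoc (m n : ℕ) (a : Lb) (l : List Lb) (b c : Lb) :
    pim m n a (l ++ [b] ++ [c]) = pim m n a (l ++ [b]) ∪ eim m n b c := by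
  induction l generalizing a with
  | nil => simp [pim]
  | cons x l ih =>
    simp only [List.cons_append, pim]
    rw [ih, Set.union_assoc]

theorem pch_snoc (m n : ℕ) (a : Lb) (l : List Lb) (b c : Lb) :
    pch m n a (l ++ [b] ++ [c]) ↔ pch m n a (l ++ [b]) ∧ LAdj m n b c := by
  induction l generalizing a with
  | nil => simp [pch]
  | cons x l ih =>
    simp only [List.cons_append, pch]
    rw [ih, and_assoc]

theorem cim_rot1 (m n : ℕ) (a : Lb) (l : List Lb) : cim m n (l ++ [a]) = cim m n (a :: l) := by
  cases l with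
  | nil => rfl
  | cons b l =>
    simp only [List.cons_append, cim, pim]
    rw [pim_snoc, Set.union_comm]

theorem cch_rot1 (m n : ℕ) (a : Lb) (l : List Lb) : cch m n (l ++ [a]) ↔ cch m n (a :: l) := by
  cases l with
  | nil => rfl
  | cons b l =>
    simp only [List.cons_append, cch, pch]
    rw [pch_snoc, and_comm]

theorem cim_rotate (m n : ℕ) (k : ℕ) : ∀ l : List Lb, cim m n (l.rotate k) = cim m n l := by
  induction k with
  | zero => intro l; rw [List.rotate_zero]
  | succ k ih =>
    intro l
    cases l with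
    | nil => simp
    | cons a l => rw [List.rotate_cons_succ, ih, cim_rot1]

theorem cch_rotate (m n : ℕ) (k : ℕ) : ∀ l : List Lb, cch m n (l.rotate k) ↔ cch m n l := by
  induction k with
  | zero => intro l; rw [List.rotate_zero]
  | succ k ih =>
    intro l
    cases l with
    | nil => simp
    | cons a l => rw [List.rotate_cons_succ, ih, cch_rot1]

theorem cim_rot {m n : ℕ} {l l' : List Lb} (h : l ~r l') : cim m n l = cim m n l' := by
  obtain ⟨k, rfl⟩ := h
  exact (cim_rotate m n k l).symm

theorem CL.rot {m n : ℕ} {l l' : List Lb} (h : l ~r l') (hl : CL m n l) : CL m n l' := by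
  refine ⟨h.nodup_iff.mp hl.nodup, h.perm.length_eq ▸ hl.len, ?_, ?_⟩
  · intro x hx
    exact hl.ok x (h.mem_iff.mpr hx)
  · obtain ⟨k, rfl⟩ := h
    exact (cch_rotate m n k l).mpr hl.ch

/-! ### exchange of the roles -/

theorem pim_fl (m n : ℕ) (a : Lb) (l : List Lb) : pim n m (fl a) (l.map fl) = sigma '' pim m n a l := by
  induction l generalizing a with
  | nil => simp [pim]
  | cons b l ih =>
    simp only [List.map_cons, pim]
    rw [ih, eim_fl, Set.image_union]

theorem cim_fl (m n : ℕ) (l : List Lb) : cim n m (l.map fl) = sigma '' cim m n l := by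
  cases l with
  | nil => simp [cim]
  | cons a l =>
    simp only [List.map_cons, cim]
    rw [← pim_fl]; simp

theorem pch_fl {m n : ℕ} {a : Lb} {l : List Lb} (h : pch m n a l) : pch n m (fl a) (l.map fl) := by
  induction l generalizing a with
  | nil => simp [pch]
  | cons b l ih =>
    simp only [List.map_cons, pch] at *
    exact ⟨LAdj_fl h.1, ih h.2⟩

theorem CL.fl {m n : ℕ} {l : List Lb} (h : CL m n l) : CL n m (l.map fl) := by
  refine ⟨h.nodup.map fl_inj, by simpa using h.len, ?_, ?_⟩
  · intro x hx
    obtain ⟨y, hy, rfl⟩ := List.mem_map.mp hx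
    exact okl_fl (h.ok y hy)
  · cases l with
    | nil => simp [cch]
    | cons a l =>
      have := pch_fl h.ch
      simpa [cch] using this

theorem unknotted_of_fl {m n : ℕ} {l : List Lb} (h : Unknotted (cim n m (l.map fl))) :
    Unknotted (cim m n l) := by
  have := h.sigma
  rw [cim_fl, sigma_image_image] at this
  exact this

/-! ### members of path images -/

theorem mem_pim {m n : ℕ} {a : Lb} {l : List Lb} {z : R3} (h : z ∈ pim m n a l) (hc : pch m n a l) :
    ∃ x y, x ∈ (a :: l).dropLast ∧ y ∈ l ∧ LAdj m n x y ∧ z ∈ eim m n x y := by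
  induction l generalizing a with
  | nil => simp [pim] at h
  | cons b l ih =>
    simp only [pim, pch] at h hc
    rcases h with h | h
    · refine ⟨a, b, ?_, by simp, hc.1, h⟩
      simp [List.dropLast]
    · obtain ⟨x, y, hx, hy, h1, h2⟩ := ih h hc.2
      refine ⟨x, y, ?_, List.mem_cons_of_mem _ hy, h1, h2⟩
      rw [List.dropLast_cons_cons]
      exact List.mem_cons_of_mem _ hx

/-! ### contraction of an edge -/

theorem contract_A {m n : ℕ} {i i' j : ℕ} {r0 : Lb} {rest : List Lb} (hm : 3 ≤ m) (hn : 3 ≤ n)
    (hl : CL m n ((true, i) :: (true, i') :: (false, j) :: r0 :: rest)) :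
    CL m n ((true, i) :: (false, j) :: r0 :: rest) ∧
      DEq (cim m n ((true, i) :: (false, j) :: r0 :: rest))
        (cim m n ((true, i) :: (true, i') :: (false, j) :: r0 :: rest)) := by
  have hnd := hl.nodup
  simp only [List.nodup_cons, List.mem_cons, not_or] at hnd
  obtain ⟨⟨d1, d2, d3, d4⟩, ⟨d5, d6, d7⟩, ⟨d8, d9⟩, d10, d11⟩ := hnd
  have hch := hl.ch
  simp only [cch, List.cons_append, pch] at hch
  obtain ⟨c1, c2, c3, c4⟩ := hch
  have o1 : i < m := by simpa [okl] using hl.ok (true, i) (by simp)
  have o2 : i' < m := by simpa [okl] using hl.ok (true, i') (by simp)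
  have o3 : j < n := by simpa [okl] using hl.ok (false, j) (by simp)
  have o4 : okl m n r0 := hl.ok r0 (by simp)
  have hc : cadj m i i' := by
    rcases c1 with h | ⟨_, h⟩
    · exact absurd rfl h
    · simpa using h
  refine ⟨⟨?_, ?_, ?_, ?_⟩, ?_⟩
  · simp only [List.nodup_cons, List.mem_cons, not_or]
    exact ⟨⟨d2, d3, d4⟩, ⟨d8, d9⟩, d10, d11⟩
  · simp
  · intro x hx
    apply hl.ok
    simp only [List.mem_cons] at hx ⊢
    tauto
  · simp only [cch, List.cons_append, pch]
    exact ⟨Or.inl (by simp), c3, c4⟩
  · obtain ⟨C, I, hok, hI⟩ := edge_ok hm o1 o2 hc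
    simp only [cim, List.cons_append, pim]
    rw [eim_rung, eim_A, eim_rung]
    have := hok.slide ((j : ℝ) + 1) (by positivity) (eim m n (false, j) r0 ∪ pim m n r0 (rest ++ [(true, i)])) (by
      rintro z (hz | hz) hz'
      · refine edge_cone hm hn o1 o2 o3 hc hok hI (x := (false, j)) (y := r0)
          (by simpa [okl] using o3) o4 c3 (by simp) (fun e => d6 e.symm) (by simp) ?_ hz hz'
        rintro ⟨_, e⟩
        exact d3 e.symm
      · obtain ⟨x, y, hx, hy, hxy, hz⟩ := mem_pim hz c4
        have hx' : x ∈ r0 :: rest := by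
          have : (r0 :: (rest ++ [(true, i)])).dropLast = r0 :: rest := by
            rw [← List.cons_append, List.dropLast_concat]
          rwa [this] at hx
        have hy' : y ∈ rest ∨ y = (true, i) := by simpa using hy
        refine edge_cone hm hn o1 o2 o3 hc hok hI (x := x) (y := y) ?_ ?_ hxy ?_ ?_ ?_ ?_ hz hz'
        · apply hl.ok
          simp only [List.mem_cons] at hx' ⊢
          tauto
        · apply hl.ok
          simp only [List.mem_cons] at hy' ⊢
          tauto
        · rintro rfl
          rcases List.mem_cons.mp hx' with h | h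
          · exact d6 h
          · exact d7 h
        · rintro rfl
          rcases hy' with h | h
          · exact d7 h
          · exact d1 h.symm
        · rintro ⟨rfl, _⟩
          rcases List.mem_cons.mp hx' with h | h
          · exact d3 h
          · exact d4 h
        · rintro ⟨rfl, _⟩
          rcases List.mem_cons.mp hx' with h | h
          · exact d8 h
          · exact d9 h)
    have e1 : segment ℝ (hub (↑i + 1)) (pnt (↑j + 1)) ∪ (eim m n (false, j) r0 ∪ pim m n r0 (rest ++ [(true, i)])) =
        eim m n (false, j) r0 ∪ pim m n r0 (rest ++ [(true, i)]) ∪ segment ℝ (hub (↑i + 1)) (pnt (↑j + 1)) := by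
      rw [Set.union_comm]
    have e2 : arcA m i i' ∪ (segment ℝ (hub (↑i' + 1)) (pnt (↑j + 1)) ∪
        (eim m n (false, j) r0 ∪ pim m n r0 (rest ++ [(true, i)]))) =
        eim m n (false, j) r0 ∪ pim m n r0 (rest ++ [(true, i)]) ∪ arcA m i i' ∪
          segment ℝ (hub (↑i' + 1)) (pnt (↑j + 1)) := by
      ext z; simp only [Set.mem_union]; tauto
    rw [e1, e2]
    exact this

theorem contract {m n : ℕ} {a a' b r0 : Lb} {rest : List Lb} (hm : 3 ≤ m) (hn : 3 ≤ n)
    (h1 : a.1 = a'.1) (h2 : a.1 ≠ b.1) (hl : CL m n (a :: a' :: b :: r0 :: rest)) :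
    CL m n (a :: b :: r0 :: rest) ∧
      (Unknotted (cim m n (a :: b :: r0 :: rest)) → Unknotted (cim m n (a :: a' :: b :: r0 :: rest))) := by
  rcases a with ⟨s, i⟩
  rcases a' with ⟨s', i'⟩
  rcases b with ⟨t, j⟩
  dsimp only at h1 h2
  subst h1
  cases s
  · have ht : t = true := by cases t <;> simp_all
    subst ht
    have hl' := hl.fl
    simp only [List.map_cons, fl, Bool.not_false, Bool.not_true] at hl'
    obtain ⟨g1, g2⟩ := contract_A hn hm hl'
    have g1' := g1.fl
    simp only [List.map_cons, List.map_map] at g1'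
    have e : rest.map (fl ∘ fl) = rest := by
      conv_rhs => rw [← List.map_id rest]
      congr 1; funext x; exact fl_fl x
    have e0 : fl (!r0.1, r0.2) = r0 := fl_fl r0
    rw [e, e0] at g1'
    refine ⟨g1', fun h => unknotted_of_fl ?_⟩
    simp only [List.map_cons, fl, Bool.not_false, Bool.not_true]
    apply Unknotted.of_DEq _ g2
    have := h.sigma
    rw [← cim_fl] at this
    simpa only [List.map_cons, fl, Bool.not_false, Bool.not_true] using this
  · have ht : t = false := by cases t <;> simp_all
    subst ht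
    obtain ⟨g1, g2⟩ := contract_A hm hn hl
    exact ⟨g1, fun h => h.of_DEq g2⟩

end Pool.Agent.Run7.h178
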