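import Mathlib
import Pool.Agent.Run7.h178.Lists

/-! Base cases: triangles, the full cycles; the destabilisation of alternating polygons. -/

namespace Pool.Agent.Run7.h178

open Pool.Agent.Helper683.Lk (R3 mem_seg seg_mem r3_ext)

/-- the boundary of the triangle over the short segment of two hubs -/
theorem tri_unknotted {v v' u : ℝ} (hu : u ≠ 0) (hvv : v ≠ v') :
    Unknotted (segment ℝ (hub v') (pnt u) ∪ segment ℝ (pnt u) (hub v) ∪ segment ℝ (hub v) (hub v')) := by
  apply unknotted_triangle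
  rw [tri_swap]
  exact ncol hu (by simp) (by simp) (hub_ne hvv.symm)

/-- a long arc and a segment through a point -/
theorem arc_tri {S v v' u : ℝ} (hS : 0 < S) (hu : u ≠ 0) (hu1 : u ≠ -1) (hv : |v| < S) (hv' : |v'| < S)
    (hvv : v ≠ v') :
    Unknotted (segment ℝ (hub v') (pnt u) ∪ segment ℝ (pnt u) (hub v) ∪ louter S v v') := by
  have ho := outer_ok hS hv hv' hvv
  have hi := inner_ok hS hv hv' hvv
  have key : ∀ {Γ : Set R3} {C : ℝ → Set R3} {I : ℝ → Prop}, ArcOK S v v' Γ C I →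
      DEq (segment ℝ (hub v') (pnt u) ∪ segment ℝ (pnt u) (hub v) ∪
        (segment ℝ (hub v) (pnt (-1)) ∪ segment ℝ (pnt (-1)) (hub v')))
      (segment ℝ (hub v') (pnt u) ∪ segment ℝ (pnt u) (hub v) ∪ Γ) := by
    intro Γ C I hok
    apply hok.fan (-1) (by norm_num)
    rintro z (hz | hz) hz'
    · right
      exact (hok.rung (-1) u v' z hu1.symm hv' hz' hz).1
    · left
      rw [segment_symm] at hz
      exact (hok.rung (-1) u v z hu1.symm hv hz' hz).1
  exact (tri_unknotted hu hvv).of_DEq ((key hi).symm.trans (key ho))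

theorem base3_A {m n : ℕ} {i i' j : ℕ} (hm : 3 ≤ m)
    (hl : CL m n [(true, i), (true, i'), (false, j)]) :
    Unknotted (cim m n [(true, i), (true, i'), (false, j)]) := by
  have hch := hl.ch
  simp only [cch, List.cons_append, pch, List.nil_append] at hch
  obtain ⟨c1, _⟩ := hch
  have o1 : i < m := by simpa [okl] using hl.ok (true, i) (by simp)
  have o2 : i' < m := by simpa [okl] using hl.ok (true, i') (by simp)
  have hc : cadj m i i' := by
    rcases c1 with h | ⟨_, h⟩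
    · exact absurd rfl h
    · simpa using h
  have hne : ((i : ℝ) + 1) ≠ ((i' : ℝ) + 1) := by
    intro e
    have : i = i' := by exact_mod_cast add_right_cancel e
    unfold cadj at hc; omega
  simp only [cim, List.cons_append, pim, List.nil_append, Set.union_empty]
  rw [eim_A, eim_rung, eim_rung', Set.union_comm]
  unfold arcA
  split_ifs with h
  · exact tri_unknotted (by positivity) hne
  · refine arc_tri (by positivity) (by positivity) ?_ (abs_pos_lt o1) (abs_pos_lt o2) hne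
    intro e
    have : (0 : ℝ) ≤ j := by positivity
    linarith

theorem base3 {m n : ℕ} {a a' b : Lb} (hm : 3 ≤ m) (hn : 3 ≤ n)
    (h1 : a.1 = a'.1) (h2 : a.1 ≠ b.1) (hl : CL m n [a, a', b]) : Unknotted (cim m n [a, a', b]) := by
  rcases a with ⟨s, i⟩
  rcases a' with ⟨s', i'⟩
  rcases b with ⟨t, j⟩
  dsimp only at h1 h2
  subst h1
  cases s
  · have ht : t = true := by cases t <;> simp_all
    subst ht
    apply unknotted_of_fl
    exact base3_A hn hl.fl
  · have ht : t = false := by cases t <;> simp_all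
    subst ht
    exact base3_A hm hl

/-! ### alternating lists -/

/-- the alternating list of hubs and points -/
def mkl : List (ℕ × ℕ) → List Lb
  | [] => []
  | (v, p) :: L => (true, v) :: (false, p) :: mkl L

theorem mkl_append (L L' : List (ℕ × ℕ)) : mkl (L ++ L') = mkl L ++ mkl L' := by
  induction L with
  | nil => rfl
  | cons a L ih => rcases a with ⟨v, p⟩; simp [mkl, ih]

theorem mkl_rot1 (a : ℕ × ℕ) (L : List (ℕ × ℕ)) : mkl (a :: L) ~r mkl (L ++ [a]) := by
  rcases a with ⟨v, p⟩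
  rw [mkl_append]
  refine ⟨2, ?_⟩
  simp [mkl, List.rotate_cons_succ]

theorem mem_mkl {L : List (ℕ × ℕ)} {x : Lb} :
    x ∈ mkl L ↔ (∃ a ∈ L, x = (true, a.1)) ∨ (∃ a ∈ L, x = (false, a.2)) := by
  induction L with
  | nil => simp [mkl]
  | cons a L ih =>
    rcases a with ⟨v, p⟩
    simp only [mkl, List.mem_cons, ih]
    constructor
    · rintro (rfl | rfl | ⟨b, hb, rfl⟩ | ⟨b, hb, rfl⟩)
      · exact Or.inl ⟨(v, p), Or.inl rfl, rfl⟩
      · exact Or.inr ⟨(v, p), Or.inl rfl, rfl⟩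
      · exact Or.inl ⟨b, Or.inr hb, rfl⟩
      · exact Or.inr ⟨b, Or.inr hb, rfl⟩
    · rintro (⟨b, rfl | hb, rfl⟩ | ⟨b, rfl | hb, rfl⟩)
      · exact Or.inl rfl
      · exact Or.inr (Or.inr (Or.inl ⟨b, hb, rfl⟩))
      · exact Or.inr (Or.inl rfl)
      · exact Or.inr (Or.inr (Or.inr ⟨b, hb, rfl⟩))

theorem nodup_mkl {L : List (ℕ × ℕ)} : (mkl L).Nodup ↔ (L.map Prod.fst).Nodup ∧ (L.map Prod.snd).Nodup := by
  induction L with
  | nil => simp [mkl]
  | cons a L ih =>
    rcases a with ⟨v, p⟩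
    simp only [mkl, List.nodup_cons, List.mem_cons, List.map_cons, List.mem_map, ih, mem_mkl]
    constructor
    · rintro ⟨h1, h2, h3, h4⟩
      refine ⟨⟨?_, h3⟩, ?_, h4⟩
      · rintro ⟨b, hb, e⟩
        exact h1 (Or.inr (Or.inl ⟨b, hb, by rw [← e]⟩))
      · rintro ⟨b, hb, e⟩
        exact h2 (Or.inr ⟨b, hb, by rw [← e]⟩)
    · rintro ⟨⟨h1, h3⟩, h2, h4⟩
      refine ⟨?_, ?_, h3, h4⟩
      · rintro (h | ⟨b, hb, e⟩ | ⟨b, hb, e⟩)
        · simp at h
        · exact h1 ⟨b, hb, by simpa using e.symm⟩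
        · simp at e
      · rintro (⟨b, hb, e⟩ | ⟨b, hb, e⟩)
        · simp at e
        · exact h2 ⟨b, hb, by simpa using e.symm⟩

theorem length_mkl (L : List (ℕ × ℕ)) : (mkl L).length = 2 * L.length := by
  induction L with
  | nil => rfl
  | cons a L ih => rcases a with ⟨v, p⟩; simp [mkl, ih]; ring

theorem pch_mkl (m n q0 : ℕ) (L : List (ℕ × ℕ)) (v : ℕ) : pch m n (false, q0) (mkl L ++ [(true, v)]) := by
  induction L generalizing q0 with
  | nil => simp [mkl, pch, LAdj]
  | cons a L ih =>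
    rcases a with ⟨w, p⟩
    simp only [mkl, List.cons_append, pch]
    exact ⟨Or.inl (by simp), Or.inl (by simp), ih p⟩

theorem CL_mkl {m n : ℕ} {L : List (ℕ × ℕ)} : CL m n (mkl L) ↔ 2 ≤ L.length ∧
    (L.map Prod.fst).Nodup ∧ (L.map Prod.snd).Nodup ∧ (∀ a ∈ L, a.1 < m) ∧ (∀ a ∈ L, a.2 < n) := by
  constructor
  · intro h
    have h1 := nodup_mkl.mp h.nodup
    have h2 := h.len
    rw [length_mkl] at h2
    refine ⟨by omega, h1.1, h1.2, ?_, ?_⟩
    · intro a ha
      simpa [okl] using h.ok (true, a.1) (mem_mkl.mpr (Or.inl ⟨a, ha, rfl⟩))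
    · intro a ha
      simpa [okl] using h.ok (false, a.2) (mem_mkl.mpr (Or.inr ⟨a, ha, rfl⟩))
  · rintro ⟨h1, h2, h3, h4, h5⟩
    refine ⟨nodup_mkl.mpr ⟨h2, h3⟩, by rw [length_mkl]; omega, ?_, ?_⟩
    · intro x hx
      rcases mem_mkl.mp hx with ⟨a, ha, rfl⟩ | ⟨a, ha, rfl⟩
      · simpa [okl] using h4 a ha
      · simpa [okl] using h5 a ha
    · cases L with
      | nil => simp at h1
      | cons a L =>
        rcases a with ⟨v, p⟩
        simp only [mkl, cch, List.cons_append, pch]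
        exact ⟨Or.inl (by simp), pch_mkl m n p L v⟩

/-- members of the image of an alternating path -/
theorem mem_pim_mkl {m n q0 : ℕ} {L : List (ℕ × ℕ)} {v : ℕ} {z : R3}
    (h : z ∈ pim m n (false, q0) (mkl L ++ [(true, v)])) :
    ∃ w q : ℕ, z ∈ segment ℝ (hub (w + 1)) (pnt (q + 1)) ∧ (w = v ∨ ∃ a ∈ L, a.1 = w) ∧
      (q = q0 ∨ ∃ a ∈ L, a.2 = q) := by
  induction L generalizing q0 with
  | nil =>
    simp only [mkl, List.nil_append, pim, Set.union_empty] at h
    rw [eim_rung', segment_symm] at h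
    exact ⟨v, q0, h, Or.inl rfl, Or.inl rfl⟩
  | cons a L ih =>
    rcases a with ⟨w, p⟩
    simp only [mkl, List.cons_append, pim] at h
    rcases h with h | h | h
    · rw [eim_rung', segment_symm] at h
      exact ⟨w, q0, h, Or.inr ⟨(w, p), by simp, rfl⟩, Or.inl rfl⟩
    · rw [eim_rung] at h
      exact ⟨w, p, h, Or.inr ⟨(w, p), by simp, rfl⟩, Or.inr ⟨(w, p), by simp, rfl⟩⟩
    · obtain ⟨w', q', h1, h2, h3⟩ := ih h
      refine ⟨w', q', h1, ?_, ?_⟩
      · rcases h2 with h2 | ⟨b, hb, e⟩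
        · exact Or.inl h2
        · exact Or.inr ⟨b, List.mem_cons_of_mem _ hb, e⟩
      · rcases h3 with h3 | ⟨b, hb, e⟩
        · exact Or.inr ⟨(w, p), by simp, h3.symm⟩
        · exact Or.inr ⟨b, List.mem_cons_of_mem _ hb, e⟩

/-- removing a vertex of the second cycle whose two hubs are neighbours along an arc -/
theorem destab {m n : ℕ} {v1 p1 v2 p2 v3 p3 : ℕ} {L : List (ℕ × ℕ)}
    (hl : CL m n (mkl ((v1, p1) :: (v2, p2) :: (v3, p3) :: L)))
    {Γ : Set R3} {C : ℝ → Set R3} {I : ℝ → Prop}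
    (hok : ArcOK ((m : ℝ) + 1) ((v1 : ℝ) + 1) ((v2 : ℝ) + 1) Γ C I)
    (hI : ∀ a ∈ (v3, p3) :: L, ¬ I ((a.1 : ℝ) + 1)) :
    CL m n (mkl ((v1, p2) :: (v3, p3) :: L)) ∧
      DEq (cim m n (mkl ((v1, p2) :: (v3, p3) :: L))) (cim m n (mkl ((v1, p1) :: (v2, p2) :: (v3, p3) :: L))) := by
  rw [CL_mkl] at hl
  obtain ⟨l1, l2, l3, l4, l5⟩ := hl
  have l2' := l2
  have l3' := l3
  simp only [List.map_cons, List.nodup_cons, List.mem_cons, not_or] at l2 l3
  obtain ⟨⟨a1, a2, a3⟩, ⟨a4, a5⟩, a6, a7⟩ := l2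
  obtain ⟨⟨b1, b2, b3⟩, ⟨b4, b5⟩, b6, b7⟩ := l3
  have hv1 : v1 < m := l4 (v1, p1) (by simp)
  have hv2 : v2 < m := l4 (v2, p2) (by simp)
  refine ⟨?_, ?_⟩
  · rw [CL_mkl]
    refine ⟨by simp, ?_, ?_, ?_, ?_⟩
    · simp only [List.map_cons, List.nodup_cons, List.mem_cons, not_or]
      exact ⟨⟨a2, a3⟩, a6, a7⟩
    · simp only [List.map_cons, List.nodup_cons, List.mem_cons, not_or]
      exact ⟨⟨b4, b5⟩, b6, b7⟩
    · intro a ha
      rcases List.mem_cons.mp ha with rfl | ha
      · exact hv1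
      · exact l4 a (List.mem_cons_of_mem _ (List.mem_cons_of_mem _ ha))
    · intro a ha
      rcases List.mem_cons.mp ha with rfl | ha
      · exact l5 (v2, p2) (by simp)
      · exact l5 a (List.mem_cons_of_mem _ (List.mem_cons_of_mem _ ha))
  · -- the two moves
    have hlt : ∀ w : ℕ, (w = v1 ∨ ∃ a ∈ (v3, p3) :: L, a.1 = w) → w < m := by
      rintro w (rfl | ⟨a, ha, rfl⟩)
      · exact hv1
      · exact l4 a (List.mem_cons_of_mem _ (List.mem_cons_of_mem _ ha))
    set K1 : Set R3 := pim m n (false, p2) (mkl ((v3, p3) :: L) ++ [(true, v1)]) with hK1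
    have s1 := hok.fan ((p1 : ℝ) + 1) (by positivity) (K1 ∪ segment ℝ (hub (v2 + 1)) (pnt (p2 + 1))) (by
      rintro z (hz | hz) hz'
      · obtain ⟨w, q, h1, h2, h3⟩ := mem_pim_mkl hz
        obtain ⟨g1, g2⟩ := hok.rung ((p1 : ℝ) + 1) ((q : ℝ) + 1) ((w : ℝ) + 1) z (by
          intro e
          have e' : p1 = q := by exact_mod_cast add_right_cancel e
          rcases h3 with h | ⟨a, ha, h⟩
          · exact b1 (e'.trans h)
          · rcases List.mem_cons.mp ha with rfl | ha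
            · exact b2 (e'.trans h.symm)
            · exact b3 (List.mem_map.mpr ⟨a, ha, h.trans e'.symm⟩)) (abs_pos_lt (hlt w h2)) hz' h1
        left
        rcases h2 with h | ⟨a, ha, h⟩
        · rw [g1, h]
        · exact absurd (h ▸ g2) (hI a ha)
      · right
        exact (hok.rung ((p1 : ℝ) + 1) ((p2 : ℝ) + 1) ((v2 : ℝ) + 1) z (by
          intro e
          exact b1 (by exact_mod_cast add_right_cancel e)) (abs_pos_lt hv2) hz' hz).1)
    have s2 := hok.slide ((p2 : ℝ) + 1) (by positivity) K1 (by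
      intro z hz hz'
      have h12 : z ∈ segment ℝ (hub (v3 + 1)) (pnt (p2 + 1)) ∨ ∃ w q : ℕ, z ∈ segment ℝ (hub (w + 1)) (pnt (q + 1)) ∧
          (w = v1 ∨ ∃ a ∈ (v3, p3) :: L, a.1 = w) ∧ q ≠ p2 := by
        rw [hK1] at hz
        simp only [mkl, List.cons_append, pim] at hz
        rcases hz with hz | hz | hz
        · left
          rwa [eim_rung', segment_symm] at hz
        · right
          rw [eim_rung] at hz
          exact ⟨v3, p3, hz, Or.inr ⟨(v3, p3), by simp, rfl⟩, fun e => b4 e.symm⟩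
        · right
          obtain ⟨w, q, h1, h2, h3⟩ := mem_pim_mkl hz
          refine ⟨w, q, h1, ?_, ?_⟩
          · rcases h2 with h | ⟨a, ha, h⟩
            · exact Or.inl h
            · exact Or.inr ⟨a, List.mem_cons_of_mem _ ha, h⟩
          · rintro rfl
            rcases h3 with h | ⟨a, ha, h⟩
            · exact b4 h
            · exact b5 (List.mem_map.mpr ⟨a, ha, h⟩)
      rcases h12 with h | ⟨w, q, h1, h2, h3⟩
      · left
        rcases hok.rung' ((p2 : ℝ) + 1) ((v3 : ℝ) + 1) z (by positivity)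
          (abs_pos_lt (hlt v3 (Or.inr ⟨(v3, p3), by simp, rfl⟩))) hz' h with g | g
        · exact g
        · exact absurd g (hI (v3, p3) (by simp))
      · right
        obtain ⟨g1, g2⟩ := hok.rung ((p2 : ℝ) + 1) ((q : ℝ) + 1) ((w : ℝ) + 1) z (by
          intro e
          exact h3 (by exact_mod_cast (add_right_cancel e).symm)) (abs_pos_lt (hlt w h2)) hz' h1
        rcases h2 with h | ⟨a, ha, h⟩
        · rw [g1, h]
        · exact absurd (h ▸ g2) (hI a ha))
    have e1 : cim m n (mkl ((v1, p1) :: (v2, p2) :: (v3, p3) :: L)) =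
        (K1 ∪ segment ℝ (hub (v2 + 1)) (pnt (p2 + 1))) ∪
          (segment ℝ (hub (v1 + 1)) (pnt (p1 + 1)) ∪ segment ℝ (pnt (p1 + 1)) (hub (v2 + 1))) := by
      rw [hK1]
      simp only [mkl, cim, List.cons_append, pim]
      rw [eim_rung, eim_rung', eim_rung]
      ext z; simp only [Set.mem_union]; tauto
    have e2 : cim m n (mkl ((v1, p2) :: (v3, p3) :: L)) =
        K1 ∪ segment ℝ (hub (v1 + 1)) (pnt (p2 + 1)) := by
      rw [hK1]
      simp only [mkl, cim, List.cons_append, pim]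
      rw [eim_rung]
      ext z; simp only [Set.mem_union]; tauto
    rw [e1, e2]
    have e3 : K1 ∪ segment ℝ (hub (↑v2 + 1)) (pnt (↑p2 + 1)) ∪ Γ =
        K1 ∪ Γ ∪ segment ℝ (hub (↑v2 + 1)) (pnt (↑p2 + 1)) := by
      ext z; simp only [Set.mem_union]; tauto
    rw [e3] at s1
    exact s2.trans s1.symm

/-- an alternating polygon with two hubs and two points -/
theorem base_two {m n : ℕ} {v1 p1 v2 p2 : ℕ} (hl : CL m n (mkl [(v1, p1), (v2, p2)])) :
    Unknotted (cim m n (mkl [(v1, p1), (v2, p2)])) := by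
  rw [CL_mkl] at hl
  obtain ⟨l1, l2, l3, l4, l5⟩ := hl
  have hv1 : v1 < m := l4 (v1, p1) (by simp)
  have hv2 : v2 < m := l4 (v2, p2) (by simp)
  have hne : v1 ≠ v2 := by simpa using l2
  have hpe : p1 ≠ p2 := by simpa using l3
  have hne' : ((v1 : ℝ) + 1) ≠ ((v2 : ℝ) + 1) := by
    intro e; exact hne (by exact_mod_cast add_right_cancel e)
  have hpe' : ((p1 : ℝ) + 1) ≠ ((p2 : ℝ) + 1) := by
    intro e; exact hpe (by exact_mod_cast add_right_cancel e)
  have hok := inner_ok (S := (m : ℝ) + 1) (by positivity) (abs_pos_lt hv1) (abs_pos_lt hv2) hne'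
  have s := hok.fan ((p1 : ℝ) + 1) (by positivity)
    (segment ℝ (hub (v2 + 1)) (pnt (p2 + 1)) ∪ segment ℝ (pnt (p2 + 1)) (hub (v1 + 1))) (by
      rintro z (hz | hz) hz'
      · right
        exact (hok.rung _ _ _ z hpe' (abs_pos_lt hv2) hz' hz).1
      · left
        rw [segment_symm] at hz
        exact (hok.rung _ _ _ z hpe' (abs_pos_lt hv1) hz' hz).1)
  have t := tri_unknotted (u := (p2 : ℝ) + 1) (by positivity) hne'
  have e1 : cim m n (mkl [(v1, p1), (v2, p2)]) =
      (segment ℝ (hub (v2 + 1)) (pnt (p2 + 1)) ∪ segment ℝ (pnt (p2 + 1)) (hub (v1 + 1))) ∪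
          (segment ℝ (hub (v1 + 1)) (pnt (p1 + 1)) ∪ segment ℝ (pnt (p1 + 1)) (hub (v2 + 1))) := by
    simp only [mkl, cim, List.cons_append, pim, List.nil_append]
    rw [eim_rung, eim_rung', eim_rung, eim_rung']
    ext z; simp only [Set.mem_union, Set.mem_empty_iff_false, or_false]; tauto
  rw [e1]
  exact t.of_DEq s.symm

end Pool.Agent.Run7.h178
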