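import Mathlib
import Pool.Agent.Run7.h178.Base

/-! The closed lists which run once around one of the two cycles. -/

namespace Pool.Agent.Run7.h178

open Pool.Agent.Helper683.Lk (R3 mem_seg seg_mem r3_ext)

/-- cyclic successor -/
def sc (m k : ℕ) : ℕ := if k + 1 = m then 0 else k + 1

/-- an element of a closed list of hubs, and its two neighbours -/
theorem succ_mem {m n : ℕ} {l : List Lb} (hm : 3 ≤ m) (hl : CL m n l) (hA : ∀ x ∈ l, x.1 = true)
    {k : ℕ} (hk : (true, k) ∈ l) : (true, sc m k) ∈ l ∧ arcA m k (sc m k) ⊆ cim m n l := by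
  obtain ⟨s, t, rfl⟩ := List.append_of_mem hk
  have hr : (s ++ (true, k) :: t) ~r ((true, k) :: (t ++ s)) := by
    have := List.isRotated_append (l := s) (l' := (true, k) :: t)
    simpa using this
  have hl' := hl.rot hr
  have hc := cim_rot (m := m) (n := n) hr
  have hmem : ∀ x, x ∈ s ++ (true, k) :: t ↔ x ∈ (true, k) :: (t ++ s) := fun x => hr.mem_iff
  rw [hc, hmem]
  have hA' : ∀ x ∈ (true, k) :: (t ++ s), x.1 = true := fun x hx => hA x ((hmem x).mpr hx)
  clear hc hmem hr hl hk hA
  generalize t ++ s = r at *
  -- r has at least two elements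
  rcases r with _ | ⟨y, r⟩
  · have := hl'.len; simp at this
  rcases r.eq_nil_or_concat with rfl | ⟨r, z, rfl⟩
  · have := hl'.len; simp at this
  have hy : y.1 = true := hA' y (by simp)
  have hz : z.1 = true := hA' z (by simp)
  rcases y with ⟨_, y⟩
  rcases z with ⟨_, z⟩
  dsimp only at hy hz
  subst hy; subst hz
  have hk : k < m := by simpa [okl] using hl'.ok (true, k) (by simp)
  have hy : y < m := by simpa [okl] using hl'.ok (true, y) (by simp)
  have hz : z < m := by simpa [okl] using hl'.ok (true, z) (by simp)
  have hch := hl'.ch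
  simp only [cch, List.cons_append, pch, List.concat_eq_append] at hch
  rw [pch_snoc] at hch
  obtain ⟨c1, _, c2⟩ := hch
  have c1' : cadj m k y := by
    rcases c1 with h | ⟨_, h⟩
    · exact absurd rfl h
    · simpa using h
  have c2' : cadj m z k := by
    rcases c2 with h | ⟨_, h⟩
    · exact absurd rfl h
    · simpa using h
  have hyz : y ≠ z := by
    rintro rfl
    have := hl'.nodup
    simp at this
  have hkz : k ≠ z := by
    rintro rfl
    have := hl'.nodup
    simp at this
  have hsub : arcA m k y ⊆ cim m n ((true, k) :: (true, y) :: r.concat (true, z)) ∧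
      arcA m z k ⊆ cim m n ((true, k) :: (true, y) :: r.concat (true, z)) := by
    simp only [cim, List.cons_append, pim, List.concat_eq_append]
    rw [pim_snoc, eim_A, eim_A]
    constructor
    · intro w hw; exact Or.inl hw
    · intro w hw; exact Or.inr (Or.inr hw)
  have hcase : sc m k = y ∨ sc m k = z := by
    unfold sc cadj at *
    split_ifs <;> omega
  rcases hcase with h | h
  · rw [h]
    exact ⟨by simp, hsub.1⟩
  · rw [h, arcA_symm m hkz]
    exact ⟨by simp, hsub.2⟩

theorem all_mem {m n : ℕ} {l : List Lb} (hm : 3 ≤ m) (hl : CL m n l) (hA : ∀ x ∈ l, x.1 = true) :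
    ∀ k < m, (true, k) ∈ l := by
  have hstep : ∀ {k : ℕ}, (true, k) ∈ l → (true, sc m k) ∈ l := fun h => (succ_mem hm hl hA h).1
  have h0 : (true, 0) ∈ l := by
    have hne : l ≠ [] := by
      rintro rfl; have := hl.len; simp at this
    obtain ⟨x, hx⟩ := List.exists_mem_of_ne_nil l hne
    have hx1 := hA x hx
    rcases x with ⟨_, k⟩
    dsimp only at hx1
    subst hx1
    have hk : k < m := by simpa [okl] using hl.ok (true, k) hx
    have : ∀ d k : ℕ, k + d + 1 = m → (true, k) ∈ l → (true, 0) ∈ l := by
      intro d
      induction d with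
      | zero =>
        intro k hk hx
        have := hstep hx
        unfold sc at this
        rwa [if_pos (by omega)] at this
      | succ d ih =>
        intro k hk hx
        have := hstep hx
        unfold sc at this
        rw [if_neg (by omega)] at this
        exact ih (k + 1) (by omega) this
    exact this (m - 1 - k) k (by omega) hx
  intro k
  induction k with
  | zero => intro _; exact h0
  | succ k ih =>
    intro hk
    have := hstep (ih (by omega))
    unfold sc at this
    rwa [if_neg (by omega)] at this

/-- the image of the full cycle -/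
theorem full_im {m n : ℕ} {l : List Lb} (hm : 3 ≤ m) (hl : CL m n l) (hA : ∀ x ∈ l, x.1 = true) :
    cim m n l = segment ℝ (hub 1) (hub m) ∪ louter (m + 1) 1 m := by
  have hS : (0 : ℝ) < (m : ℝ) + 1 := by positivity
  have hm1 : (1 : ℝ) ≤ m := by exact_mod_cast (by omega : 1 ≤ m)
  have hne : (1 : ℝ) ≠ m := by
    intro e
    have : 1 = m := by exact_mod_cast e
    omega
  apply Set.Subset.antisymm
  · intro z hz
    cases l with
    | nil => simp [cim] at hz
    | cons a l =>
      have hc := hl.ch
      simp only [cim] at hz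
      simp only [cch] at hc
      obtain ⟨x, y, hx, hy, hxy, hz⟩ := mem_pim hz hc
      have hx' : x ∈ a :: l := by
        rw [← List.cons_append, List.dropLast_concat] at hx
        exact hx
      have hy' : y ∈ a :: l := by
        simp only [List.mem_append, List.mem_cons, List.not_mem_nil, or_false] at hy ⊢
        tauto
      have hx1 := hA x hx'
      have hy1 := hA y hy'
      have hxo := hl.ok x hx'
      have hyo := hl.ok y hy'
      rcases x with ⟨_, x⟩
      rcases y with ⟨_, y⟩
      dsimp only at hx1 hy1
      subst hx1; subst hy1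
      have hxm : x < m := by simpa [okl] using hxo
      have hym : y < m := by simpa [okl] using hyo
      have hxm' : (x : ℝ) + 1 ≤ m := by exact_mod_cast hxm
      have hym' : (y : ℝ) + 1 ≤ m := by exact_mod_cast hym
      have hx0 : (0 : ℝ) ≤ x := by positivity
      have hy0 : (0 : ℝ) ≤ y := by positivity
      rw [eim_A] at hz
      have hcadj : cadj m x y := by
        rcases hxy with h | ⟨_, h⟩
        · exact absurd rfl h
        · simpa using h
      unfold arcA at hz
      split_ifs at hz with h
      · left
        obtain ⟨z1, z2, hz⟩ := mem_short hz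
        have hr : 1 ≤ z 0 ∧ z 0 ≤ m := by
          rcases hz with hz | hz <;> constructor <;> linarith
        rw [mem_seg_iff]
        have hm2 : (0 : ℝ) < m - 1 := by
          have : (3 : ℝ) ≤ m := by exact_mod_cast hm
          linarith
        refine ⟨(z 0 - 1) / (m - 1), div_nonneg (by linarith) hm2.le, ?_, ?_, by simp [z1], by simp [z2]⟩
        · rw [div_le_one hm2]; linarith
        · simp
          field_simp
          ring
      · right
        have : (x = 0 ∧ y + 1 = m) ∨ (y = 0 ∧ x + 1 = m) := by
          unfold cadj at hcadj; omega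
        rcases this with ⟨e1, e2⟩ | ⟨e1, e2⟩
        · have e3 : (y : ℝ) + 1 = m := by exact_mod_cast e2
          rw [e1, e3] at hz
          simpa using hz
        · have e3 : (x : ℝ) + 1 = m := by exact_mod_cast e2
          rw [e1, e3] at hz
          rw [louter_symm hne]
          simpa using hz
  · rintro z (hz | hz)
    · obtain ⟨z1, z2, t, t0, t1, e⟩ := mem_base hz
      have hm3 : (3 : ℝ) ≤ m := by exact_mod_cast hm
      have hr : 1 ≤ z 0 ∧ z 0 ≤ m := by
        rw [e]; constructor <;> nlinarith
      -- the index
      obtain ⟨k, hk, h1, h2⟩ : ∃ k : ℕ, k + 1 < m ∧ (k : ℝ) + 1 ≤ z 0 ∧ z 0 ≤ k + 2 := by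
        by_cases hlast : z 0 < m
        · refine ⟨⌊z 0 - 1⌋₊, ?_, ?_, ?_⟩
          · have h := Nat.floor_le (show (0 : ℝ) ≤ z 0 - 1 by linarith)
            have : ((⌊z 0 - 1⌋₊ + 1 : ℕ) : ℝ) < m := by push_cast; linarith
            exact_mod_cast this
          · have h := Nat.floor_le (show (0 : ℝ) ≤ z 0 - 1 by linarith)
            linarith
          · have h := (Nat.lt_floor_add_one (z 0 - 1)).le
            linarith
        · have hz0 : z 0 = m := le_antisymm hr.2 (not_lt.mp hlast)
          refine ⟨m - 2, by omega, ?_, ?_⟩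
          · rw [hz0]
            have : ((m - 2 : ℕ) : ℝ) = m - 2 := by
              rw [Nat.cast_sub (by omega)]; norm_num
            rw [this]; linarith
          · rw [hz0]
            have : ((m - 2 : ℕ) : ℝ) = m - 2 := by
              rw [Nat.cast_sub (by omega)]; norm_num
            rw [this]; linarith
      have hs := (succ_mem hm hl hA (all_mem hm hl hA k (by omega))).2
      apply hs
      have hsc : sc m k = k + 1 := by unfold sc; rw [if_neg (by omega)]
      rw [hsc]
      unfold arcA
      rw [if_pos (Or.inl rfl), mem_seg_iff]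
      refine ⟨z 0 - (k + 1), by linarith, by linarith, ?_, by simp [z1], by simp [z2]⟩
      simp
      ring
    · have hs := (succ_mem hm hl hA (all_mem hm hl hA (m - 1) (by omega))).2
      apply hs
      have hsc : sc m (m - 1) = 0 := by unfold sc; rw [if_pos (by omega)]
      rw [hsc]
      unfold arcA
      rw [if_neg (by omega)]
      have e : ((m - 1 : ℕ) : ℝ) + 1 = m := by
        rw [Nat.cast_sub (by omega)]; norm_num
      rw [e, louter_symm (by simpa using hne.symm)]
      simpa using hz

theorem full_A {m n : ℕ} {l : List Lb} (hm : 3 ≤ m) (hl : CL m n l) (hA : ∀ x ∈ l, x.1 = true) :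
    Unknotted (cim m n l) := by
  have hS : (0 : ℝ) < (m : ℝ) + 1 := by positivity
  have hm3 : (3 : ℝ) ≤ m := by exact_mod_cast hm
  have hne : (1 : ℝ) ≠ m := by linarith
  have h1 : |(1 : ℝ)| < (m : ℝ) + 1 := by rw [abs_of_pos (by norm_num)]; linarith
  have h2 : |(m : ℝ)| < (m : ℝ) + 1 := by rw [abs_of_pos (by linarith)]; linarith
  rw [full_im hm hl hA]
  have ho := outer_ok hS h1 h2 hne
  have s := ho.fan 1 (by norm_num) (segment ℝ (hub 1) (hub m)) (by
    intro z hz hz'
    obtain ⟨z1, z2, t, t0, t1, e⟩ := mem_base hz
    have := louter_base hS h1 h2 hne (ho.plane 1 z (by norm_num) hz' z1) z2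
    rcases this with h | h
    · left
      apply r3_ext
      · have : z 0 = 1 := by
          rw [e] at h ⊢; nlinarith [h.1]
        simpa using this
      · simpa using z1
      · simpa using z2
    · right
      apply r3_ext
      · have : z 0 = m := by
          rw [e] at h ⊢; nlinarith [h.2]
        simpa using this
      · simpa using z1
      · simpa using z2)
  have t := tri_unknotted (v := (m : ℝ)) (v' := 1) (u := 1) (by norm_num) hne.symm
  have e1 : segment ℝ (hub 1) (pnt 1) ∪ segment ℝ (pnt 1) (hub m) ∪ segment ℝ (hub m) (hub 1) =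
      segment ℝ (hub 1) (hub m) ∪ (segment ℝ (hub 1) (pnt 1) ∪ segment ℝ (pnt 1) (hub m)) := by
    rw [segment_symm ℝ (hub m) (hub 1), Set.union_comm]
  rw [e1] at t
  exact t.of_DEq s

theorem full {m n : ℕ} {l : List Lb} (hm : 3 ≤ m) (hn : 3 ≤ n) (hl : CL m n l) {s : Bool}
    (hA : ∀ x ∈ l, x.1 = s) : Unknotted (cim m n l) := by
  cases s
  · apply unknotted_of_fl
    apply full_A hn hl.fl
    intro x hx
    obtain ⟨y, hy, rfl⟩ := List.mem_map.mp hx
    simp [fl, hA y hy]
  · exact full_A hm hl hA

end Pool.Agent.Run7.h178
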