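import Mathlib
import Pool.Agent.Run7.h178.Full

/-! Every cycle of the join of two cycles, one of which has at most four vertices, is unknotted. -/

namespace Pool.Agent.Run7.h178

open Pool.Agent.Helper683.Lk (R3 mem_seg seg_mem r3_ext)

theorem exists_rot {s : Bool} : ∀ (pre : List Lb) (v v' p : Lb) (post l : List Lb), v.1 = s → v'.1 = s →
    (∀ x ∈ pre, x.1 = s) → p.1 ≠ s → l ~r v :: v' :: (pre ++ p :: post) →
    ∃ x y b rest, l ~r x :: y :: b :: rest ∧ x.1 = y.1 ∧ x.1 ≠ b.1
  | [], v, v', p, post, l, h1, h2, _, h4, h5 =>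
    ⟨v, v', p, post, h5, by rw [h1, h2], by rw [h1]; exact fun e => h4 e.symm⟩
  | w :: pre, v, v', p, post, l, h1, h2, h3, h4, h5 => by
    apply exists_rot pre v' w p (post ++ [v]) l h2 (h3 w (by simp)) (fun x hx => h3 x (by simp [hx])) h4
    refine h5.trans ⟨1, ?_⟩
    simp

theorem split_side {s : Bool} : ∀ (t : List Lb), (∃ x ∈ t, x.1 ≠ s) →
    ∃ pre p post, t = pre ++ p :: post ∧ (∀ x ∈ pre, x.1 = s) ∧ p.1 ≠ s
  | [], h => by obtain ⟨x, hx, _⟩ := h; simp at hx
  | a :: t, h => by
    by_cases ha : a.1 = s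
    · obtain ⟨x, hx, hx'⟩ := h
      rcases List.mem_cons.mp hx with rfl | hx
      · exact absurd ha hx'
      · obtain ⟨pre, p, post, h1, h2, h3⟩ := split_side t ⟨x, hx, hx'⟩
        refine ⟨a :: pre, p, post, by rw [h1]; rfl, ?_, h3⟩
        intro y hy
        rcases List.mem_cons.mp hy with rfl | hy
        · exact ha
        · exact h2 y hy
    · exact ⟨[], a, t, rfl, by simp, ha⟩

/-- alternating lists come from lists of pairs -/
theorem exists_pairs : ∀ (N : ℕ) (l : List Lb), l.length ≤ N → (∀ s x y t, l = s ++ x :: y :: t → x.1 ≠ y.1) →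
    (∀ x t, l = x :: t → x.1 = true) → (∀ s z, l = s ++ [z] → z.1 = false) → ∃ L, l = mkl L
  | _, [], _, _, _, _ => ⟨[], rfl⟩
  | _, [x], _, _, h2, h3 => by
    have a := h2 x [] rfl
    have b := h3 [] x rfl
    rw [a] at b; exact absurd b (by simp)
  | 0, x :: y :: t, h0, _, _, _ => by simp at h0
  | N + 1, x :: y :: t, h0, h1, h2, h3 => by
    have hx := h2 x (y :: t) rfl
    have hxy := h1 [] x y t rfl
    have hy : y.1 = false := by
      rw [hx] at hxy
      cases hy : y.1 with
      | true => rw [hy] at hxy; exact absurd rfl hxy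
      | false => rfl
    obtain ⟨L, hL⟩ := exists_pairs N t (by simp at h0; omega) (fun s a b r e => h1 (x :: y :: s) a b r (by rw [e]; rfl))
      (by
        intro a r e
        have := h1 [x] y a r (by rw [e]; rfl)
        rw [hy] at this
        cases ha : a.1 with
        | true => rfl
        | false => rw [ha] at this; exact absurd rfl this)
      (by
        intro s z e
        exact h3 (x :: y :: s) z (by rw [e]; rfl))
    refine ⟨(x.2, y.2) :: L, ?_⟩
    rw [mkl, ← hL]
    rcases x with ⟨a, x⟩
    rcases y with ⟨b, y⟩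
    dsimp only at hx hy
    rw [hx, hy]

/-- the dichotomy for closed lists -/
theorem trichotomy {m n : ℕ} {l : List Lb} (hl : CL m n l) :
    (∃ s, ∀ x ∈ l, x.1 = s) ∨ (∃ x y b rest, l ~r x :: y :: b :: rest ∧ x.1 = y.1 ∧ x.1 ≠ b.1) ∨
      ∃ L, l ~r mkl L := by
  by_cases hA : ∃ s, ∀ x ∈ l, x.1 = s
  · exact Or.inl hA
  right
  by_cases hB : ∃ l', l ~r l' ∧ ∃ x y t, l' = x :: y :: t ∧ x.1 = y.1
  · left
    obtain ⟨l', hl', x, y, t, rfl, hxy⟩ := hB
    have : ∃ z ∈ t, z.1 ≠ x.1 := by
      by_contra hc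
      push Not at hc
      apply hA
      refine ⟨x.1, ?_⟩
      intro z hz
      rcases List.mem_cons.mp (hl'.mem_iff.mp hz) with rfl | hz
      · rfl
      · rcases List.mem_cons.mp hz with rfl | hz
        · exact hxy.symm
        · exact hc z hz
    obtain ⟨pre, p, post, h1, h2, h3⟩ := split_side t this
    exact exists_rot pre x y p post l rfl hxy.symm h2 h3 (by rw [← h1]; exact hl')
  · right
    push Not at hB
    -- a rotation which starts with a hub
    obtain ⟨l', hr, hhead⟩ : ∃ l', l ~r l' ∧ ∀ x t, l' = x :: t → x.1 = true := by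
      rcases l with _ | ⟨a, _ | ⟨b, t⟩⟩
      · have := hl.len; simp at this
      · have := hl.len; simp at this
      · have hab := hB _ (List.IsRotated.refl _) a b t rfl
        by_cases ha : a.1 = true
        · refine ⟨_, List.IsRotated.refl _, ?_⟩
          intro x r e
          rw [List.cons.injEq] at e
          rw [← e.1]; exact ha
        · refine ⟨b :: (t ++ [a]), ⟨1, by simp⟩, ?_⟩
          intro x r e
          rw [List.cons.injEq] at e
          rw [← e.1]
          cases hb : b.1 with
          | true => rfl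
          | false =>
            rw [hb] at hab
            cases ha' : a.1 with
            | true => exact absurd ha' ha
            | false => rw [ha'] at hab; exact absurd rfl hab
    have hall : ∀ s x y t, l' = s ++ x :: y :: t → x.1 ≠ y.1 := by
      intro s x y t e
      apply hB (x :: y :: (t ++ s)) _ x y (t ++ s) rfl
      refine hr.trans ?_
      rw [e]
      have := List.isRotated_append (l := s) (l' := x :: y :: t)
      simpa using this
    have hlast : ∀ s z, l' = s ++ [z] → z.1 = false := by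
      intro s z e
      rcases s with _ | ⟨a, s⟩
      · have := hl.len
        rw [hr.perm.length_eq, e] at this
        simp at this
      · have ha := hhead a (s ++ [z]) (by rw [e]; rfl)
        have := hB (z :: a :: s) (hr.trans (by
          rw [e]
          have := List.isRotated_append (l := a :: s) (l' := [z])
          simpa using this)) z a s rfl
        rw [ha] at this
        cases hz : z.1 with
        | true => rw [hz] at this; exact absurd rfl this
        | false => rfl
    obtain ⟨L, hL⟩ := exists_pairs l'.length l' le_rfl hall hhead hlast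
    exact ⟨L, hL ▸ hr⟩

/-- `a` is strictly between `v` and `w` -/
def Btw (v a w : ℕ) : Prop := (v < a ∧ a < w) ∨ (w < a ∧ a < v)

theorem exists_arc {m v1 v2 : ℕ} {L : List (ℕ × ℕ)} (h1 : v1 < m) (h2 : v2 < m) (hne : v1 ≠ v2)
    (hL : ∀ a ∈ L, a.1 ≠ v1 ∧ a.1 ≠ v2) (hc : (∀ a ∈ L, ¬ Btw v1 a.1 v2) ∨ (∀ a ∈ L, Btw v1 a.1 v2)) :
    ∃ Γ C I, ArcOK ((m : ℝ) + 1) ((v1 : ℝ) + 1) ((v2 : ℝ) + 1) Γ C I ∧ ∀ a ∈ L, ¬ I ((a.1 : ℝ) + 1) := by
  have hS : (0 : ℝ) < (m : ℝ) + 1 := by positivity
  have hne' : ((v1 : ℝ) + 1) ≠ ((v2 : ℝ) + 1) := by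
    intro e; exact hne (by exact_mod_cast add_right_cancel e)
  rcases hc with hc | hc
  · refine ⟨_, _, _, inner_ok hS (abs_pos_lt h1) (abs_pos_lt h2) hne', ?_⟩
    intro a ha hI
    obtain ⟨g1, g2⟩ := hL a ha
    have : (v1 ≤ a.1 ∧ a.1 ≤ v2) ∨ (v2 ≤ a.1 ∧ a.1 ≤ v1) := by
      rcases hI with ⟨h1, h2⟩ | ⟨h1, h2⟩
      · left
        constructor
        · exact_mod_cast (by linarith : (v1 : ℝ) ≤ a.1)
        · exact_mod_cast (by linarith : (a.1 : ℝ) ≤ v2)
      · right
        constructor
        · exact_mod_cast (by linarith : (v2 : ℝ) ≤ a.1)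
        · exact_mod_cast (by linarith : (a.1 : ℝ) ≤ v1)
    apply hc a ha
    unfold Btw; omega
  · refine ⟨_, _, _, outer_ok hS (abs_pos_lt h1) (abs_pos_lt h2) hne', ?_⟩
    intro a ha hI
    obtain ⟨g1, g2⟩ := hL a ha
    have : (a.1 ≤ v1 ∧ a.1 ≤ v2) ∨ (v1 ≤ a.1 ∧ v2 ≤ a.1) := by
      rcases hI with ⟨h1, h2⟩ | ⟨h1, h2⟩
      · left
        constructor
        · exact_mod_cast (by linarith : (a.1 : ℝ) ≤ v1)
        · exact_mod_cast (by linarith : (a.1 : ℝ) ≤ v2)
      · right
        constructor
        · exact_mod_cast (by linarith : (v1 : ℝ) ≤ a.1)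
        · exact_mod_cast (by linarith : (v2 : ℝ) ≤ a.1)
    have := hc a ha
    unfold Btw at this; omega

/-- a reducible alternating polygon -/
theorem destab' {m n : ℕ} {v1 p1 v2 p2 v3 p3 : ℕ} {L : List (ℕ × ℕ)}
    (hl : CL m n (mkl ((v1, p1) :: (v2, p2) :: (v3, p3) :: L)))
    (hc : (∀ a ∈ (v3, p3) :: L, ¬ Btw v1 a.1 v2) ∨ (∀ a ∈ (v3, p3) :: L, Btw v1 a.1 v2)) :
    CL m n (mkl ((v1, p2) :: (v3, p3) :: L)) ∧
      DEq (cim m n (mkl ((v1, p2) :: (v3, p3) :: L))) (cim m n (mkl ((v1, p1) :: (v2, p2) :: (v3, p3) :: L))) := by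
  have hl' := CL_mkl.mp hl
  obtain ⟨l1, l2, l3, l4, l5⟩ := hl'
  simp only [List.map_cons, List.nodup_cons, List.mem_cons, not_or] at l2
  obtain ⟨⟨a1, a2, a3⟩, ⟨a4, a5⟩, a6, a7⟩ := l2
  obtain ⟨Γ, C, I, hok, hI⟩ := exists_arc (L := (v3, p3) :: L) (l4 (v1, p1) (by simp)) (l4 (v2, p2) (by simp)) a1 (by
    intro a ha
    rcases List.mem_cons.mp ha with rfl | ha
    · exact ⟨fun e => a2 e.symm, fun e => a4 e.symm⟩
    · exact ⟨fun e => a3 (List.mem_map.mpr ⟨a, ha, e⟩), fun e => a5 (List.mem_map.mpr ⟨a, ha, e⟩)⟩) hc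
  exact destab hl hok hI

theorem CL_len {m n : ℕ} {L : List (ℕ × ℕ)} (hl : CL m n (mkl L)) : L.length ≤ n := by
  obtain ⟨l1, l2, l3, l4, l5⟩ := CL_mkl.mp hl
  have h1 : (L.map Prod.snd).toFinset ⊆ Finset.range n := by
    intro x hx
    rw [List.mem_toFinset, List.mem_map] at hx
    obtain ⟨a, ha, rfl⟩ := hx
    exact Finset.mem_range.mpr (l5 a ha)
  have h2 := Finset.card_le_card h1
  rw [List.toFinset_card_of_nodup l3, Finset.card_range] at h2
  simpa using h2

/-- every closed list is unknotted if the second cycle has at most four vertices -/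
theorem unknotted_list {m n : ℕ} (hm : 3 ≤ m) (hn : 3 ≤ n) (h4 : n ≤ 4) :
    ∀ (N : ℕ) (l : List Lb), l.length ≤ N → CL m n l → Unknotted (cim m n l)
  | 0, l, h0, hl => by have := hl.len; omega
  | N + 1, l, h0, hl => by
    rcases trichotomy hl with ⟨s, hs⟩ | ⟨x, y, b, rest, hr, hxy, hxb⟩ | ⟨L, hr⟩
    · exact full hm hn hl hs
    · rw [cim_rot hr]
      have hl' := hl.rot hr
      rcases rest with _ | ⟨r0, rest⟩
      · exact base3 hm hn hxy hxb hl'
      · obtain ⟨g1, g2⟩ := contract hm hn hxy hxb hl'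
        apply g2
        apply unknotted_list hm hn h4 N _ _ g1
        have := hr.perm.length_eq
        simp at this ⊢
        omega
    · rw [cim_rot hr]
      have hl' := hl.rot hr
      have hlen := hr.perm.length_eq
      rw [length_mkl] at hlen
      have hle := CL_len hl'
      have hl'' := CL_mkl.mp hl'
      have h2 := hl''.1
      -- a reducible position
      have red : ∀ v1 p1 v2 p2 v3 p3 (L' : List (ℕ × ℕ)), l ~r mkl ((v1, p1) :: (v2, p2) :: (v3, p3) :: L') →
          ((∀ a ∈ (v3, p3) :: L', ¬ Btw v1 a.1 v2) ∨ (∀ a ∈ (v3, p3) :: L', Btw v1 a.1 v2)) →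
          Unknotted (cim m n l) := by
        intro v1 p1 v2 p2 v3 p3 L' hr' hc
        obtain ⟨g1, g2⟩ := destab' (hl.rot hr') hc
        rw [cim_rot hr']
        refine (unknotted_list hm hn h4 N _ ?_ g1).of_DEq g2
        have := hr'.perm.length_eq
        rw [length_mkl] at this ⊢
        simp at this ⊢
        omega
      rw [← cim_rot hr]
      match L, h2, hle, hr, hl' with
      | [], h2, _, _, _ => simp at h2
      | [_], h2, _, _, _ => simp at h2
      | [(v1, p1), (v2, p2)], _, _, hr, hl' =>
        rw [cim_rot hr]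
        exact base_two hl'
      | [(v1, p1), (v2, p2), (v3, p3)], _, _, hr, _ =>
        apply red _ _ _ _ _ _ _ hr
        by_cases h : Btw v1 v3 v2
        · right; simpa using h
        · left; simpa using h
      | [(v1, p1), (v2, p2), (v3, p3), (v4, p4)], _, _, hr, hl' =>
        have hv := (CL_mkl.mp hl').2.1
        simp only [List.map_cons, List.map_nil, List.nodup_cons, List.mem_cons, List.not_mem_nil,
          or_false, not_or] at hv
        by_cases h3 : Btw v1 v3 v2 <;> by_cases h4' : Btw v1 v4 v2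
        · apply red _ _ _ _ _ _ _ hr
          right
          intro a ha
          simp only [List.mem_cons, List.not_mem_nil, or_false] at ha
          rcases ha with rfl | rfl
          · exact h3
          · exact h4'
        · have hr' : l ~r mkl [(v2, p2), (v3, p3), (v4, p4), (v1, p1)] := hr.trans (mkl_rot1 _ _)
          apply red _ _ _ _ _ _ _ hr'
          left
          intro a ha
          simp only [List.mem_cons, List.not_mem_nil, or_false] at ha
          unfold Btw at *
          rcases ha with rfl | rfl <;> omega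
        · have hr' : l ~r mkl [(v2, p2), (v3, p3), (v4, p4), (v1, p1)] := hr.trans (mkl_rot1 _ _)
          apply red _ _ _ _ _ _ _ hr'
          unfold Btw at *
          by_cases h5 : (v2 < v4 ∧ v4 < v3) ∨ (v3 < v4 ∧ v4 < v2)
          · right
            intro a ha
            simp only [List.mem_cons, List.not_mem_nil, or_false] at ha
            rcases ha with rfl | rfl <;> omega
          · left
            intro a ha
            simp only [List.mem_cons, List.not_mem_nil, or_false] at ha
            rcases ha with rfl | rfl <;> omega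
        · apply red _ _ _ _ _ _ _ hr
          left
          intro a ha
          simp only [List.mem_cons, List.not_mem_nil, or_false] at ha
          rcases ha with rfl | rfl
          · exact h3
          · exact h4'
      | _ :: _ :: _ :: _ :: _ :: _, _, hle, _, _ => simp at hle; omega

end Pool.Agent.Run7.h178
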