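import Mathlib
import Pool.Agent.Run7.h178.Emb
import Pool.Agent.Run7.h178.Knotless
import Pool.Agent.Run7.h178.Defs

/-! Subgraphs of the join of two cycles whose closed lists are unknotted are not intrinsically
knotted. -/

namespace Pool.Agent.Run7.h178

open Pool.Agent.Helper683.Lk (R3 mem_seg seg_mem r3_ext SpatialEmbedding)

theorem Polygonal.segment (x y : R3) : Polygonal (segment ℝ x y) :=
  ⟨{(x, y)}, by simp⟩

theorem Polygonal.union {K L : Set R3} (h : Polygonal K) (h' : Polygonal L) : Polygonal (K ∪ L) := by
  classical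
  obtain ⟨s, rfl⟩ := h
  obtain ⟨t, rfl⟩ := h'
  refine ⟨s ∪ t, ?_⟩
  rw [Finset.set_biUnion_union]

theorem Polygonal.sigma {K : Set R3} (h : Polygonal K) : Polygonal (sigma '' K) := by
  classical
  obtain ⟨s, rfl⟩ := h
  refine ⟨s.image (fun e => (Pool.Agent.Run7.h178.sigma e.1, Pool.Agent.Run7.h178.sigma e.2)), ?_⟩
  rw [Set.image_iUnion₂, Finset.set_biUnion_finset_image]
  simp only [sigma_segment]

theorem polygonal_arcA (m i j : ℕ) : Polygonal (arcA m i j) := by
  unfold arcA
  split_ifs
  · exact Polygonal.segment _ _
  · exact (((Polygonal.segment _ _).union (Polygonal.segment _ _)).union (Polygonal.segment _ _)).union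
      (Polygonal.segment _ _)

theorem polygonal_eim (m n : ℕ) (a b : Lb) : Polygonal (eim m n a b) := by
  rcases a with ⟨s, k⟩
  rcases b with ⟨s', k'⟩
  cases s <;> cases s'
  · exact (polygonal_arcA _ _ _).sigma
  · exact Polygonal.segment _ _
  · exact Polygonal.segment _ _
  · exact polygonal_arcA _ _ _

section
variable {V : Type*} {G : SimpleGraph V} {m n : ℕ} {lab : V → Lb}

theorem range_curve (E : SpatialEmbedding G)
    (hE : ∀ {a b : V} (h : G.Adj a b), Set.range (E.arc h) = eim m n (lab a) (lab b)) :
    ∀ {a b : V} (w : G.Walk a b), 0 < w.length →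
      Set.range (E.curve w) = pim m n (lab a) (w.support.tail.map lab)
  | _, _, .nil, h0 => by simp at h0
  | a, _, .cons (v := b) h w, _ => by
    show Set.range ((E.arc h).trans (E.curve w)) = _
    rw [Path.trans_range, hE h, SimpleGraph.Walk.support_cons, List.tail_cons]
    rcases Nat.eq_zero_or_pos w.length with h0 | h0
    · cases w with
      | nil =>
        simp only [SimpleGraph.Walk.support_nil, List.map_cons, List.map_nil, pim, Set.union_empty]
        apply Set.union_eq_self_of_subset_right
        rintro _ ⟨t, rfl⟩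
        rw [← hE h]
        exact ⟨1, by rw [Path.target]; rfl⟩
      | cons h' w' => simp at h0
    · rw [range_curve E hE w h0]
      have : w.support.map lab = lab b :: w.support.tail.map lab := by
        conv_lhs => rw [← w.cons_tail_support]
        rfl
      rw [this]
      rfl

theorem pch_walk (hL : Lab G m n lab) : ∀ {a b : V} (w : G.Walk a b),
    pch m n (lab a) (w.support.tail.map lab)
  | _, _, .nil => by simp [pch]
  | a, _, .cons (v := b) h w => by
    rw [SimpleGraph.Walk.support_cons, List.tail_cons]
    have : w.support.map lab = lab b :: w.support.tail.map lab := by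
      conv_lhs => rw [← w.cons_tail_support]
      rfl
    rw [this]
    exact ⟨hL.adj h, pch_walk hL w⟩

/-- the closed list of a cycle -/
theorem cycle_list (hL : Lab G m n lab) {E : SpatialEmbedding G}
    (hE : ∀ {a b : V} (h : G.Adj a b), Set.range (E.arc h) = eim m n (lab a) (lab b))
    {a : V} {C : G.Walk a a} (hC : C.IsCycle) :
    ∃ l, CL m n l ∧ Set.range (E.curve C) = cim m n l := by
  have h3 := hC.three_le_length
  have hlen : C.support.tail.length = C.length := by
    rw [List.length_tail, SimpleGraph.Walk.length_support]; rfl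
  have hne : C.support.tail ≠ [] := by
    intro e; rw [e] at hlen; simp at hlen; omega
  have hlast : C.support.tail.getLast hne = a := by
    rw [List.getLast_tail]
    exact SimpleGraph.Walk.getLast_support C
  obtain ⟨t, ht⟩ : ∃ t, C.support.tail = t ++ [a] := by
    refine ⟨C.support.tail.dropLast, ?_⟩
    conv_lhs => rw [← List.dropLast_append_getLast hne, hlast]
  have hnd := hC.support_nodup
  rw [ht] at hnd hlen
  refine ⟨(a :: t).map lab, ⟨?_, ?_, ?_, ?_⟩, ?_⟩
  · rw [List.nodup_map_iff hL.inj]
    rw [List.nodup_append_comm] at hnd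
    simpa using hnd
  · simp at hlen ⊢; omega
  · intro x hx
    obtain ⟨v, _, rfl⟩ := List.mem_map.mp hx
    exact hL.ok v
  · have := pch_walk hL C
    rw [ht] at this
    simpa [cch] using this
  · rw [range_curve E hE C (by omega), ht]
    simp [cim]

theorem not_IK_of_lists (hm : 3 ≤ m) (hn : 3 ≤ n) (hL : Lab G m n lab)
    (hU : ∀ l, CL m n l → Unknotted (cim m n l)) : ¬ IntrinsicallyKnotted G := by
  intro hIK
  obtain ⟨E, hE⟩ := exists_embedding lab hm hn hL
  obtain ⟨a, C, hC, hK⟩ := hIK E (by
    intro a b h
    rw [hE h]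
    exact polygonal_eim _ _ _ _)
  obtain ⟨l, h1, h2⟩ := cycle_list hL hE hC
  apply hK
  rw [h2]
  exact hU l h1

/-- a subgraph of the join of two cycles one of which has at most four vertices is not
intrinsically knotted -/
theorem not_IK_four (hm : 3 ≤ m) (hn : 3 ≤ n) (h4 : n ≤ 4) (hL : Lab G m n lab) :
    ¬ IntrinsicallyKnotted G :=
  not_IK_of_lists hm hn hL fun l hl => unknotted_list hm hn h4 l.length l le_rfl hl

end

end Pool.Agent.Run7.h178
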