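import Mathlib
import Pool.Agent.Helper683.Lk.Set

/-! The pairing of the edges of an embedded finite graph which computes linking numbers. -/

set_option maxHeartbeats 4000000

namespace Pool.Agent.Run7.h178

open Pool.Agent.Helper683.Lk Topology Filter

variable {V : Type*} [Fintype V] [DecidableEq V] {G : SimpleGraph V} [DecidableRel G.Adj]

/-- scale, subdivision and direction -/
structure Scale (E : SpatialEmbedding G) where
  ρ : ℝ
  hρ : 0 < ρ
  far : ∀ {a b x y : V} (h : G.Adj a b) (h' : G.Adj x y), a ≠ x → a ≠ y → b ≠ x → b ≠ y →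
    ∀ s t : ℝ, 2 * ρ ≤ dist ((E.arc h).extend s) ((E.arc h').extend t)
  M : ℕ
  hM : 0 < M
  mod : ∀ {a b : V} (h : G.Adj a b), Mod (E.arc h) M ρ
  v : R3
  hv : v ≠ 0
  reg : ∀ a b x y : V, G.Adj a b → G.Adj x y → a ≠ x → a ≠ y → b ≠ x → b ≠ y → ∀ i < M, ∀ j < M,
    RegPair v (pt E M a b i) (pt E M a b (i + 1)) (pt E M x y j) (pt E M x y (j + 1))
  dis : ∀ a b x y : V, G.Adj a b → G.Adj x y → a ≠ x → a ≠ y → b ≠ x → b ≠ y → ∀ i < M, ∀ j < M,
    Disjoint (segment ℝ (pt E M a b i) (pt E M a b (i + 1)))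
      (segment ℝ (pt E M x y j) (pt E M x y (j + 1)))

omit [DecidableEq V] in
theorem exists_scale (E : SpatialEmbedding G) : Nonempty (Scale E) := by
  classical
  have hf : ∀ᶠ ρ : ℝ in 𝓝[>] 0, ∀ q : V × V × V × V,
      ∀ (h : G.Adj q.1 q.2.1) (h' : G.Adj q.2.2.1 q.2.2.2), q.1 ≠ q.2.2.1 → q.1 ≠ q.2.2.2 →
      q.2.1 ≠ q.2.2.1 → q.2.1 ≠ q.2.2.2 →
      ∀ s t : ℝ, 2 * ρ ≤ dist ((E.arc h).extend s) ((E.arc h').extend t) := by
    rw [Filter.eventually_all]
    rintro ⟨a, b, x, y⟩
    by_cases hh : G.Adj a b ∧ G.Adj x y ∧ a ≠ x ∧ a ≠ y ∧ b ≠ x ∧ b ≠ y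
    · obtain ⟨h1, h2, h3, h4, h5, h6⟩ := hh
      filter_upwards [ev_far (E.arc h1) (E.arc h2) (by
        intro s t hst
        obtain ⟨v, v1, v2, _⟩ := E.arc_disjoint h1 h2
          (by
            intro he
            have : a ∈ s(x, y) := he ▸ Sym2.mem_mk_left a b
            rcases Sym2.mem_iff.mp this with h | h
            · exact h3 h
            · exact h4 h) s t hst
        rcases Sym2.mem_iff.mp v1 with rfl | rfl <;> rcases Sym2.mem_iff.mp v2 with h | h
        · exact h3 h
        · exact h4 h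
        · exact h5 h
        · exact h6 h)] with ρ hρ
      intro _ _ _ _ _ _
      exact hρ
    · apply Filter.Eventually.of_forall
      intro ρ h h' h3 h4 h5 h6
      exact absurd ⟨h, h', h3, h4, h5, h6⟩ hh
  obtain ⟨ρ, hfar, hρ⟩ := (hf.and self_mem_nhdsWithin).exists
  have hm : ∀ᶠ M : ℕ in atTop, ∀ q : V × V, ∀ h : G.Adj q.1 q.2, Mod (E.arc h) M ρ := by
    rw [Filter.eventually_all]
    rintro ⟨a, b⟩
    by_cases h : G.Adj a b
    · filter_upwards [ev_Mod (E.arc h) hρ] with M hM _
      exact hM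
    · apply Filter.Eventually.of_forall
      intro M h'
      exact absurd h' h
  obtain ⟨M, hmod, hM⟩ := (hm.and (Filter.eventually_gt_atTop 0)).exists
  have hdis : ∀ a b x y : V, G.Adj a b → G.Adj x y → a ≠ x → a ≠ y → b ≠ x → b ≠ y → ∀ i < M, ∀ j < M,
    Disjoint (segment ℝ (pt E M a b i) (pt E M a b (i + 1)))
      (segment ℝ (pt E M x y j) (pt E M x y (j + 1))) := by
    intro a b x y h1 h2 h3 h4 h5 h6 i _ j _
    rw [pt_adj E M h1, pt_adj E M h2]
    exact seg_disjoint ((hmod (a, b) h1).step hM le_rfl i) ((hmod (x, y) h2).step hM le_rfl j)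
      (hfar (a, b, x, y) h1 h2 h3 h4 h5 h6 _ _)
  obtain ⟨v, hv, hreg⟩ := exists_dir
    (((Finset.univ : Finset (V × V × V × V)).filter fun q =>
      G.Adj q.1 q.2.1 ∧ G.Adj q.2.2.1 q.2.2.2 ∧ q.1 ≠ q.2.2.1 ∧ q.1 ≠ q.2.2.2 ∧ q.2.1 ≠ q.2.2.1 ∧
        q.2.1 ≠ q.2.2.2) ×ˢ (Finset.range M ×ˢ Finset.range M))
    (fun t => pt E M t.1.1 t.1.2.1 t.2.1) (fun t => pt E M t.1.1 t.1.2.1 (t.2.1 + 1))
    (fun t => pt E M t.1.2.2.1 t.1.2.2.2 t.2.2) (fun t => pt E M t.1.2.2.1 t.1.2.2.2 (t.2.2 + 1)) (by
      rintro ⟨⟨a, b, x, y⟩, i, j⟩ ht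
      simp only [Finset.mem_product, Finset.mem_filter, Finset.mem_univ, true_and,
        Finset.mem_range] at ht
      obtain ⟨⟨h1, h2, h3, h4, h5, h6⟩, h7, h8⟩ := ht
      exact hdis a b x y h1 h2 h3 h4 h5 h6 i h7 j h8)
  refine ⟨⟨ρ, hρ, ?_, M, hM, ?_, v, hv, ?_, hdis⟩⟩
  · intro a b x y h h' h3 h4 h5 h6 s t
    exact hfar (a, b, x, y) h h' h3 h4 h5 h6 s t
  · intro a b h
    exact hmod (a, b) h
  · intro a b x y h1 h2 h3 h4 h5 h6 i hi j hj
    apply hreg ((a, b, x, y), i, j)
    simp only [Finset.mem_product, Finset.mem_filter, Finset.mem_univ, true_and, Finset.mem_range]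
    exact ⟨⟨h1, h2, h3, h4, h5, h6⟩, hi, hj⟩

omit [Fintype V] [DecidableEq V] [DecidableRel G.Adj] in
theorem regPair_sub {v a b c d a' b' c' d' : R3} (h : RegPair v a b c d)
    (ha : a' = a ∨ a' = b) (hb : b' = a ∨ b' = b) (hc : c' = c ∨ c' = d) (hd : d' = c ∨ d' = d) :
    RegPair v a' b' c' d' := by
  have s1 : segment ℝ a' b' ⊆ segment ℝ a b := by
    apply (convex_segment a b).segment_subset
    · rcases ha with rfl | rfl
      · exact left_mem_segment ℝ _ _
      · exact right_mem_segment ℝ _ _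
    · rcases hb with rfl | rfl
      · exact left_mem_segment ℝ _ _
      · exact right_mem_segment ℝ _ _
  have s2 : segment ℝ c' d' ⊆ segment ℝ c d := by
    apply (convex_segment c d).segment_subset
    · rcases hc with rfl | rfl
      · exact left_mem_segment ℝ _ _
      · exact right_mem_segment ℝ _ _
    · rcases hd with rfl | rfl
      · exact left_mem_segment ℝ _ _
      · exact right_mem_segment ℝ _ _
  refine ⟨fun y hy t => ⟨?_, ?_⟩, fun y hy t => ⟨?_, ?_⟩⟩
  · rcases ha with rfl | rfl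
    · exact (h.1 y (s2 hy) t).1
    · exact (h.1 y (s2 hy) t).2
  · rcases hb with rfl | rfl
    · exact (h.1 y (s2 hy) t).1
    · exact (h.1 y (s2 hy) t).2
  · rcases hc with rfl | rfl
    · exact (h.2 y (s1 hy) t).1
    · exact (h.2 y (s1 hy) t).2
  · rcases hd with rfl | rfl
    · exact (h.2 y (s1 hy) t).1
    · exact (h.2 y (s1 hy) t).2

theorem segDis_sub {a b c d a' b' c' d' : R3} (h : Disjoint (segment ℝ a b) (segment ℝ c d))
    (ha : a' = a ∨ a' = b) (hb : b' = a ∨ b' = b) (hc : c' = c ∨ c' = d) (hd : d' = c ∨ d' = d) :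
    Disjoint (segment ℝ a' b') (segment ℝ c' d') := by
  apply h.mono
  · apply (convex_segment a b).segment_subset
    · rcases ha with rfl | rfl
      · exact left_mem_segment ℝ _ _
      · exact right_mem_segment ℝ _ _
    · rcases hb with rfl | rfl
      · exact left_mem_segment ℝ _ _
      · exact right_mem_segment ℝ _ _
  · apply (convex_segment c d).segment_subset
    · rcases hc with rfl | rfl
      · exact left_mem_segment ℝ _ _
      · exact right_mem_segment ℝ _ _
    · rcases hd with rfl | rfl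
      · exact left_mem_segment ℝ _ _
      · exact right_mem_segment ℝ _ _

variable {E : SpatialEmbedding G} (S : Scale E)

omit [Fintype V] [DecidableEq V] [DecidableRel G.Adj] in
theorem darts_ne {a b c d : V} {w : G.Walk a b} {w' : G.Walk c d}
    (hd : List.Disjoint w.support w'.support) {e : G.Dart} (he : e ∈ w.darts) {f : G.Dart}
    (hf : f ∈ w'.darts) : e.fst ≠ f.fst ∧ e.fst ≠ f.snd ∧ e.snd ≠ f.fst ∧ e.snd ≠ f.snd := by
  have h1 := SimpleGraph.Walk.dart_fst_mem_support_of_mem_darts _ he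
  have h2 := SimpleGraph.Walk.dart_snd_mem_support_of_mem_darts _ he
  have h3 := SimpleGraph.Walk.dart_fst_mem_support_of_mem_darts _ hf
  have h4 := SimpleGraph.Walk.dart_snd_mem_support_of_mem_darts _ hf
  exact ⟨fun h => hd h1 (h ▸ h3), fun h => hd h1 (h ▸ h4), fun h => hd h2 (h ▸ h3),
    fun h => hd h2 (h ▸ h4)⟩

theorem sp_pair {a b c d : V} (w : G.Walk a b) (w' : G.Walk c d)
    (hd : List.Disjoint w.support w'.support) (hw : 0 < w.length) (hw' : 0 < w'.length) :
    ∀ i < S.M * w.length + 1, ∀ j < S.M * w'.length + 1,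
      RegPair S.v (sp E S.M w i) (sp E S.M w (i + 1)) (sp E S.M w' j) (sp E S.M w' (j + 1)) ∧
      Disjoint (segment ℝ (sp E S.M w i) (sp E S.M w (i + 1)))
        (segment ℝ (sp E S.M w' j) (sp E S.M w' (j + 1))) := by
  intro i hi j hj
  obtain ⟨e, he, k, hk, e1, e2⟩ := sp_edge E S.hM w hw i hi
  obtain ⟨f, hf, l, hl, f1, f2⟩ := sp_edge E S.hM w' hw' j hj
  obtain ⟨h1, h2, h3, h4⟩ := darts_ne hd he hf
  exact ⟨regPair_sub (S.reg _ _ _ _ e.adj f.adj h1 h2 h3 h4 k hk l hl) e1 e2 f1 f2,
    segDis_sub (S.dis _ _ _ _ e.adj f.adj h1 h2 h3 h4 k hk l hl) e1 e2 f1 f2⟩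

/-- the linking number of two disjoint closed walks -/
theorem isLk {a c : V} (w : G.Walk a a) (w' : G.Walk c c)
    (hd : List.Disjoint w.support w'.support) (hw : 0 < w.length) (hw' : 0 < w'.length) :
    IsLinkingNumber (E.curve w) (E.curve w')
      (crossSum S.v (S.M * w.length + 1) (sp E S.M w) (S.M * w'.length + 1) (sp E S.M w')) := by
  have hM := S.hM
  refine isLk_of (k := 2 ^ w.length * S.M) (k' := 2 ^ w'.length * S.M) S.hρ ?_ ?_ ?_ ?_ ?_ ?_
  · intro s t
    obtain ⟨e, he, s', hs'⟩ := curve_mem E w hw s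
    obtain ⟨f, hf, t', ht'⟩ := curve_mem E w' hw' t
    rw [hs', ht']
    obtain ⟨h1, h2, h3, h4⟩ := darts_ne hd he hf
    exact S.far e.adj f.adj h1 h2 h3 h4 s' t'
  · positivity
  · positivity
  · intro n hn
    have := sub_walk E hM S.hρ (fun h => S.mod h) w n hn
    rwa [mul_assoc] at this
  · intro n hn
    have := sub_walk E hM S.hρ (fun h => S.mod h) w' n hn
    rwa [mul_assoc] at this
  · exact regular_of S.hv (by omega) (by omega) fun i hi j hj =>
      (sp_pair S w w' hd hw hw' i hi j hj).1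

/-- pairing of two edges -/
noncomputable def T (a b x y : V) : ℤ := crossSum S.v S.M (pt E S.M a b) S.M (pt E S.M x y)

omit [Fintype V] [DecidableEq V] [DecidableRel G.Adj] in
theorem sum_list {α : Type*} (l : List α) (s : Finset ℕ) (f : ℕ → α → ℤ) :
    ∑ i ∈ s, (l.map (f i)).sum = (l.map fun x => ∑ i ∈ s, f i x).sum := by
  induction l with
  | nil => simp
  | cons a l ih => simp only [List.map_cons, List.sum_cons]; rw [Finset.sum_add_distrib, ih]

/-- total pairing of two walks -/
noncomputable def TT {a b c d : V} (w : G.Walk a b) (w' : G.Walk c d) : ℤ :=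
  (w'.darts.map fun f => (w.darts.map fun e => T S e.fst e.snd f.fst f.snd).sum).sum

theorem sp_T {a b c d : V} (w : G.Walk a b) (w' : G.Walk c d) :
    crossSum S.v (S.M * w.length + 1) (sp E S.M w) (S.M * w'.length + 1) (sp E S.M w') =
      TT S w w' := by
  have h1 : ∀ z z' : R3, (∑ i ∈ Finset.range (S.M * w.length + 1),
      crossSign S.v (sp E S.M w i) (sp E S.M w (i + 1)) z z') =
      (w.darts.map fun d => ∑ i ∈ Finset.range S.M,
        crossSign S.v (pt E S.M d.fst d.snd i) (pt E S.M d.fst d.snd (i + 1)) z z').sum := fun z z' =>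
    sp_sum E S.hM (fun p q => crossSign S.v p q z z') (fun x => cs_deg12 _ _ _ _) w
  unfold crossSum TT
  rw [Finset.sum_comm, sp_sum E S.hM (fun z z' => ∑ i ∈ Finset.range (S.M * w.length + 1),
      crossSign S.v (sp E S.M w i) (sp E S.M w (i + 1)) z z')
    (fun x => Finset.sum_eq_zero fun i _ => cs_deg34 _ _ _ _) w']
  congr 1
  apply List.map_congr_left
  intro f _
  rw [Finset.sum_congr rfl fun j _ => h1 _ _, sum_list]
  congr 1
  apply List.map_congr_left
  intro e _
  unfold T crossSum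
  exact Finset.sum_comm

/-! ### antisymmetry -/

omit [Fintype V] [DecidableEq V] [DecidableRel G.Adj] in
theorem sum_reflect_anti {M : ℕ} {p q : ℕ → R3} (F : R3 → R3 → ℤ) (hF : ∀ x y, F y x = - F x y)
    (hpq : ∀ i ≤ M, q i = p (M - i)) :
    ∑ i ∈ Finset.range M, F (q i) (q (i + 1)) = - ∑ i ∈ Finset.range M, F (p i) (p (i + 1)) := by
  rw [← Finset.sum_range_reflect (fun i => F (p i) (p (i + 1))), ← Finset.sum_neg_distrib]
  apply Finset.sum_congr rfl
  intro i hi
  rw [Finset.mem_range] at hi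
  rw [← hF, hpq i hi.le, hpq (i + 1) hi, show M - 1 - i + 1 = M - i by omega,
    show M - 1 - i = M - (i + 1) by omega]

theorem pt_symm {a b : V} (h : G.Adj a b) {i : ℕ} (hi : i ≤ S.M) :
    pt E S.M b a i = pt E S.M a b (S.M - i) := by
  rw [pt_adj E S.M h, pt_adj E S.M h.symm, E.arc_symm h, insc_symm _ S.hM hi]

theorem T_swap1 {a b : V} (h : G.Adj a b) (x y : V) : T S b a x y = - T S a b x y := by
  unfold T crossSum
  exact sum_reflect_anti (fun p q => ∑ j ∈ Finset.range S.M,
    crossSign S.v p q (pt E S.M x y j) (pt E S.M x y (j + 1)))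
    (fun p q => by rw [← Finset.sum_neg_distrib]; exact Finset.sum_congr rfl fun j _ => cs_swap12 _ _ _ _ _)
    (fun i hi => pt_symm S h hi)

theorem T_swap2 (a b : V) {x y : V} (h : G.Adj x y) : T S a b y x = - T S a b x y := by
  unfold T crossSum
  rw [Finset.sum_comm]
  rw [sum_reflect_anti (fun p q => ∑ i ∈ Finset.range S.M,
    crossSign S.v (pt E S.M a b i) (pt E S.M a b (i + 1)) p q)
    (fun p q => by rw [← Finset.sum_neg_distrib]; exact Finset.sum_congr rfl fun j _ => cs_swap34 _ _ _ _ _)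
    (fun i hi => pt_symm S h hi)]
  rw [Finset.sum_comm]

/-! ### additivity -/

theorem TT_append {a b c x y : V} (w : G.Walk a b) (w' : G.Walk b c) (u : G.Walk x y) :
    TT S (w.append w') u = TT S w u + TT S w' u := by
  unfold TT
  rw [SimpleGraph.Walk.darts_append]
  simp only [List.map_append, List.sum_append]
  rw [← List.sum_map_add]

theorem TT_append_right {a b c x y : V} (u : G.Walk x y) (w : G.Walk a b) (w' : G.Walk b c) :
    TT S u (w.append w') = TT S u w + TT S u w' := by
  unfold TT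
  rw [SimpleGraph.Walk.darts_append]
  simp only [List.map_append, List.sum_append]

omit [Fintype V] [DecidableEq V] [DecidableRel G.Adj] in
theorem list_neg {α : Type*} (l : List α) (f : α → ℤ) : (l.map fun x => - f x).sum = - (l.map f).sum := by
  induction l with
  | nil => simp
  | cons a l ih => simp only [List.map_cons, List.sum_cons]; rw [ih]; ring

theorem TT_reverse {a b x y : V} (w : G.Walk a b) (u : G.Walk x y) :
    TT S w.reverse u = - TT S w u := by
  unfold TT
  rw [← list_neg]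
  congr 1
  apply List.map_congr_left
  intro f _
  rw [SimpleGraph.Walk.darts_reverse, ← list_neg, List.map_reverse, List.sum_reverse, List.map_map]
  congr 1
  apply List.map_congr_left
  intro e _
  exact T_swap1 S e.adj _ _

theorem TT_reverse_right {a b x y : V} (u : G.Walk x y) (w : G.Walk a b) :
    TT S u w.reverse = - TT S u w := by
  unfold TT
  rw [SimpleGraph.Walk.darts_reverse, ← list_neg, List.map_reverse, List.sum_reverse, List.map_map]
  congr 1
  apply List.map_congr_left
  intro f _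
  rw [← list_neg]
  show (List.map _ u.darts).sum = _
  congr 1
  apply List.map_congr_left
  intro e _
  exact T_swap2 S _ _ f.adj

/-- the sum over the darts only depends on the darts up to permutation -/
theorem TT_perm {a b a' b' x y : V} (w : G.Walk a b) (w' : G.Walk a' b') (u : G.Walk x y)
    (h : w.darts.Perm w'.darts) : TT S w u = TT S w' u := by
  unfold TT
  congr 1
  apply List.map_congr_left
  intro f _
  exact (h.map _).sum_eq

theorem TT_perm_right {a b a' b' x y : V} (u : G.Walk x y) (w : G.Walk a b) (w' : G.Walk a' b')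
    (h : w.darts.Perm w'.darts) : TT S u w = TT S u w' := by
  unfold TT
  exact (h.map _).sum_eq

/-- the linking number of two disjoint cycles is the total pairing -/
theorem isLk' {a c : V} {w : G.Walk a a} {w' : G.Walk c c} (hw : w.IsCycle) (hw' : w'.IsCycle)
    (hd : List.Disjoint w.support w'.support) :
    IsLinkingNumber (E.curve w) (E.curve w') (TT S w w') := by
  rw [← sp_T]
  exact isLk S w w' hd (lt_of_lt_of_le (by norm_num) hw.three_le_length)
    (lt_of_lt_of_le (by norm_num) hw'.three_le_length)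

theorem lk_eq {a c : V} {w : G.Walk a a} {w' : G.Walk c c} (hw : w.IsCycle) (hw' : w'.IsCycle)
    (hd : List.Disjoint w.support w'.support) {k : ℤ} (h : IsLinkingNumber (E.curve w) (E.curve w') k) :
    k = TT S w w' := h.unique (isLk' S hw hw' hd)

/-- symmetry of the pairing of disjoint cycles -/
theorem TT_symm {a c : V} {w : G.Walk a a} {w' : G.Walk c c} (hw : w.IsCycle) (hw' : w'.IsCycle)
    (hd : List.Disjoint w.support w'.support) : TT S w w' = TT S w' w := by
  have h1 : 0 < w.length := lt_of_lt_of_le (by norm_num) hw.three_le_length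
  have h2 : 0 < w'.length := lt_of_lt_of_le (by norm_num) hw'.three_le_length
  rw [← sp_T, ← sp_T]
  have hp := sp_pair S w w' hd h1 h2
  apply crossSum_symm
  · rw [sp_last, sp_zero E S.hM]
  · rw [sp_last, sp_zero E S.hM]
  · exact S.hv
  · exact fun i hi j hj => (hp i hi j hj).1
  · exact fun i hi j hj => (hp i hi j hj).2

end Pool.Agent.Run7.h178
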