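import Mathlib
import Pool.Agent.Run7.h178.Pair
import Pool.Agent.Run7.h178.Defs

/-! An embedding with exactly one pair of disjoint cycles of nonzero linking number. -/

namespace Pool.Agent.Run7.h178

open Pool.Agent.Helper683.Lk (R3 SpatialEmbedding IsLinkingNumber)

variable {V : Type*} {G : SimpleGraph V}

theorem split_cycle [DecidableEq V] {a : V} {A : G.Walk a a} (hA : A.IsCycle) {u v : V} (hu : u ∈ A.support)
    (hv : v ∈ A.support) (huv : u ≠ v) : ∃ (Q1 : G.Walk u v) (Q2 : G.Walk v u), Q1.IsPath ∧ Q2.IsPath ∧
      (Q1.append Q2).darts.Perm A.darts ∧ (∀ x ∈ Q1.support, x ∈ A.support) ∧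
      (∀ x ∈ Q2.support, x ∈ A.support) ∧ List.Disjoint Q1.support.tail Q2.support.tail := by
  have hA' := hA.rotate hu
  have hv' : v ∈ (A.rotate u hu).support := by
    rw [SimpleGraph.Walk.mem_support_rotate_iff]; exact hv
  have hs := (A.rotate u hu).take_spec hv'
  refine ⟨(A.rotate u hu).takeUntil v hv', (A.rotate u hu).dropUntil v hv', hA'.isPath_takeUntil hv', ?_, ?_, ?_, ?_, ?_⟩
  · apply SimpleGraph.Walk.IsCycle.isPath_of_append_right (p := (A.rotate u hu).takeUntil v hv')
    · exact SimpleGraph.Walk.not_nil_of_ne huv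
    · rw [hs]; exact hA'
  · rw [hs]; exact (SimpleGraph.Walk.rotate_darts A u hu).perm
  · intro x hx
    have := SimpleGraph.Walk.support_takeUntil_subset_support _ hv' hx
    rwa [SimpleGraph.Walk.mem_support_rotate_iff] at this
  · intro x hx
    have := SimpleGraph.Walk.support_dropUntil_subset_support _ hv' hx
    rwa [SimpleGraph.Walk.mem_support_rotate_iff] at this
  · have := hA'.support_nodup
    rw [← hs, SimpleGraph.Walk.tail_support_append, List.nodup_append'] at this
    exact this.2.2

section
variable [Fintype V] [DecidableEq V] [DecidableRel G.Adj] {E : SpatialEmbedding G} (S : Scale E)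

theorem no_ear {a b : V} {A : G.Walk a a} {B : G.Walk b b} (hA : A.IsCycle)
    (hd : List.Disjoint A.support B.support) (hk : TT S A B ≠ 0)
    (honly : ∀ (c : V) (C : G.Walk c c), C.IsCycle → List.Disjoint C.support B.support → TT S C B ≠ 0 →
      ∀ e ∈ C.edges, e ∈ A.edges)
    {u v : V} (hu : u ∈ A.support) (hv : v ∈ A.support) (huv : u ≠ v) (P : G.Walk u v) (hP : P.IsPath)
    (hint : ∀ x ∈ P.support, x = u ∨ x = v ∨ x ∉ A.support)
    (hPB : List.Disjoint P.support B.support) (hPe : ∃ e ∈ P.edges, e ∉ A.edges) : False := by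
  obtain ⟨Q1, Q2, q1, q2, q3, q4, q5, q6⟩ := split_cycle hA hu hv huv
  have hsum : TT S A B = TT S Q1 B + TT S Q2 B := by
    rw [← TT_append]; exact TT_perm S _ _ _ q3.symm
  have hedge : ∀ e, e ∈ Q1.edges ∨ e ∈ Q2.edges → e ∈ A.edges := by
    intro e he
    have : e ∈ (Q1.append Q2).edges := by
      rw [SimpleGraph.Walk.edges_append, List.mem_append]; exact he
    rw [SimpleGraph.Walk.edges, List.mem_map] at this ⊢
    obtain ⟨d, hd1, hd2⟩ := this
    exact ⟨d, q3.mem_iff.mp hd1, hd2⟩
  obtain ⟨e0, he0, he0'⟩ := hPe
  -- a path starts with its first vertex only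
  have hstart : ∀ {x y : V} (W : G.Walk x y), W.IsPath → x ∉ W.support.tail := by
    intro x y W hW h
    have := hW.support_nodup
    rw [← W.cons_tail_support, List.nodup_cons] at this
    exact this.1 h
  have c1 : (P.append Q2).IsCycle := by
    apply hP.isCycle_append q2
    · intro x hx hx'
      rcases hint x (List.mem_of_mem_tail hx) with rfl | rfl | h
      · exact hstart P hP hx
      · exact hstart Q2 q2 hx'
      · exact h (q5 x (List.mem_of_mem_tail hx'))
    · by_contra hc
      push Not at hc
      have hP1 : P.length = 1 := by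
        have : 0 < P.length := by
          rw [← SimpleGraph.Walk.not_nil_iff_lt_length]
          exact SimpleGraph.Walk.not_nil_of_ne huv
        omega
      have hQ1 : Q2.length = 1 := by
        have : 0 < Q2.length := by
          rw [← SimpleGraph.Walk.not_nil_iff_lt_length]
          exact SimpleGraph.Walk.not_nil_of_ne huv.symm
        omega
      cases P with
      | nil => simp at hP1
      | cons h p =>
        have hp : p.length = 0 := by simpa using hP1
        cases p with
        | cons h' p' => simp at hp
        | nil =>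
          cases Q2 with
          | nil => simp at hQ1
          | cons g q =>
            have hq : q.length = 0 := by simpa using hQ1
            cases q with
            | cons g' q' => simp at hq
            | nil =>
              apply he0'
              apply hedge
              right
              simp at he0 ⊢
              rw [he0]
              exact Sym2.eq_swap
  have c2 : (Q1.append P.reverse).IsCycle := by
    apply q1.isCycle_append ((SimpleGraph.Walk.isPath_reverse_iff P).mpr hP)
    · intro x hx hx'
      have hx2 : x ∈ P.support := by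
        have := List.mem_of_mem_tail hx'
        rwa [SimpleGraph.Walk.support_reverse, List.mem_reverse] at this
      rcases hint x hx2 with rfl | rfl | h
      · exact hstart Q1 q1 hx
      · exact hstart P.reverse ((SimpleGraph.Walk.isPath_reverse_iff P).mpr hP) hx'
      · exact h (q4 x (List.mem_of_mem_tail hx))
    · by_contra hc
      push Not at hc
      rw [SimpleGraph.Walk.length_reverse] at hc
      have hP1 : P.length = 1 := by
        have : 0 < P.length := by
          rw [← SimpleGraph.Walk.not_nil_iff_lt_length]
          exact SimpleGraph.Walk.not_nil_of_ne huv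
        omega
      have hQ1 : Q1.length = 1 := by
        have : 0 < Q1.length := by
          rw [← SimpleGraph.Walk.not_nil_iff_lt_length]
          exact SimpleGraph.Walk.not_nil_of_ne huv
        omega
      cases P with
      | nil => simp at hP1
      | cons h p =>
        have hp : p.length = 0 := by simpa using hP1
        cases p with
        | cons h' p' => simp at hp
        | nil =>
          cases Q1 with
          | nil => simp at hQ1
          | cons g q =>
            have hq : q.length = 0 := by simpa using hQ1
            cases q with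
            | cons g' q' => simp at hq
            | nil =>
              apply he0'
              apply hedge
              left
              simp at he0 ⊢
              rw [he0]
  have d1 : List.Disjoint (P.append Q2).support B.support := by
    intro x hx hx'
    rw [SimpleGraph.Walk.mem_support_append_iff] at hx
    rcases hx with h | h
    · exact hPB h hx'
    · exact hd (q5 x h) hx'
  have d2 : List.Disjoint (Q1.append P.reverse).support B.support := by
    intro x hx hx'
    rw [SimpleGraph.Walk.mem_support_append_iff] at hx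
    rcases hx with h | h
    · exact hd (q4 x h) hx'
    · rw [SimpleGraph.Walk.support_reverse, List.mem_reverse] at h
      exact hPB h hx'
  have t1 : TT S (P.append Q2) B = TT S P B + TT S Q2 B := TT_append S _ _ _
  have t2 : TT S (Q1.append P.reverse) B = TT S Q1 B - TT S P B := by
    rw [TT_append, TT_reverse]; ring
  by_cases hz : TT S (P.append Q2) B = 0
  · have hz2 : TT S (Q1.append P.reverse) B ≠ 0 := by
      intro h0
      apply hk
      rw [hsum]
      linarith
    apply he0'
    apply honly _ _ c2 d2 hz2
    rw [SimpleGraph.Walk.edges_append, List.mem_append]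
    right
    rw [SimpleGraph.Walk.edges_reverse, List.mem_reverse]
    exact he0
  · apply he0'
    apply honly _ _ c1 d1 hz
    rw [SimpleGraph.Walk.edges_append, List.mem_append]
    exact Or.inl he0

/-- no chords -/
theorem no_chord {a b : V} {A : G.Walk a a} {B : G.Walk b b} (hA : A.IsCycle)
    (hd : List.Disjoint A.support B.support) (hk : TT S A B ≠ 0)
    (honly : ∀ (c : V) (C : G.Walk c c), C.IsCycle → List.Disjoint C.support B.support → TT S C B ≠ 0 →
      ∀ e ∈ C.edges, e ∈ A.edges)
    {u v : V} (hu : u ∈ A.support) (hv : v ∈ A.support) (h : G.Adj u v) : s(u, v) ∈ A.edges := by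
  by_contra hc
  refine no_ear S hA hd hk honly hu hv h.ne (SimpleGraph.Walk.cons h SimpleGraph.Walk.nil) ?_ ?_ ?_ ?_
  · simp [h.ne]
  · intro x hx
    simp at hx
    tauto
  · intro x hx hx'
    simp at hx
    rcases hx with rfl | rfl
    · exact hd hu hx'
    · exact hd hv hx'
  · exact ⟨s(u, v), by simp, hc⟩

/-- the set of vertices which can be reached from `x` outside of the two cycles -/
def Out {a b : V} (A : G.Walk a a) (B : G.Walk b b) (x d : V) : Prop :=
  ∃ w : G.Walk x d, ∀ y ∈ w.support, y ∉ A.support ∧ y ∉ B.support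

theorem one_nbr {a b : V} {A : G.Walk a a} {B : G.Walk b b} (hA : A.IsCycle)
    (hd : List.Disjoint A.support B.support) (hk : TT S A B ≠ 0)
    (honly : ∀ (c : V) (C : G.Walk c c), C.IsCycle → List.Disjoint C.support B.support → TT S C B ≠ 0 →
      ∀ e ∈ C.edges, e ∈ A.edges) {x : V}
    {u v d1 d2 : V} (hu : u ∈ A.support) (hv : v ∈ A.support) (h1 : Out A B x d1) (h2 : Out A B x d2)
    (a1 : G.Adj d1 u) (a2 : G.Adj d2 v) : u = v := by
  by_contra huv
  obtain ⟨w1, hw1⟩ := h1
  obtain ⟨w2, hw2⟩ := h2
  set w : G.Walk d1 d2 := (w1.reverse.append w2).bypass with hw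
  have hwp : w.IsPath := SimpleGraph.Walk.bypass_isPath _
  have hws : ∀ y ∈ w.support, y ∉ A.support ∧ y ∉ B.support := by
    intro y hy
    have := SimpleGraph.Walk.support_bypass_subset_support _ hy
    rw [SimpleGraph.Walk.mem_support_append_iff, SimpleGraph.Walk.support_reverse, List.mem_reverse] at this
    rcases this with h | h
    · exact hw1 y h
    · exact hw2 y h
  set P : G.Walk u v := SimpleGraph.Walk.cons a1.symm (w.concat a2) with hPdef
  have hsup : P.support = u :: (w.support ++ [v]) := by
    rw [hPdef, SimpleGraph.Walk.support_cons, SimpleGraph.Walk.support_concat]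
  have hP : P.IsPath := by
    rw [SimpleGraph.Walk.isPath_def, hsup]
    have hu' : u ∉ w.support := fun h => (hws u h).1 hu
    have hv' : v ∉ w.support := fun h => (hws v h).1 hv
    rw [List.nodup_cons, List.nodup_append']
    refine ⟨?_, hwp.support_nodup, by simp, ?_⟩
    · simp only [List.mem_append, List.mem_singleton, not_or]
      exact ⟨hu', huv⟩
    · intro y hy hy'
      rw [List.mem_singleton] at hy'
      exact hv' (hy' ▸ hy)
  have hdn : d1 ∉ A.support := (hws d1 w.start_mem_support).1
  refine no_ear S hA hd hk honly hu hv huv P hP ?_ ?_ ⟨s(u, d1), ?_, ?_⟩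
  · intro y hy
    rw [hsup] at hy
    simp only [List.mem_cons, List.mem_append, List.not_mem_nil, or_false] at hy
    rcases hy with h | h | h
    · exact Or.inl h
    · exact Or.inr (Or.inr (hws y h).1)
    · exact Or.inr (Or.inl h)
  · intro y hy hy'
    rw [hsup] at hy
    simp only [List.mem_cons, List.mem_append, List.not_mem_nil, or_false] at hy
    rcases hy with rfl | h | rfl
    · exact hd hu hy'
    · exact (hws y h).2 hy'
    · exact hd hv hy'
  · rw [hPdef]; simp
  · intro h
    exact hdn (SimpleGraph.Walk.snd_mem_support_of_mem_edges _ h)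

/-- the two cycles contain all vertices -/
theorem spanning {a b : V} {A : G.Walk a a} {B : G.Walk b b} (h3 : ThreeConnected G) (hA : A.IsCycle)
    (hB : B.IsCycle) (hd : List.Disjoint A.support B.support) (hk : TT S A B ≠ 0)
    (honly : ∀ (c : V) (C : G.Walk c c), C.IsCycle → List.Disjoint C.support B.support → TT S C B ≠ 0 →
      ∀ e ∈ C.edges, e ∈ A.edges)
    (honly' : ∀ (c : V) (C : G.Walk c c), C.IsCycle → List.Disjoint C.support A.support → TT S C A ≠ 0 →
      ∀ e ∈ C.edges, e ∈ B.edges) (x : V) : x ∈ A.support ∨ x ∈ B.support := by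
  by_contra hc
  push Not at hc
  have hk' : TT S B A ≠ 0 := by
    rw [← TT_symm S hA hB hd]; exact hk
  have hd' : List.Disjoint B.support A.support := hd.symm
  have hx : Out A B x x := ⟨SimpleGraph.Walk.nil, by simpa using hc⟩
  have hsw : ∀ {d : V}, Out A B x d → Out B A x d := fun ⟨w, hw⟩ => ⟨w, fun y hy => (hw y hy).symm⟩
  -- the only neighbour on each of the cycles
  obtain ⟨y, hyA, hy⟩ : ∃ y ∈ A.support, ∀ u ∈ A.support, ∀ d, Out A B x d → G.Adj d u → u = y := by
    by_cases h : ∃ u ∈ A.support, ∃ d, Out A B x d ∧ G.Adj d u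
    · obtain ⟨u, hu, d, h1, h2⟩ := h
      exact ⟨u, hu, fun v hv d' h1' h2' => one_nbr S hA hd hk honly hv hu h1' h1 h2' h2⟩
    · push Not at h
      exact ⟨a, A.start_mem_support, fun u hu d h1 h2 => absurd h2 (h u hu d h1)⟩
  obtain ⟨z, hzB, hz⟩ : ∃ z ∈ B.support, ∀ u ∈ B.support, ∀ d, Out A B x d → G.Adj d u → u = z := by
    by_cases h : ∃ u ∈ B.support, ∃ d, Out A B x d ∧ G.Adj d u
    · obtain ⟨u, hu, d, h1, h2⟩ := h
      exact ⟨u, hu, fun v hv d' h1' h2' => one_nbr S hB hd' hk' honly' hv hu (hsw h1') (hsw h1) h2' h2⟩
    · push Not at h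
      exact ⟨b, B.start_mem_support, fun u hu d h1 h2 => absurd h2 (h u hu d h1)⟩
  have hxy : x ≠ y := fun e => hc.1 (e ▸ hyA)
  have hxz : x ≠ z := fun e => hc.2 (e ▸ hzB)
  obtain ⟨c, hcA, hcy⟩ : ∃ c ∈ A.support, c ≠ y := by
    by_cases h : a = y
    · refine ⟨A.snd, A.getVert_mem_support 1, ?_⟩
      rw [← h]
      exact (A.adj_snd hA.not_nil).ne.symm
    · exact ⟨a, A.start_mem_support, h⟩
  have hcz : c ≠ z := fun e => hd hcA (e ▸ hzB)
  have key : ∀ {p q : {v | v ≠ y ∧ v ≠ z}} (W : (G.induce {v | v ≠ y ∧ v ≠ z}).Walk p q),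
      Out A B x p.1 → Out A B x q.1 := by
    intro p q W
    induction W with
    | nil => exact id
    | @cons p r q h W ih =>
      intro hp
      apply ih
      have hadj : G.Adj p.1 r.1 := h
      have hr1 : r.1 ∉ A.support := fun hm => r.2.1 (hy r.1 hm p.1 hp hadj)
      have hr2 : r.1 ∉ B.support := fun hm => r.2.2 (hz r.1 hm p.1 hp hadj)
      obtain ⟨w, hw⟩ := hp
      refine ⟨w.concat hadj, ?_⟩
      intro t ht
      rw [SimpleGraph.Walk.support_concat] at ht
      rcases List.mem_append.mp ht with ht | ht
      · exact hw t ht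
      · rw [List.mem_singleton] at ht
        rw [ht]; exact ⟨hr1, hr2⟩
  obtain ⟨W⟩ := h3.2 y z ⟨x, hxy, hxz⟩ ⟨c, hcy, hcz⟩
  obtain ⟨w, hw⟩ := key W hx
  exact (hw c w.end_mem_support).1 hcA

end

end Pool.Agent.Run7.h178
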