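import Mathlib
import Pool.Agent.Run7.h178.Struct
import Pool.Agent.Run7.h178.NotIK

/-! Labels from two complementary induced cycles, and the structure theorem. -/

namespace Pool.Agent.Run7.h178

open Pool.Agent.Helper683.Lk (R3 SpatialEmbedding IsLinkingNumber)

variable {V : Type*} {G : SimpleGraph V}

theorem exists_idx {a : V} (A : G.Walk a a) (hA : A.IsCycle) : ∃ idx : V → ℕ,
    (∀ i < A.length, idx (A.getVert i) = i) ∧ (∀ v ∈ A.support, idx v < A.length ∧ A.getVert (idx v) = v) := by
  classical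
  have h3 := hA.three_le_length
  have hex : ∀ v ∈ A.support, ∃ i, i < A.length ∧ A.getVert i = v := by
    intro v hv
    obtain ⟨i, h1, h2⟩ := SimpleGraph.Walk.mem_support_iff_exists_getVert.mp hv
    by_cases hi : i < A.length
    · exact ⟨i, hi, h1⟩
    · refine ⟨0, by omega, ?_⟩
      have : i = A.length := by omega
      rw [this, SimpleGraph.Walk.getVert_length] at h1
      rw [SimpleGraph.Walk.getVert_zero, h1]
  refine ⟨fun v => if h : ∃ i, i < A.length ∧ A.getVert i = v then h.choose else 0, ?_, ?_⟩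
  · intro i hi
    have h : ∃ j, j < A.length ∧ A.getVert j = A.getVert i := ⟨i, hi, rfl⟩
    dsimp only
    rw [dif_pos h]
    obtain ⟨h1, h2⟩ := h.choose_spec
    exact hA.getVert_injOn' (by simp only [Set.mem_ofPred_eq]; omega) (by simp only [Set.mem_ofPred_eq]; omega) h2
  · intro v hv
    have h := hex v hv
    dsimp only
    rw [dif_pos h]
    exact h.choose_spec

theorem idx_adj {a : V} {A : G.Walk a a} (hA : A.IsCycle) {idx : V → ℕ}
    (h1 : ∀ i < A.length, idx (A.getVert i) = i) {u v : V} (he : s(u, v) ∈ A.edges) :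
    cadj A.length (idx u) (idx v) := by
  have h3 := hA.three_le_length
  rw [SimpleGraph.Walk.mk_mem_edges_iff_exists] at he
  obtain ⟨i, hi, he⟩ := he
  have key : cadj A.length (idx (A.getVert i)) (idx (A.getVert (i + 1))) := by
    rw [h1 i hi]
    by_cases hi' : i + 1 < A.length
    · rw [h1 (i + 1) hi']
      exact Or.inl rfl
    · have : i + 1 = A.length := by omega
      rw [this, SimpleGraph.Walk.getVert_length]
      have h0 := h1 0 (by omega)
      rw [SimpleGraph.Walk.getVert_zero] at h0
      rw [h0]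
      exact Or.inr (Or.inr (Or.inr ⟨rfl, this⟩))
  rcases Sym2.eq_iff.mp he with ⟨e1, e2⟩ | ⟨e1, e2⟩
  · rw [e1, e2] at key; exact key
  · rw [e1, e2] at key; exact cadj_symm key

/-- labels for a graph which is the union of two disjoint induced cycles and edges between them -/
theorem exists_lab {a b : V} {A : G.Walk a a} {B : G.Walk b b} (hA : A.IsCycle) (hB : B.IsCycle)
    (hd : List.Disjoint A.support B.support) (hs : ∀ x, x ∈ A.support ∨ x ∈ B.support)
    (iA : ∀ u ∈ A.support, ∀ v ∈ A.support, G.Adj u v → s(u, v) ∈ A.edges)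
    (iB : ∀ u ∈ B.support, ∀ v ∈ B.support, G.Adj u v → s(u, v) ∈ B.edges) :
    ∃ lab : V → Lb, Lab G A.length B.length lab := by
  classical
  obtain ⟨f, f1, f2⟩ := exists_idx A hA
  obtain ⟨g, g1, g2⟩ := exists_idx B hB
  have hsB : ∀ x, x ∉ A.support → x ∈ B.support := fun x hx => (hs x).resolve_left hx
  refine ⟨fun v => if v ∈ A.support then (true, f v) else (false, g v), ?_, ?_, ?_⟩
  · intro u v e
    dsimp only at e
    split_ifs at e with hu hv hv
    · have e' : f u = f v := by simpa using e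
      rw [← (f2 u hu).2, ← (f2 v hv).2, e']
    · simp at e
    · simp at e
    · have e' : g u = g v := by simpa using e
      rw [← (g2 u (hsB u hu)).2, ← (g2 v (hsB v hv)).2, e']
  · intro v
    split_ifs with hv
    · simpa [okl] using (f2 v hv).1
    · simpa [okl] using (g2 v (hsB v hv)).1
  · intro u v h
    split_ifs with hu hv hv
    · right
      refine ⟨rfl, ?_⟩
      simpa using idx_adj hA f1 (iA u hu v hv h)
    · left; simp
    · left; simp
    · right
      refine ⟨rfl, ?_⟩
      simpa using idx_adj hB g1 (iB u (hsB u hu) v (hsB v hv) h)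

theorem sameCycle_mem {a c : V} {A : G.Walk a a} {C : G.Walk c c} (hA : A.IsCycle) (h : SameCycle C A) :
    a ∈ C.support := by
  have : s(a, A.snd) ∈ A.edges := A.mk_start_snd_mem_edges hA.not_nil
  exact SimpleGraph.Walk.fst_mem_support_of_mem_edges _ ((h _).mpr this)

theorem structure_thm [Finite V] {a b : V} {A : G.Walk a a} {B : G.Walk b b} {E : SpatialEmbedding G} {k : ℤ}
    (h3 : ThreeConnected G) (hIK : IntrinsicallyKnotted G) (hA : A.IsCycle) (hB : B.IsCycle)
    (hd : List.Disjoint A.support B.support) (hk : IsLinkingNumber (E.curve A) (E.curve B) k) (hk0 : k ≠ 0)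
    (ho : OnlyPair E A B) :
    (∀ x, x ∈ A.support ∨ x ∈ B.support) ∧
    (∀ u ∈ A.support, ∀ v ∈ A.support, G.Adj u v → s(u, v) ∈ A.edges) ∧
    (∀ u ∈ B.support, ∀ v ∈ B.support, G.Adj u v → s(u, v) ∈ B.edges) ∧
    5 ≤ A.length ∧ 5 ≤ B.length := by
  classical
  haveI : Fintype V := Fintype.ofFinite V
  obtain ⟨S⟩ := exists_scale E
  have hT : TT S A B ≠ 0 := by
    rw [← lk_eq S hA hB hd hk]; exact hk0
  have hT' : TT S B A ≠ 0 := by rw [← TT_symm S hA hB hd]; exact hT
  have o1 : ∀ (c : V) (C : G.Walk c c), C.IsCycle → List.Disjoint C.support B.support → TT S C B ≠ 0 →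
      ∀ e ∈ C.edges, e ∈ A.edges := by
    intro c C hC hdC hCB
    rcases ho c b C B _ hC hB hdC (isLk' S hC hB hdC) hCB with ⟨h, _⟩ | ⟨h, _⟩
    · exact fun e he => (h e).mp he
    · exact absurd B.start_mem_support (hdC (sameCycle_mem hB h))
  have o2 : ∀ (c : V) (C : G.Walk c c), C.IsCycle → List.Disjoint C.support A.support → TT S C A ≠ 0 →
      ∀ e ∈ C.edges, e ∈ B.edges := by
    intro c C hC hdC hCB
    rcases ho c a C A _ hC hA hdC (isLk' S hC hA hdC) hCB with ⟨h, _⟩ | ⟨h, _⟩
    · exact absurd A.start_mem_support (hdC (sameCycle_mem hA h))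
    · exact fun e he => (h e).mp he
  have hs := spanning S h3 hA hB hd hT o1 o2
  have iA : ∀ u ∈ A.support, ∀ v ∈ A.support, G.Adj u v → s(u, v) ∈ A.edges :=
    fun u hu v hv h => no_chord S hA hd hT o1 hu hv h
  have iB : ∀ u ∈ B.support, ∀ v ∈ B.support, G.Adj u v → s(u, v) ∈ B.edges :=
    fun u hu v hv h => no_chord S hB hd.symm hT' o2 hu hv h
  refine ⟨hs, iA, iB, ?_, ?_⟩
  · by_contra hc
    obtain ⟨lab, hL⟩ := exists_lab hB hA hd.symm (fun x => (hs x).symm) iB iA
    exact not_IK_four hB.three_le_length hA.three_le_length (by omega) hL hIK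
  · by_contra hc
    obtain ⟨lab, hL⟩ := exists_lab hA hB hd hs iA iB
    exact not_IK_four hA.three_le_length hB.three_le_length (by omega) hL hIK

end Pool.Agent.Run7.h178
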